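import Pool.Agent.KThree.CasesB

/-!
# There are no relations
-/

set_option autoImplicit false
set_option linter.unusedSectionVars false

namespace Pool.Agent.KThree

open MulAction

namespace Data

variable {G Y : Type} [Group G] [MulAction G Y] [Fintype Y] [DecidableEq Y] {S : Data G Y}

/-- `f = d = 9` -/
theorem eq_zero_of_nine [Finite G] (hY : Fintype.card Y = 18) (hB : S.B.card = 9)
    {m₀ : Y → ℤ} (hm₀ : S.IsRel m₀) : m₀ = 0 := by
  classical
  by_contra h0
  have : Fact (Nat.Prime 3) := ⟨Nat.prime_three⟩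
  let P : Sylow 3 S.D := default
  let P' : Subgroup G := (P : Subgroup S.D).map S.D.subtype
  have hP' : IsPGroup 3 P' := P.2.map S.D.subtype
  obtain ⟨m, hm, ⟨y₀, hy₀⟩, hfix⟩ := exists_fixed_mod 3 P' hP' hm₀ h0
  have hhalf : ∀ y, y ∈ S.B ↔ S.inv y ∉ S.B :=
    half_iff S.B S.disj (by rw [hB, hY])
  have hr : ∀ y, S.r y = 1 ∨ S.r y = -1 := by
    intro y
    by_cases h : y ∈ S.B
    · exact Or.inl (r_of_mem h)
    · right
      apply r_of_inv_mem
      by_contra h1
      exact h ((hhalf y).2 h1)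
  obtain ⟨b₀, hb₀⟩ : S.B.Nonempty := Finset.card_pos.1 (by rw [hB]; norm_num)
  -- `m` is constant on `B` modulo three
  have hconst : ∀ b ∈ S.B, (3 : ℤ) ∣ m b - m b₀ := by
    intro b hb
    obtain ⟨g, hg, hgb⟩ := sylow_transitive 3 2 (by simp [hB]) P (⟨b₀, hb₀⟩ : S.B) ⟨b, hb⟩
    have h1 : (g : G) • b₀ = b := congrArg Subtype.val hgb
    have h2 := hfix (g : G) (Subgroup.mem_map_of_mem S.D.subtype hg) b₀
    rw [h1] at h2
    exact_mod_cast h2
  have hmod : ∀ y, (3 : ℤ) ∣ m y - m b₀ * S.r y := by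
    intro y
    by_cases h : y ∈ S.B
    · rw [r_of_mem h, mul_one]
      exact hconst y h
    · have h1 : S.inv y ∈ S.B := by
        by_contra h1
        exact h ((hhalf y).2 h1)
      have h2 := hconst _ h1
      rw [hm.1] at h2
      rw [r_of_inv_mem h1]
      have h3 : m y - m b₀ * -1 = -(- m y - m b₀) := by ring
      rw [h3]
      exact h2.neg_right
  have hk : ¬ (3 : ℤ) ∣ m b₀ := by
    intro h
    apply hy₀
    have h1 := dvd_add (hmod y₀) (h.mul_right (S.r y₀))
    rw [sub_add_cancel] at h1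
    exact_mod_cast h1
  -- the sums of the signs
  let c : G → ℤ := fun g => ∑ b ∈ S.B, S.r (g • b)
  have hc3 : ∀ g, (3 : ℤ) ∣ c g := by
    intro g
    have h1 : (3 : ℤ) ∣ ∑ b ∈ S.B, (m (g • b) - m b₀ * S.r (g • b)) :=
      Finset.dvd_sum fun b _ => hmod _
    rw [Finset.sum_sub_distrib, hm.2 g, zero_sub, dvd_neg, ← Finset.mul_sum] at h1
    exact (Int.prime_three.dvd_or_dvd h1).resolve_left hk
  have hc4 : ∀ g, c g % 4 = 1 ∨ c g % 4 = 3 := by
    intro g
    have h1 : (2 : ℤ) ∣ ∑ b ∈ S.B, (S.r (g • b) - 1) := by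
      refine Finset.dvd_sum fun b _ => ?_
      rcases hr (g • b) with h | h <;> rw [h] <;> decide
    rw [Finset.sum_sub_distrib, Finset.sum_const, hB] at h1
    change (2 : ℤ) ∣ c g - _ at h1
    simp only [nsmul_eq_mul, mul_one] at h1
    push_cast at h1
    omega
  have hinner : ∀ g h : G, ∑ b ∈ S.B, S.r (g • b) * S.r (h • b) = c (g * h⁻¹) := by
    intro g h
    have h1 := S.sum_even S.B hhalf (fun y => S.r (g • y) * S.r (h • y)) fun y => by
      rw [S.smul_inv, S.smul_inv, r_inv, r_inv]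
      ring
    have h2 := S.sum_even S.B hhalf (fun y => S.r ((g * h⁻¹) • y) * S.r y) fun y => by
      rw [S.smul_inv, r_inv, r_inv]
      ring
    have h3 : ∑ y, S.r (g • y) * S.r (h • y) = ∑ y, S.r ((g * h⁻¹) • y) * S.r y := by
      refine Fintype.sum_equiv (MulAction.toPerm h) _ _ fun y => ?_
      rw [MulAction.toPerm_apply, mul_smul, inv_smul_smul]
    have h4 : ∑ b ∈ S.B, S.r ((g * h⁻¹) • b) * S.r b = c (g * h⁻¹) := by
      refine Finset.sum_congr rfl fun b hb => ?_
      rw [r_of_mem hb, mul_one]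
    rw [h1, h2, h4] at h3
    exact mul_left_cancel₀ two_ne_zero h3
  -- the normalised signs
  let σ : G → ℤ := fun g => if c g % 4 = 1 then 1 else -1
  have hσ : ∀ g, σ g = 1 ∨ σ g = -1 := by
    intro g
    change (if c g % 4 = 1 then (1 : ℤ) else -1) = 1 ∨ (if c g % 4 = 1 then (1 : ℤ) else -1) = -1
    split_ifs
    · exact Or.inl rfl
    · exact Or.inr rfl
  have hσc : ∀ g, (4 : ℤ) ∣ σ g * c g - 1 := by
    intro g
    change (4 : ℤ) ∣ (if c g % 4 = 1 then (1 : ℤ) else -1) * c g - 1
    rcases hc4 g with h | h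
    · rw [if_pos h]
      omega
    · rw [if_neg (by omega)]
      omega
  let w : G → S.B → ℤ := fun g b => σ g * S.r (g • (b : Y))
  have hw : ∀ g b, w g b = 1 ∨ w g b = -1 := by
    intro g b
    change σ g * S.r (g • (b : Y)) = 1 ∨ σ g * S.r (g • (b : Y)) = -1
    rcases hσ g with h | h <;> rcases hr (g • (b : Y)) with h' | h' <;> rw [h, h'] <;> decide
  have hsum : ∀ g, ∑ b, w g b = σ g * c g := by
    intro g
    change ∑ b : S.B, σ g * S.r (g • (b : Y)) = _
    rw [← Finset.mul_sum]
    congr 1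
    exact Finset.sum_coe_sort S.B fun b => S.r (g • b)
  have hprod : ∀ g h, ∑ b, w g b * w h b = σ g * σ h * c (g * h⁻¹) := by
    intro g h
    rw [← hinner]
    have h1 : ∀ b : S.B, w g b * w h b =
        σ g * σ h * (S.r (g • (b : Y)) * S.r (h • (b : Y))) := by
      intro b
      change σ g * S.r (g • (b : Y)) * (σ h * S.r (h • (b : Y))) = _
      ring
    rw [Finset.sum_congr rfl fun b _ => h1 b, ← Finset.mul_sum]
    congr 1
    exact Finset.sum_coe_sort S.B fun b => S.r (g • b) * S.r (h • b)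
  have hp : ∀ g h, ∑ b, w g b * w h b = 9 ∨ ∑ b, w g b * w h b = -3 := by
    intro g h
    have h1 : (4 : ℤ) ∣ ∑ b, (w g b * w h b - (w g b + w h b - 1)) :=
      Finset.dvd_sum fun b _ => sign_mul (hw g b) (hw h b)
    rw [Finset.sum_sub_distrib, Finset.sum_sub_distrib, Finset.sum_add_distrib, hsum, hsum] at h1
    have h2 : ∑ _b : S.B, (1 : ℤ) = 9 := by simp [hB]
    rw [h2] at h1
    have h3 : (3 : ℤ) ∣ ∑ b, w g b * w h b := by
      rw [hprod]
      exact (hc3 _).mul_left _
    have h4 : ∀ b, -1 ≤ w g b * w h b ∧ w g b * w h b ≤ 1 := by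
      intro b
      rcases hw g b with h | h <;> rcases hw _ b with h' | h' <;> rw [h, h'] <;> decide
    have h5 : ∑ b, w g b * w h b ≤ 9 := by
      rw [← h2]
      exact Finset.sum_le_sum fun b _ => (h4 b).2
    have h6 : -9 ≤ ∑ b, w g b * w h b := by
      have : (-9 : ℤ) = ∑ _b : S.B, (-1 : ℤ) := by simp [hB]
      rw [this]
      exact Finset.sum_le_sum fun b _ => (h4 b).1
    have h7 := hσc g
    have h8 := hσc h
    omega
  have hone : ∀ b, w 1 b = 1 := by
    intro b
    have h1 : c 1 = 9 := by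
      change ∑ b ∈ S.B, S.r ((1 : G) • b) = 9
      have h2 : ∀ b ∈ S.B, S.r ((1 : G) • b) = 1 := by
        intro b hb
        rw [one_smul, r_of_mem hb]
      rw [Finset.sum_congr rfl h2]
      simp [hB]
    change (if c 1 % 4 = 1 then (1 : ℤ) else -1) * S.r ((1 : G) • (b : Y)) = 1
    rw [h1, one_smul, r_of_mem b.2]
    decide
  have : Fintype G := Fintype.ofFinite G
  obtain ⟨b, b', hbb', hsame⟩ := nine (ι := G) S.B (by simp [hB]) w hw 1 hone hp
  apply hbb'
  apply Subtype.ext
  refine eq_of_r (S := S) fun g => ?_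
  have h1 := hsame g
  change σ g * S.r (g • (b : Y)) = σ g * S.r (g • (b' : Y)) at h1
  have h2 : σ g ≠ 0 := by
    rcases hσ g with h | h <;> rw [h] <;> decide
  exact mul_left_cancel₀ h2 h1

theorem eq_zero_of_rat {m : Y → ℤ} (h : (fun y => (m y : ℚ)) = 0) : m = 0 := by
  funext y
  have h1 : (m y : ℚ) = 0 := congrFun h y
  exact Int.cast_eq_zero.1 h1

/-- The relations are trivial for odd `f`, apart from four pairs `(f, d)`. -/
theorem core [Finite G] {d : ℕ} (hY : Fintype.card Y = 2 * d) (hd : d ≤ 11)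
    (hf : Odd S.B.card)
    (hex : (S.B.card, d) ∉ ({(3, 6), (3, 9), (3, 10), (5, 10)} : Set (ℕ × ℕ)))
    {m : Y → ℤ} (hm : S.IsRel m) : m = 0 := by
  have hfd : S.B.card ≤ d := by
    have h1 : S.B.card + (S.B.image S.inv).card ≤ Fintype.card Y := by
      rw [← Finset.card_union_of_disjoint]
      · exact Finset.card_le_univ _
      · rw [Finset.disjoint_left]
        intro y hy hy'
        obtain ⟨z, hz, rfl⟩ := Finset.mem_image.1 hy'
        exact S.disj z hz hy
    rw [Finset.card_image_of_injective _ S.inv_injective, hY] at h1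
    omega
  have hrat := hm.cast ℚ
  have hprime : ∀ l, l.Prime → l ≠ 2 → S.B.card = l → d < 2 * l → m = 0 := by
    intro l hl hl2 hB hdl
    have : Fact l.Prime := ⟨hl⟩
    exact eq_zero_of_rat (eq_zero_of_prime l hl2 hB (by rw [hY]; omega) hrat)
  have hprime' : d.Prime → d ≠ 2 → m = 0 := by
    intro hl hl2
    have : Fact d.Prime := ⟨hl⟩
    exact eq_zero_of_rat (eq_zero_of_prime_dim d hl2 hY hf hrat)
  have htwo : ∀ a, 2 * d = 2 ^ a → m = 0 := fun a ha =>
    eq_zero_of_two_pow a (by rw [hY, ha]) hf hm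
  by_cases hone : S.B.card = 1
  · exact eq_zero_of_rat (eq_zero_of_one hone hrat)
  by_cases h9 : S.B.card = 9
  · rw [h9] at hfd
    interval_cases d
    · exact eq_zero_of_nine hY h9 hm
    · exact eq_zero_of_succ (by rw [hY, h9]) hf hm
    · exact hprime' (by norm_num) (by norm_num)
  obtain ⟨k, hk⟩ := hf
  have hcases : S.B.card = 3 ∨ S.B.card = 5 ∨ S.B.card = 7 ∨ S.B.card = 11 := by omega
  rcases hcases with h | h | h | h
  · rw [h] at hex hfd
    interval_cases d
    · exact hprime 3 (by norm_num) (by norm_num) h (by norm_num)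
    · exact hprime 3 (by norm_num) (by norm_num) h (by norm_num)
    · exact hprime 3 (by norm_num) (by norm_num) h (by norm_num)
    · exact absurd (by simp) hex
    · exact hprime' (by norm_num) (by norm_num)
    · exact htwo 4 (by norm_num)
    · exact absurd (by simp) hex
    · exact absurd (by simp) hex
    · exact hprime' (by norm_num) (by norm_num)
  · rw [h] at hex hfd
    by_cases h10 : d < 10
    · exact hprime 5 (by norm_num) (by norm_num) h (by omega)
    · interval_cases d
      · exact absurd (by simp) hex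
      · exact hprime' (by norm_num) (by norm_num)
  · exact hprime 7 (by norm_num) (by norm_num) h (by omega)
  · exact hprime 11 (by norm_num) (by norm_num) h (by omega)

end Data

end Pool.Agent.KThree
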