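import Pool.Agent.KThree.MkData
import Pool.Agent.KThree.Core

/-!
# Multisets of eigenvalues with a root of unity as product

PACKAGE (statements frozen; the statements of `MkData.lean`, `Places.lean` and `Core.lean` may be
used with their sorry).
* `ne_inv`: a root `μ` of `Q` in a field `K` of characteristic zero with `μ = μ⁻¹` would be `± 1`
  (or `0`), so `Q = X - 1`, `X + 1` or `X` (monic irreducible with a rational root), whose root is
  rational with a norm `‖μ‖ ≤ 1` in `ℚ_[p]`, against the existence of a root of negative valuation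
  (`card_B`, `f > 0` since `f` is odd or since `A` is irreducible); or use the data of
  `exists_data`: `S.inv_ne`, via an embedding `ψ : Spl Q → K`.
* `balanced`: take `ψ : Spl Q →ₐ[ℚ] K` (`IsAlgClosed.lift`); every root of `Q` in `K` is `ψ z` for a
  root `z` in `Spl Q` (`Q` splits in `Spl Q`). Let `M₁` be the multiset of the members of `M` which
  are `≠ 1`, `M₁ = M₂.map (ψ ∘ Rt.val)` for a multiset `M₂` of `Rt Q`; `M₂.map val` has the product
  `P` with `ψ P ^ m = 1`, so `P ^ m = 1`. `rel_of_prod` and `Data.core` (with `card_Rt`): the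
  function `M₂.count z - M₂.count (S.inv z)` is zero. For `μ = ψ z`: `M.count μ = M₂.count z`
  (injectivity of `ψ ∘ val`), `μ⁻¹ = ψ (S.inv z)`; if neither `μ` nor `μ⁻¹` is a root of `Q`, both
  counts are zero (`1` is no root: `ne_inv`; the roots are closed under inversion: `inv_mem`).
-/

set_option autoImplicit false

namespace Pool.Agent.KThree

open Polynomial

variable {Q : ℚ[X]} {p f d : ℕ} [Fact p.Prime] {K : Type} [Field K] [IsAlgClosed K] [CharZero K]

private theorem bl_aeval_hom {E L : Type*} [Field E] [Field L] [Algebra ℚ E] [Algebra ℚ L]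
    (ψ : E →+* L) (Q : ℚ[X]) (x : E) : aeval (ψ x) Q = ψ (aeval x Q) := by
  rw [aeval_def, aeval_def, hom_eval₂]
  congr 1
  exact Subsingleton.elim _ _

private theorem bl_splits (Q : ℚ[X]) : (Q.map (algebraMap ℚ (Spl Q))).Splits := by
  have h := SplittingField.splits Q
  have e : algebraMap ℚ (Spl Q) = algebraMap ℚ (SplittingField Q) := Subsingleton.elim _ _
  rw [e]
  exact h

/-- an embedding of the splitting field in `K` -/
private noncomputable def psi (Q : ℚ[X]) (K : Type) [Field K] [IsAlgClosed K] [CharZero K] :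
    Spl Q →+* K :=
  (IsAlgClosed.lift : Spl Q →ₐ[ℚ] K).toRingHom

private theorem exists_rt (hQ : IsKThreePoly Q p f) {μ : K} (hμ : aeval μ Q = 0) :
    ∃ z : Rt Q, psi Q K z.val = μ := by
  have h : μ ∈ Q.rootSet K := by
    rw [mem_rootSet]
    exact ⟨hQ.monic.ne_zero, hμ⟩
  rw [← (bl_splits Q).image_rootSet (psi Q K).toRatAlgHom] at h
  obtain ⟨z, hz, rfl⟩ := h
  exact ⟨Rt.mk z hz, rfl⟩

private theorem aeval_psi (z : Rt Q) : aeval (psi Q K z.val) Q = 0 := by
  rw [bl_aeval_hom (psi Q K) Q z.val, aeval_eq_zero_of_mem_rootSet z.mem, map_zero]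

private theorem psi_inv {S : Data (Gr Q) (Rt Q)} (hS : IsData Q p S) (z : Rt Q) :
    psi Q K (S.inv z).val = (psi Q K z.val)⁻¹ := by
  rw [hS.inv, map_inv₀]

private theorem psi_inj : Function.Injective fun z : Rt Q => psi Q K z.val := fun z w h =>
  Rt.ext ((psi Q K).injective h)

theorem ne_inv (hQ : IsKThreePoly Q p f) (hneat : Neat Q) {μ : K} (hμ : aeval μ Q = 0) :
    μ ≠ 1 ∧ μ ≠ μ⁻¹ := by
  obtain ⟨z, rfl⟩ := exists_rt hQ hμ
  obtain ⟨S, hS, -⟩ := exists_data hQ hneat
  have h : psi Q K z.val ≠ (psi Q K z.val)⁻¹ := by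
    intro h
    rw [← psi_inv hS] at h
    exact S.inv_ne z (psi_inj (K := K) h).symm
  refine ⟨fun h1 => h ?_, h⟩
  rw [h1, inv_one]

private theorem exists_lift {α β : Type} (g : α → β) (N : Multiset β)
    (h : ∀ b ∈ N, ∃ a, g a = b) : ∃ N' : Multiset α, N'.map g = N := by
  induction N using Multiset.induction_on with
  | empty => exact ⟨0, rfl⟩
  | cons b N ih =>
    obtain ⟨a, ha⟩ := h b (Multiset.mem_cons_self b N)
    obtain ⟨N', hN'⟩ := ih fun c hc => h c (Multiset.mem_cons_of_mem hc)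
    exact ⟨a ::ₘ N', by rw [Multiset.map_cons, ha, hN']⟩

theorem balanced [DecidableEq K] (hQ : IsKThreePoly Q p f) (hneat : Neat Q)
    (hdeg : Q.natDegree = 2 * d) (hd : d ≤ 11) (hf : Odd f)
    (hex : (f, d) ∉ ({(3, 6), (3, 9), (3, 10), (5, 10)} : Set (ℕ × ℕ)))
    (M : Multiset K) (hM : ∀ μ ∈ M, μ = 1 ∨ aeval μ Q = 0) {m : ℕ} (hm : 0 < m)
    (hprod : M.prod ^ m = 1) (μ : K) (hμ : μ ≠ 1) : M.count μ = M.count μ⁻¹ := by
  classical
  obtain ⟨S, hS, hcard⟩ := exists_data hQ hneat
  obtain ⟨M₂, hM₂⟩ := exists_lift (fun z : Rt Q => psi Q K z.val) (M.filter fun c => ¬ c = 1) <| by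
    intro c hc
    rw [Multiset.mem_filter] at hc
    exact exists_rt hQ ((hM c hc.1).resolve_left hc.2)
  have hp1 : (M.filter fun c => ¬ c = 1).prod = M.prod := by
    conv_rhs => rw [← Multiset.filter_add_not (fun c => c = 1) M]
    rw [Multiset.prod_add, Multiset.prod_eq_one (s := M.filter fun c => c = 1), one_mul]
    intro c hc
    exact (Multiset.mem_filter.1 hc).2
  have hp2 : (M₂.map Rt.val).prod ^ m = 1 := by
    refine (psi Q K).injective ?_
    rw [map_pow, map_multiset_prod, Multiset.map_map, map_one]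
    have : M₂.map (⇑(psi Q K) ∘ Rt.val) = M.filter fun c => ¬ c = 1 := hM₂
    rw [this, hp1, hprod]
  have hrel := rel_of_prod hQ hS M₂ hm hp2
  have hzero := Data.core (d := d) (by rw [card_Rt hQ, hdeg]) hd (by rw [hcard]; exact hf)
    (by rw [hcard]; exact hex) hrel
  have hcnt : ∀ z : Rt Q, M₂.count z = M₂.count (S.inv z) := by
    intro z
    have h := congrFun hzero z
    simp only [Pi.zero_apply] at h
    omega
  have hc : ∀ z : Rt Q, psi Q K z.val ≠ 1 → M.count (psi Q K z.val) = M₂.count z := by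
    intro z hz
    rw [← Multiset.count_filter_of_pos (p := fun c => ¬ c = 1) hz, ← hM₂]
    exact Multiset.count_map_eq_count' _ _ (psi_inj (K := K)) z
  by_cases hroot : aeval μ Q = 0
  · obtain ⟨z, rfl⟩ := exists_rt hQ hroot
    have h1 : (psi Q K z.val)⁻¹ ≠ 1 := by
      rw [Ne, inv_eq_one]
      exact hμ
    rw [← psi_inv hS] at h1 ⊢
    rw [hc z hμ, hc _ h1, hcnt]
  · have h1 : μ ∉ M := fun h => ((hM μ h).resolve_left hμ |> hroot)
    have h2 : μ⁻¹ ∉ M := by
      intro h
      rcases hM _ h with h3 | h3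
      · rw [inv_eq_one] at h3
        exact hμ h3
      · obtain ⟨z, hz⟩ := exists_rt hQ h3
        apply hroot
        rw [← inv_inv μ, ← hz, ← psi_inv hS]
        exact aeval_psi _
    rw [Multiset.count_eq_zero_of_notMem h1, Multiset.count_eq_zero_of_notMem h2]

end Pool.Agent.KThree
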