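import Pool.Agent.KThree.Defs

/-!
# Invariant multilinear forms which are no sums of pair products

PACKAGE (statement frozen). Proof: `w i ≠ 0` an eigenvector for `μ i`. As `F` is diagonalisable there
is a linear form `ψ i` with `ψ i (F x) = μ i * ψ i x` and `ψ i (w i) ≠ 0` (a basis of eigenvectors
containing `w i`, or: `V` is the direct sum of the eigenspaces, compose the projection on the
eigenspace of `μ i` with a linear form which does not vanish at `w i`; `Multi.lean` constructs a
basis `b` of eigenvectors `F (b j) = l j • b j`: take `j` with `l j = μ i` and `w i = b j`,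
`ψ i = b.coord j`, since `μ i` is an eigenvalue such a `j` exists). Let `T v = ∏ i, ψ i (v i)`
(`MultilinearMap.mkPiAlgebra` composed with the linear maps `ψ i`, as in `Multi.lean`). It is
invariant by `F ^ m` since `(∏ μ i) ^ m = 1`, and `T w ≠ 0`. Every pair product `T'` has `T' w = 0`:
`φ i (w i) = φ i (F (w i)) = μ i * φ i (w i)`, so `φ i (w i) = 0` (`μ i ≠ 1`); and
`b i (w i) (w j) = μ i * μ j * b i (w i) (w j)`, so it vanishes for `i ≠ j`; as `0 < k` the product has
at least one such factor (the index `0` is a fixed point of `τ`, or `i < τ i` for `i = 0` or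
`i = τ 0`). Evaluation at `w` is linear, so it vanishes on the span.
-/

set_option autoImplicit false

namespace Pool.Agent.KThree

open Module

private theorem exists_form {K V : Type} [Field K] [AddCommGroup V] [Module K V]
    (F : Module.End K V) (hF : ⨆ μ : K, F.eigenspace μ = ⊤) {μ : K}
    {w : V} (hw : w ∈ F.eigenspace μ) (hw0 : w ≠ 0) :
    ∃ ψ : V →ₗ[K] K, (∀ x, ψ (F x) = μ * ψ x) ∧ ψ w ≠ 0 := by
  have hN : w ∉ ⨆ ν, ⨆ _ : ν ≠ μ, F.eigenspace ν := by
    intro h
    have hi := F.eigenspaces_iSupIndep μ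
    exact hw0 ((Submodule.disjoint_def.1 hi) w hw h)
  obtain ⟨ψ, h1, h2⟩ := Submodule.exists_le_ker_of_notMem hN
  refine ⟨ψ, ?_, h1⟩
  have h3 : (⊤ : Submodule K V) ≤ LinearMap.ker (ψ ∘ₗ F - μ • ψ) := by
    rw [← hF]
    refine iSup_le fun ν x hx => ?_
    rw [LinearMap.mem_ker, LinearMap.sub_apply, LinearMap.comp_apply, LinearMap.smul_apply,
      Module.End.mem_eigenspace_iff.1 hx, map_smul]
    by_cases hν : ν = μ
    · rw [hν, sub_self]
    · have h4 : ψ x = 0 := by
        have : x ∈ ⨆ ν, ⨆ _ : ν ≠ μ, F.eigenspace ν :=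
          Submodule.mem_iSup_of_mem ν (Submodule.mem_iSup_of_mem hν hx)
        exact LinearMap.mem_ker.1 (h2 this)
      rw [h4, smul_zero, smul_zero, sub_zero]
  intro x
  have h5 := LinearMap.mem_ker.1 (h3 (Submodule.mem_top : x ∈ ⊤))
  rw [LinearMap.sub_apply, LinearMap.comp_apply, LinearMap.smul_apply, smul_eq_mul] at h5
  exact sub_eq_zero.1 h5

private theorem form_pow {K V : Type} [Field K] [AddCommGroup V] [Module K V]
    {F : Module.End K V} {μ : K} {ψ : V →ₗ[K] K} (h : ∀ x, ψ (F x) = μ * ψ x) (m : ℕ) (x : V) :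
    ψ ((F ^ m) x) = μ ^ m * ψ x := by
  induction m with
  | zero => simp
  | succ m ih =>
    rw [pow_succ', Module.End.mul_apply, h, ih, pow_succ']
    ring

theorem exists_notMem_span {K V : Type} [Field K] [AddCommGroup V] [Module K V]
    [FiniteDimensional K V] (F : Module.End K V) (hF : ⨆ μ : K, F.eigenspace μ = ⊤)
    {k : ℕ} (hk : 0 < k) (μ : Fin k → K) (hμ : ∀ i, F.HasEigenvalue (μ i))
    (h1 : ∀ i, μ i ≠ 1) (h2 : ∀ i j, i ≠ j → μ i * μ j ≠ 1) (m : ℕ) (hm : (∏ i, μ i) ^ m = 1) :
    ∃ T : MultilinearMap K (fun _ : Fin k => V) K,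
      (∀ v : Fin k → V, T (fun i => (F ^ m) (v i)) = T v) ∧
      T ∉ Submodule.span K {T' | IsPairProduct F T'} := by
  have hex : ∀ i, ∃ w : V, w ∈ F.eigenspace (μ i) ∧ w ≠ 0 := fun i => by
    obtain ⟨w, hw⟩ := (hμ i).exists_hasEigenvector
    exact ⟨w, hw.1, hw.2⟩
  choose w hw hw0 using hex
  choose ψ hψ hψ0 using fun i => exists_form F hF (hw i) (hw0 i)
  have hFw : ∀ i, F (w i) = μ i • w i := fun i => Module.End.mem_eigenspace_iff.1 (hw i)
  refine ⟨(MultilinearMap.mkPiAlgebra K (Fin k) K).compLinearMap ψ, ?_, ?_⟩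
  · intro v
    rw [MultilinearMap.compLinearMap_apply, MultilinearMap.compLinearMap_apply,
      MultilinearMap.mkPiAlgebra_apply, MultilinearMap.mkPiAlgebra_apply]
    simp only [fun i => form_pow (hψ i) m (v i)]
    rw [Finset.prod_mul_distrib, Finset.prod_pow, hm, one_mul]
  · intro hT
    have hz : ∀ T' ∈ Submodule.span K {T' : MultilinearMap K (fun _ : Fin k => V) K |
        IsPairProduct F T'}, T' w = 0 := by
      intro T' hT'
      induction hT' using Submodule.span_induction with
      | mem T' h =>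
        obtain ⟨τ, φ, b, hτ, hφ, hb, h⟩ := h
        have e1 : ∀ i, φ i (w i) = 0 := by
          intro i
          have h3 := hφ i (w i)
          rw [hFw, map_smul, smul_eq_mul] at h3
          have h4 : (μ i - 1) * φ i (w i) = 0 := by linear_combination h3
          exact (mul_eq_zero.1 h4).resolve_left (sub_ne_zero.2 (h1 i))
        have e2 : ∀ i j, i ≠ j → b i (w i) (w j) = 0 := by
          intro i j hij
          have h3 := hb i (w i) (w j)
          rw [hFw, hFw, map_smul, map_smul, LinearMap.smul_apply, smul_eq_mul, smul_eq_mul] at h3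
          have h4 : (μ i * μ j - 1) * b i (w i) (w j) = 0 := by linear_combination h3
          exact (mul_eq_zero.1 h4).resolve_left (sub_ne_zero.2 (h2 i j hij))
        rw [h]
        let z : Fin k := ⟨0, hk⟩
        by_cases hf : τ z = z
        · rw [Finset.prod_eq_zero (s := Finset.univ.filter fun i => τ i = i)
            (Finset.mem_filter.2 ⟨Finset.mem_univ z, hf⟩) (e1 z), zero_mul]
        · have hlt : z < τ z := by
            rw [Fin.lt_def]
            have : (τ z : ℕ) ≠ 0 := fun h0 => hf (Fin.ext h0)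
            exact Nat.pos_of_ne_zero this
          rw [Finset.prod_eq_zero (s := Finset.univ.filter fun i => i < τ i)
            (Finset.mem_filter.2 ⟨Finset.mem_univ z, hlt⟩) (e2 z (τ z) (Ne.symm hf)), mul_zero]
      | zero => rfl
      | add x y _ _ hx hy => rw [add_apply, hx, hy, add_zero]
      | smul a x _ hx => rw [smul_apply, hx, smul_zero]
    have h3 := hz _ hT
    rw [MultilinearMap.compLinearMap_apply, MultilinearMap.mkPiAlgebra_apply] at h3
    exact (Finset.prod_ne_zero_iff.2 fun i _ => hψ0 i) h3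

end Pool.Agent.KThree
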