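import Mathlib

/-!
# An involution pairing inverse values

PACKAGE (statement frozen). Elementary. One way: for every finset `s` of `Fin n` such that
`#{i ∈ s | g i = μ} = #{i ∈ s | g i = μ⁻¹}` for all `μ ≠ 1` there is an involution `τ` of `Fin n`
which preserves `s`, is the identity outside `s`, with `τ i = i ↔ g i = 1` and
`g (τ i) = (g i)⁻¹` for `i ∈ s`; induction on the cardinality of `s`: if some `i ∈ s` has `g i ≠ 1`
there is `j ∈ s` with `g j = (g i)⁻¹ ≠ g i` (the counts are equal and positive), remove `i`, `j`
from `s`, and compose with `Equiv.swap i j` (or use `Function.update` twice).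
-/

set_option autoImplicit false

namespace Pool.Agent.KThree

private theorem invol_card {K : Type} [DecidableEq K] {n : ℕ} (g : Fin n → K) {s : Finset (Fin n)}
    {i j : Fin n} (hi : i ∈ s) (hj : j ∈ s) (hij : i ≠ j) (μ : K) :
    (s.filter fun k => g k = μ).card =
      (((s.erase i).erase j).filter fun k => g k = μ).card + (if g i = μ then 1 else 0) +
        (if g j = μ then 1 else 0) := by
  have h1 : s = insert i (insert j ((s.erase i).erase j)) := by
    rw [Finset.insert_erase (Finset.mem_erase.2 ⟨hij.symm, hj⟩), Finset.insert_erase hi]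
  have hj' : j ∉ (s.erase i).erase j := Finset.notMem_erase _ _
  have hi' : i ∉ insert j ((s.erase i).erase j) := by
    rw [Finset.mem_insert]
    rintro (h | h)
    · exact hij h
    · exact Finset.notMem_erase _ _ (Finset.mem_of_mem_erase h)
  conv_lhs => rw [h1]
  rw [Finset.filter_insert, Finset.filter_insert]
  by_cases h2 : g i = μ <;> by_cases h3 : g j = μ
  · rw [if_pos h2, if_pos h3, if_pos h2, if_pos h3, Finset.card_insert_of_notMem,
      Finset.card_insert_of_notMem]
    · exact fun h => hj' (Finset.mem_filter.1 h).1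
    · intro h
      rcases Finset.mem_insert.1 h with h | h
      · exact hij h
      · exact hi' (Finset.mem_insert_of_mem (Finset.mem_filter.1 h).1)
  · rw [if_pos h2, if_neg h3, if_pos h2, if_neg h3, Finset.card_insert_of_notMem]
    exact fun h => hi' (Finset.mem_insert_of_mem (Finset.mem_filter.1 h).1)
  · rw [if_neg h2, if_pos h3, if_neg h2, if_pos h3, Finset.card_insert_of_notMem]
    exact fun h => hj' (Finset.mem_filter.1 h).1
  · rw [if_neg h2, if_neg h3, if_neg h2, if_neg h3, add_zero, add_zero]

private theorem invol_aux {K : Type} [Field K] [DecidableEq K] {n : ℕ} (g : Fin n → K)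
    (h2 : ∀ i, g i ≠ 1 → g i ≠ (g i)⁻¹) : ∀ (m : ℕ) (s : Finset (Fin n)), s.card ≤ m →
    (∀ μ : K, μ ≠ 1 → (s.filter fun i => g i = μ).card = (s.filter fun i => g i = μ⁻¹).card) →
    ∃ τ : Fin n → Fin n, (∀ i, τ (τ i) = i) ∧ (∀ i, i ∉ s → τ i = i) ∧
      (∀ i ∈ s, τ i = i ↔ g i = 1) ∧ ∀ i ∈ s, g i ≠ 1 → g (τ i) = (g i)⁻¹ := by
  intro m
  induction m with
  | zero =>
    intro s hs _
    have hs0 : s = ∅ := Finset.card_eq_zero.1 (Nat.le_zero.1 hs)
    subst hs0
    exact ⟨id, fun _ => rfl, fun _ _ => rfl, by simp, by simp⟩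
  | succ m ih =>
    intro s hs h
    by_cases hall : ∀ i ∈ s, g i = 1
    · exact ⟨id, fun _ => rfl, fun _ _ => rfl, fun i hi => ⟨fun _ => hall i hi, fun _ => rfl⟩,
        fun i hi h1 => absurd (hall i hi) h1⟩
    · push Not at hall
      obtain ⟨i, hi, hgi⟩ := hall
      have hpos : 0 < (s.filter fun k => g k = (g i)⁻¹).card := by
        rw [← h (g i) hgi, Finset.card_pos]
        exact ⟨i, Finset.mem_filter.2 ⟨hi, rfl⟩⟩
      obtain ⟨j, hj⟩ := Finset.card_pos.1 hpos
      rw [Finset.mem_filter] at hj
      obtain ⟨hj, hgj⟩ := hj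
      have hij : i ≠ j := by
        rintro rfl
        exact h2 i hgi hgj
      have hcard : ((s.erase i).erase j).card ≤ m := by
        rw [Finset.card_erase_of_mem (Finset.mem_erase.2 ⟨hij.symm, hj⟩),
          Finset.card_erase_of_mem hi]
        omega
      obtain ⟨τ, h3, h4, h5, h6⟩ := ih _ hcard (fun μ hμ => by
        have e1 := invol_card g hi hj hij μ
        have e2 := invol_card g hi hj hij μ⁻¹
        have e3 := h μ hμ
        have e4 : (g i = μ⁻¹) ↔ (g j = μ) := by
          rw [hgj]
          constructor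
          · intro h'
            rw [h', inv_inv]
          · intro h'
            rw [← h', inv_inv]
        have e5 : (g j = μ⁻¹) ↔ (g i = μ) := by
          rw [hgj, inv_inj]
        simp only [e4, e5] at e2
        omega)
      have hi' : i ∉ (s.erase i).erase j := fun h' =>
        Finset.notMem_erase _ _ (Finset.mem_of_mem_erase h')
      have hj' : j ∉ (s.erase i).erase j := Finset.notMem_erase _ _
      have hτi : τ i = i := h4 i hi'
      have hτj : τ j = j := h4 j hj'
      have hne : ∀ k, k ≠ i → k ≠ j → τ k ≠ i ∧ τ k ≠ j := by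
        intro k hki hkj
        constructor
        · intro h'
          apply hki
          rw [← h3 k, h', hτi]
        · intro h'
          apply hkj
          rw [← h3 k, h', hτj]
      have hmem : ∀ k, k ∈ s → k ≠ i → k ≠ j → k ∈ (s.erase i).erase j := fun k hk hki hkj =>
        Finset.mem_erase.2 ⟨hkj, Finset.mem_erase.2 ⟨hki, hk⟩⟩
      let σ : Fin n → Fin n := fun k => if k = i then j else if k = j then i else τ k
      have hσi : σ i = j := if_pos rfl
      have hσj : σ j = i := by
        show (if j = i then j else if j = j then i else τ j) = i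
        rw [if_neg hij.symm, if_pos rfl]
      have hσ : ∀ k, k ≠ i → k ≠ j → σ k = τ k := by
        intro k hki hkj
        show (if k = i then j else if k = j then i else τ k) = τ k
        rw [if_neg hki, if_neg hkj]
      refine ⟨σ, fun k => ?_, fun k hk => ?_, fun k hk => ?_, fun k hk hk1 => ?_⟩
      · by_cases hki : k = i
        · rw [hki, hσi, hσj]
        · by_cases hkj : k = j
          · rw [hkj, hσj, hσi]
          · rw [hσ k hki hkj, hσ _ (hne k hki hkj).1 (hne k hki hkj).2, h3]
      · have hki : k ≠ i := fun h' => hk (h' ▸ hi)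
        have hkj : k ≠ j := fun h' => hk (h' ▸ hj)
        rw [hσ k hki hkj]
        exact h4 k fun h' => hk (Finset.mem_of_mem_erase (Finset.mem_of_mem_erase h'))
      · by_cases hki : k = i
        · rw [hki, hσi]
          exact ⟨fun h' => absurd h'.symm hij, fun h' => absurd h' hgi⟩
        · by_cases hkj : k = j
          · rw [hkj, hσj]
            refine ⟨fun h' => absurd h' hij, fun h' => ?_⟩
            rw [hgj, inv_eq_one] at h'
            exact absurd h' hgi
          · rw [hσ k hki hkj]
            exact h5 k (hmem k hk hki hkj)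
      · by_cases hki : k = i
        · rw [hki, hσi, hgj]
        · by_cases hkj : k = j
          · rw [hkj, hσj, hgj, inv_inv]
          · rw [hσ k hki hkj]
            exact h6 k (hmem k hk hki hkj) hk1

theorem exists_invol {K : Type} [Field K] [DecidableEq K] {n : ℕ} (g : Fin n → K)
    (h : ∀ μ : K, μ ≠ 1 → (Finset.univ.filter fun i => g i = μ).card =
      (Finset.univ.filter fun i => g i = μ⁻¹).card)
    (h2 : ∀ i, g i ≠ 1 → g i ≠ (g i)⁻¹) :
    ∃ τ : Fin n → Fin n, (∀ i, τ (τ i) = i) ∧ (∀ i, τ i = i ↔ g i = 1) ∧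
      ∀ i, g i ≠ 1 → g (τ i) = (g i)⁻¹ := by
  obtain ⟨τ, h3, -, h5, h6⟩ := invol_aux g h2 _ Finset.univ le_rfl h
  exact ⟨τ, h3, fun i => h5 i (Finset.mem_univ _), fun i => h6 i (Finset.mem_univ _)⟩

end Pool.Agent.KThree
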