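import Pool.Agent.KThree.Defs
import Pool.Agent.KThree.Invol

/-!
# Invariant multilinear forms

`F` has a basis of eigenvectors `b : Module.Basis ι K V`, `F (b i) = l i • b i`. For
`c : Fin n → ι` let `T_c v = ∏ j, b.coord (c j) (v j)`, then
`T = ∑_c T (fun j => b (c j)) • T_c`. If `T (b ∘ c) ≠ 0` then `(∏ j, l (c j)) ^ m = 1`; by `hbal`
with the multiset of the `l (c j)` the hypothesis of `exists_invol` holds for `g j = l (c j)`; with
the involution `τ` the form `T_c` is a pair product: `φ j = b.coord (c j)` if `g j = 1`, else `0`;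
`b j x y = b.coord (c j) x * b.coord (c (τ j)) y` if `g j ≠ 1`, else `0`; the product over `Fin n`
is the product over the fixed points, the `j < τ j` and the `τ j < j`, and `τ` exchanges the last
two sets.
-/

set_option autoImplicit false

namespace Pool.Agent.KThree

open Module

private theorem prod_invol {K : Type} [Field K] {n : ℕ} (τ : Fin n → Fin n)
    (hτ : ∀ i, τ (τ i) = i) (a : Fin n → K) :
    ∏ j, a j = (∏ j with τ j = j, a j) * ∏ j with j < τ j, a j * a (τ j) := by
  have h1 : ∏ j with τ j < j, a j = ∏ j with j < τ j, a (τ j) := by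
    refine Finset.prod_nbij' τ τ ?_ ?_ (fun j _ => hτ j) (fun j _ => hτ j) ?_
    · intro j hj
      simp only [Finset.mem_filter, Finset.mem_univ, true_and] at hj ⊢
      rwa [hτ]
    · intro j hj
      simp only [Finset.mem_filter, Finset.mem_univ, true_and] at hj ⊢
      rwa [hτ]
    · intro j _
      rw [hτ]
  have h2 : ∏ j with ¬ τ j = j, a j = (∏ j with j < τ j, a j) * ∏ j with τ j < j, a j := by
    rw [← Finset.prod_union]
    · refine Finset.prod_congr ?_ fun _ _ => rfl
      ext j
      simp only [Finset.mem_filter, Finset.mem_univ, true_and, Finset.mem_union]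
      constructor
      · intro h
        rcases lt_or_gt_of_ne h with h | h
        · exact Or.inr h
        · exact Or.inl h
      · rintro (h | h)
        · exact ne_of_gt h
        · exact ne_of_lt h
    · rw [Finset.disjoint_left]
      intro j hj hj'
      simp only [Finset.mem_filter, Finset.mem_univ, true_and] at hj hj'
      exact lt_asymm hj hj'
  rw [Finset.prod_mul_distrib, ← h1, ← h2, Finset.prod_filter_mul_prod_filter_not]

/-- the product of coordinates -/
private noncomputable def coordProd {K V ι : Type} [Field K] [AddCommGroup V] [Module K V]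
    (b : Basis ι K V) {n : ℕ} (c : Fin n → ι) : MultilinearMap K (fun _ : Fin n => V) K :=
  (MultilinearMap.mkPiAlgebra K (Fin n) K).compLinearMap fun j => b.coord (c j)

private theorem coordProd_apply {K V ι : Type} [Field K] [AddCommGroup V] [Module K V]
    (b : Basis ι K V) {n : ℕ} (c : Fin n → ι) (v : Fin n → V) :
    coordProd b c v = ∏ j, b.coord (c j) (v j) := by
  rw [coordProd, MultilinearMap.compLinearMap_apply, MultilinearMap.mkPiAlgebra_apply]

private theorem expand {K V ι : Type} [Field K] [AddCommGroup V] [Module K V] [Fintype ι]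
    [DecidableEq ι] (b : Basis ι K V) {n : ℕ} (T : MultilinearMap K (fun _ : Fin n => V) K) :
    T = ∑ c : Fin n → ι, T (fun j => b (c j)) • coordProd b c := by
  refine Basis.ext_multilinear (fun _ => b) fun d => ?_
  rw [sum_apply, Finset.sum_eq_single d]
  · rw [smul_apply, coordProd_apply]
    simp
  · intro c _ hc
    rw [smul_apply, coordProd_apply]
    obtain ⟨j, hj⟩ := Function.ne_iff.1 hc
    rw [Finset.prod_eq_zero (Finset.mem_univ j), smul_zero]
    rw [Basis.coord_apply, Basis.repr_self, Finsupp.single_eq_of_ne hj]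
  · intro h
    exact absurd (Finset.mem_univ d) h

private theorem coord_map {K V ι : Type} [Field K] [AddCommGroup V] [Module K V]
    (b : Basis ι K V) (F : Module.End K V) (l : ι → K) (hb : ∀ i, F (b i) = l i • b i) (i : ι)
    (x : V) : b.coord i (F x) = l i * b.coord i x := by
  classical
  have h : (b.coord i) ∘ₗ F = l i • b.coord i := by
    refine b.ext fun k => ?_
    rw [LinearMap.comp_apply, hb, map_smul, LinearMap.smul_apply, Basis.coord_apply,
      Basis.repr_self]
    by_cases hk : k = i
    · rw [hk]
    · rw [Finsupp.single_eq_of_ne (Ne.symm hk), smul_zero, smul_zero]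
  have h1 := LinearMap.congr_fun h x
  simpa using h1

private theorem pow_map {K V ι : Type} [Field K] [AddCommGroup V] [Module K V]
    (b : Basis ι K V) (F : Module.End K V) (l : ι → K) (hb : ∀ i, F (b i) = l i • b i) (m : ℕ)
    (i : ι) : (F ^ m) (b i) = (l i) ^ m • b i := by
  induction m with
  | zero => simp
  | succ m ih =>
    rw [pow_succ', Module.End.mul_apply, ih, map_smul, hb, smul_smul, pow_succ]

theorem mem_span_pairProduct {K V : Type} [Field K] [AddCommGroup V] [Module K V]
    [FiniteDimensional K V] [DecidableEq K] (F : Module.End K V)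
    (hF : ⨆ μ : K, F.eigenspace μ = ⊤) (m : ℕ)
    (hbal : ∀ M : Multiset K, (∀ μ ∈ M, F.HasEigenvalue μ) → M.prod ^ m = 1 →
      ∀ μ : K, μ ≠ 1 → M.count μ = M.count μ⁻¹)
    (hne : ∀ μ : K, F.HasEigenvalue μ → μ ≠ 1 → μ ≠ μ⁻¹)
    {n : ℕ} (T : MultilinearMap K (fun _ : Fin n => V) K)
    (hT : ∀ v : Fin n → V, T (fun i => (F ^ m) (v i)) = T v) :
    T ∈ Submodule.span K {T' | IsPairProduct F T'} := by
  classical
  have hI : DirectSum.IsInternal fun μ : K => F.eigenspace μ :=
    DirectSum.isInternal_submodule_of_iSupIndep_of_iSup_eq_top F.eigenspaces_iSupIndep hF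
  set b := hI.collectedBasis fun μ : K => Module.finBasis K (F.eigenspace μ) with hbdef
  have hfin : Finite (Σ μ : K, Fin (finrank K (F.eigenspace μ))) := Module.Finite.finite_basis b
  have : Fintype (Σ μ : K, Fin (finrank K (F.eigenspace μ))) := Fintype.ofFinite _
  have hb : ∀ i, F (b i) = i.1 • b i := by
    intro i
    have h1 := hI.collectedBasis_mem (fun μ : K => Module.finBasis K (F.eigenspace μ)) i
    rw [← hbdef, Module.End.mem_eigenspace_iff] at h1
    exact h1
  have hev : ∀ i : (Σ μ : K, Fin (finrank K (F.eigenspace μ))), F.HasEigenvalue i.1 := by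
    intro i
    refine Module.End.hasEigenvalue_of_hasEigenvector (x := b i) ⟨?_, b.ne_zero i⟩
    rw [Module.End.mem_eigenspace_iff]
    exact hb i
  have hz : ∀ i : (Σ μ : K, Fin (finrank K (F.eigenspace μ))), i.1 ≠ 0 := by
    intro i h0
    have h1 := hne i.1 (hev i)
    rw [h0, inv_zero] at h1
    exact h1 zero_ne_one rfl
  rw [expand b T]
  refine Submodule.sum_mem _ fun c _ => ?_
  by_cases h0 : T (fun j => b (c j)) = 0
  · rw [h0, zero_smul]
    exact Submodule.zero_mem _
  refine Submodule.smul_mem _ _ (Submodule.subset_span ?_)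
  have hprod : (∏ j, (c j).1) ^ m = 1 := by
    have h1 := hT fun j => b (c j)
    have h2 : (fun j => (F ^ m) (b (c j))) = fun j => (c j).1 ^ m • b (c j) := by
      funext j
      exact pow_map b F (fun i => i.1) hb m (c j)
    rw [h2, MultilinearMap.map_smul_univ, smul_eq_mul, Finset.prod_pow] at h1
    exact mul_right_cancel₀ h0 (h1.trans (one_mul _).symm)
  have hcount : ∀ μ : K, (Finset.univ.filter fun j => (c j).1 = μ).card =
      ((Finset.univ.val.map fun j => (c j).1 : Multiset K)).count μ := by
    intro μ
    have h1 : (Finset.univ.filter fun j => (c j).1 = μ) =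
        Finset.univ.filter fun j => μ = (c j).1 :=
      Finset.filter_congr fun j _ => eq_comm
    rw [h1, Multiset.count_map]
    rfl
  obtain ⟨τ, hτ, hfix, hinv⟩ := exists_invol (fun j => (c j).1) (by
    intro μ hμ
    rw [hcount, hcount]
    refine hbal _ ?_ hprod μ hμ
    intro ν hν
    obtain ⟨j, -, rfl⟩ := Multiset.mem_map.1 hν
    exact hev _) (fun j hj => hne _ (hev _) hj)
  refine ⟨τ, fun j => if (c j).1 = 1 then b.coord (c j) else 0,
    fun j => if (c j).1 = 1 then 0 else (b.coord (c j)).smulRight (b.coord (c (τ j))), hτ, ?_, ?_,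
    ?_⟩
  · intro j x
    by_cases hj : (c j).1 = 1
    · simp only [hj, if_true]
      rw [coord_map b F (fun i => i.1) hb, hj, one_mul]
    · simp only [hj, if_false, LinearMap.zero_apply]
  · intro j x y
    by_cases hj : (c j).1 = 1
    · simp only [hj, if_true, LinearMap.zero_apply]
    · simp only [hj, if_false, LinearMap.smulRight_apply, LinearMap.smul_apply, smul_eq_mul]
      rw [coord_map b F (fun i => i.1) hb, coord_map b F (fun i => i.1) hb]
      have h1 : (c (τ j)).1 = ((c j).1)⁻¹ := hinv j hj
      simp only [h1]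
      have h2 := hz (c j)
      field_simp
  · intro v
    rw [coordProd_apply, prod_invol τ hτ]
    congr 1
    · refine Finset.prod_congr rfl fun j hj => ?_
      have h1 : (c j).1 = 1 := (hfix j).1 (Finset.mem_filter.1 hj).2
      simp only [h1, if_true]
    · refine Finset.prod_congr rfl fun j hj => ?_
      have h1 : (c j).1 ≠ 1 := by
        intro h2
        exact absurd ((hfix j).2 h2) (ne_of_gt (Finset.mem_filter.1 hj).2)
      simp only [h1, if_false, LinearMap.smulRight_apply, LinearMap.smul_apply, smul_eq_mul]

end Pool.Agent.KThree
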