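import Pool.Agent.KThree.CasesA

/-!
# Relations for `d = 2` and for `d` an odd prime, `f` arbitrary

PACKAGE (statements frozen).
* `eps_of_prime`: as in `eq_zero_of_prime_dim` (CasesA.lean): `exists_moving` gives `s : G` of
  `l`-power order which moves some `x`, `Y` is the disjoint union of `O = orb s x` and
  `orb s (S.inv x)` (`huniv` there), and every relation `m'` is constant on `O`
  (`smul_eq_of_card_lt`), so `m' y = m' x` on `O` and `m' y = - m' x` outside `O`. Since `m ≠ 0`,
  `k = m x ≠ 0`; let `ε y = 1` if `y ∈ O`, else `-1`: `m = k • ε`, so `ε` is a relation (divide by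
  `k`; pass from `ℚ` to `ℤ` by injectivity of the cast). For `g : G` the function
  `fun y => m (g • y)` is a relation (`IsRel.smul`), so it is `c • m`-like: it takes a constant
  value `± k` on `O` (all values of `m` are `± k`); hence `ε (g • y) = c * ε y` with `c = ± 1`.
* `eq_zero_of_two`: `|Y| = 4`. `|B| ≤ 2` (`B` and its inverse are disjoint). If `|B| = 1` use
  `eq_zero_of_one`; `|B| = 0` is impossible for the statement (hypothesis `hB`). If `B = {x, y}`,
  `x ≠ y`, then `Y = {x, y, S.inv x, S.inv y}`, and `hm.2 1` gives `m x + m y = 0`, so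
  `m = m x • (S.e x - S.e y)`; if `m x ≠ 0` then `S.e x - S.e y` is a relation and `x = y` by
  `eq_of_isRel_e`.
-/

set_option autoImplicit false
set_option linter.unusedSectionVars false

namespace Pool.Agent.KThree

namespace Data

open MulAction

variable {G Y : Type} [Group G] [MulAction G Y] [Fintype Y] [DecidableEq Y] {S : Data G Y}

variable (S) in
/-- an odd relation with values `± 1` which every element of the group preserves up to sign -/
def IsEps (ε : Y → ℤ) : Prop :=
  (∀ y, ε y = 1 ∨ ε y = -1) ∧ S.IsRel ε ∧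
    ∀ g : G, ∃ c : ℤ, (c = 1 ∨ c = -1) ∧ ∀ y, ε (g • y) = c * ε y

theorem eps_of_prime [Finite G] (l : ℕ) [Fact l.Prime] (hl : l ≠ 2)
    (hY : Fintype.card Y = 2 * l) {m : Y → ℚ} (hm : S.IsRel m) (hm0 : m ≠ 0) :
    ∃ ε : Y → ℤ, S.IsEps ε := by
  have hlp := (Fact.out : l.Prime)
  have : IsPretransitive G Y := ⟨S.trans⟩
  have hne : Nonempty Y := Fintype.card_pos_iff.1 (by rw [hY]; have := hlp.pos; omega)
  obtain ⟨x⟩ := hne
  obtain ⟨s, k, hs, hsx⟩ := exists_moving (D := G) (Ω := Y) l
    (by rw [Nat.card_eq_fintype_card, hY]; exact Dvd.intro_left 2 rfl) x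
  have hY' : Fintype.card Y < 4 * l := by
    have := hlp.pos
    omega
  have hd : Disjoint (orb s x) (orb s (S.inv x)) := orb_disj (inv_notMem_orb S hl hs x)
  have huniv : orb s x ∪ orb s (S.inv x) = Finset.univ := by
    refine Finset.eq_univ_of_card _ ?_
    refine le_antisymm (Finset.card_le_univ _) ?_
    obtain ⟨n, hn0, hn⟩ := le_card_orb hs hsx
    rw [Finset.card_union_of_disjoint hd, card_orb_inv, hn, hY]
    have := Nat.le_self_pow hn0.ne' l
    omega
  have hinv : ∀ (m : Y → ℚ), S.IsRel m → ∀ y ∈ orb s x, m y = m x := by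
    intro m hm y hy
    rw [mem_orb] at hy
    obtain ⟨⟨g, hg⟩, rfl⟩ := hy
    have hfin : IsOfFinOrder s := isOfFinOrder_of_finite _
    obtain ⟨i, rfl⟩ := (hfin.mem_powers_iff_mem_zpowers).2 hg
    change m (s ^ i • x) = m x
    clear hg
    induction i with
    | zero => rw [pow_zero, one_smul]
    | succ i ih => rw [pow_succ', mul_smul, smul_eq_of_card_lt hl hs hY' hm, ih]
  set ε : Y → ℤ := fun y => if y ∈ orb s x then 1 else -1 with hε
  have hval : ∀ y, ε y = 1 ∨ ε y = -1 := by
    intro y
    simp only [hε]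
    split_ifs
    · exact Or.inl rfl
    · exact Or.inr rfl
  have hrel : ∀ m : Y → ℚ, S.IsRel m → ∀ y, m y = m x * ε y := by
    intro m hm y
    by_cases h : y ∈ orb s x
    · simp only [hε, if_pos h]
      rw [hinv m hm y h, Int.cast_one, mul_one]
    · simp only [hε, if_neg h]
      have hy : y ∈ orb s x ∪ orb s (S.inv x) := by rw [huniv]; exact Finset.mem_univ y
      have h' := (Finset.mem_union.1 hy).resolve_left h
      rw [← hinv m hm _ (mem_orb_inv_iff.1 h'), hm.1]
      push_cast
      ring
  have hx0 : m x ≠ 0 := by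
    intro h0
    apply hm0
    funext y
    rw [hrel m hm y, h0, zero_mul, Pi.zero_apply]
  refine ⟨ε, hval, ⟨fun y => ?_, fun g => ?_⟩, fun g => ⟨ε (g • x), hval _, fun y => ?_⟩⟩
  · have h1 := hm.1 y
    rw [hrel m hm (S.inv y), hrel m hm y, ← mul_neg] at h1
    exact_mod_cast mul_left_cancel₀ hx0 h1
  · have h1 := hm.2 g
    rw [Finset.sum_congr rfl fun b _ => hrel m hm (g • b), ← Finset.mul_sum] at h1
    exact_mod_cast (mul_eq_zero.1 h1).resolve_left hx0
  · have h1 := hrel _ (hm.smul g) y
    rw [hrel m hm (g • y), hrel m hm (g • x), mul_assoc] at h1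
    exact_mod_cast mul_left_cancel₀ hx0 h1

theorem eq_zero_of_two (hY : Fintype.card Y = 4) (hB : S.B.Nonempty) {m : Y → ℚ}
    (hm : S.IsRel m) : m = 0 := by
  classical
  have hdisj : Disjoint S.B (S.B.image S.inv) := by
    rw [Finset.disjoint_left]
    intro y hy hy'
    obtain ⟨z, hz, rfl⟩ := Finset.mem_image.1 hy'
    exact S.disj z hz hy
  have hcard : (S.B ∪ S.B.image S.inv).card = 2 * S.B.card := by
    rw [Finset.card_union_of_disjoint hdisj, Finset.card_image_of_injective _ S.inv_injective,
      two_mul]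
  have hle : 2 * S.B.card ≤ 4 := by
    rw [← hcard, ← hY]
    exact Finset.card_le_univ _
  have hpos := Finset.card_pos.2 hB
  rcases (by omega : S.B.card = 1 ∨ S.B.card = 2) with h1 | h2
  · exact eq_zero_of_one h1 hm
  · obtain ⟨x, y, hxy, hBxy⟩ := Finset.card_eq_two.1 h2
    have huniv : S.B ∪ S.B.image S.inv = Finset.univ :=
      Finset.eq_univ_of_card _ (by rw [hcard, h2, hY])
    have hx : x ∈ S.B := by rw [hBxy]; simp
    have hy : y ∈ S.B := by rw [hBxy]; simp
    have hsum := hm.2 1
    simp only [one_smul] at hsum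
    rw [hBxy, Finset.sum_pair hxy] at hsum
    have hxiy : x ≠ S.inv y := fun h => S.disj y hy (h ▸ hx)
    have hyix : y ≠ S.inv x := fun h => S.disj x hx (h ▸ hy)
    have hxix : x ≠ S.inv x := (S.inv_ne x).symm
    have hyiy : y ≠ S.inv y := (S.inv_ne y).symm
    have key : ∀ z ∈ S.B, m z = m x * (S.e x z - S.e y z) := by
      intro z hz
      rw [hBxy, Finset.mem_insert, Finset.mem_singleton] at hz
      rcases hz with rfl | rfl
      · simp [e, hxix, hxiy, hxy]
      · simp only [e, hyix, hyiy, hxy.symm, if_true, if_false]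
        linear_combination hsum
    have key' : ∀ z, m z = m x * (S.e x z - S.e y z) := by
      intro z
      have hz : z ∈ S.B ∪ S.B.image S.inv := by rw [huniv]; exact Finset.mem_univ z
      rcases Finset.mem_union.1 hz with h | h
      · exact key z h
      · obtain ⟨w, hw, rfl⟩ := Finset.mem_image.1 h
        rw [hm.1, e_inv, e_inv, key w hw]
        ring
    by_contra hm0
    have hx0 : m x ≠ 0 := by
      intro h0
      apply hm0
      funext z
      rw [key' z, h0, zero_mul, Pi.zero_apply]
    apply hxy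
    refine eq_of_isRel_e (S := S) ?_
    have h3 : S.e x - S.e y = (m x)⁻¹ • m := by
      funext z
      rw [Pi.smul_apply, smul_eq_mul, key' z, Pi.sub_apply, inv_mul_cancel_left₀ hx0]
    rw [h3]
    exact hm.const_smul _

end Data

end Pool.Agent.KThree
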