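import Pool.Agent.KThree.MkData
import Pool.Agent.KThree.EpsA

/-!
# The imaginary quadratic subfield

PACKAGE (statements frozen; the statements of `MkData.lean`, `Places.lean` are proved).
* `exists_conj`: take `σ : Spl Q →ₐ[ℚ] ℂ` (`IsAlgClosed.lift`); its image is stable by complex
  conjugation (`Spl Q` is normal; compare `Pool/Agent/Exo5/Conj.lean`, `exists_conj`), which gives
  `g : Gr Q` with `σ (g x) = conj (σ x)`; for a root, `conj (σ z) = (σ z)⁻¹` as `‖σ z‖ = 1`.
* `exists_quad`: let `χ g = c` be the sign with `ε (g • y) = c * ε y` (unique, a homomorphism).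
  (1) there is `θ : Spl Q` with `δ = ∑ g : Gr Q, χ g * g θ ≠ 0` (linear independence of
  automorphisms: `linearIndependent_monoidHom` or `AlgEquiv`/`AlgHom` version; or choose `θ = 1`-like
  elements: if all these sums vanish, the characters `g : Spl Q → Spl Q` are linearly dependent).
  Then `h δ = χ h * δ` for `h : Gr Q`, so `δ ^ 2` is fixed by `Gr Q`, `δ ^ 2 = D` rational, `D ≠ 0`.
  (2) `χ g₀ = -1` for the `g₀` of `exists_conj` (`g₀ • y = S.inv y` and `ε` is odd), so
  `conj (σ δ) = - σ δ`, `σ δ` is purely imaginary, `D < 0`.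
  (3) take a root `y` (`S.B` is not empty). The stabiliser of `y` is in the kernel of `χ`
  (`ε y = ε (g • y) = χ g * ε y`), so `δ` is fixed by all `g` fixing `y.val`, so
  `δ ∈ IntermediateField.adjoin ℚ {y.val}` (Galois correspondence:
  `IsGalois.fixedField_fixingSubgroup`), so `δ = P(y.val)` with a polynomial `P` (or use the
  embedding `AdjoinRoot Q → Spl Q`, `AdjoinRoot.liftAlgHom`, with range the adjoined field); then
  `δ' = AdjoinRoot.mk Q P` maps to `δ`, and `δ' ^ 2 = D` by injectivity (`AdjoinRoot Q` is a field).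
  (4) `∑ b ∈ S.B, ε b = 0` (`hε.2.1.2 1`) and `S.B` is not empty, so there are `b`, `b'` in `S.B` with
  `ε b = 1`, `ε b' = -1`. As in `exists_decomp` (Places.lean) there are
  `τ : PadicAlgCl p ≃ₐ[ℚ_[p]] PadicAlgCl p` and `g : Gr Q` with `emb Q p (g x) = τ (emb Q p x)` for all
  `x` and `g • b = b'` (copy that proof, keep `τ`). So `χ g = -1`, `g δ = - δ`. If `y ^ 2 = D` with
  `y : ℚ_[p]`, then `emb δ = ± y` is fixed by `τ`, so `emb (g δ) = emb δ`, `- δ = δ`, `δ = 0`,
  a contradiction.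
-/

set_option autoImplicit false

namespace Pool.Agent.KThree

open Polynomial

variable {Q : ℚ[X]} {p f : ℕ} [Fact p.Prime]

private theorem qd_aeval_hom {K L : Type*} [Field K] [Field L] [Algebra ℚ K] [Algebra ℚ L]
    (ψ : K →+* L) (Q : ℚ[X]) (x : K) : aeval (ψ x) Q = ψ (aeval x Q) := by
  rw [aeval_def, aeval_def, hom_eval₂]
  congr 1
  exact Subsingleton.elim _ _

private theorem qd_splitting (Q : ℚ[X]) : IsSplittingField ℚ (Spl Q) Q := by
  have h : ∃ i₀ : Algebra ℚ (Spl Q), @IsSplittingField ℚ (Spl Q) _ _ i₀ Q :=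
    ⟨_, IsSplittingField.splittingField Q⟩
  obtain ⟨i₀, hi⟩ := h
  have e : i₀ = DivisionRing.toRatAlgebra := Subsingleton.elim _ _
  subst e
  exact hi

private theorem qd_normal (Q : ℚ[X]) : Normal ℚ (Spl Q) := by
  have := qd_splitting Q
  exact Normal.of_isSplittingField Q

private theorem qd_finite (Q : ℚ[X]) : FiniteDimensional ℚ (Spl Q) := by
  have := qd_splitting Q
  exact IsSplittingField.finiteDimensional (Spl Q) Q

private theorem qd_galois (Q : ℚ[X]) : IsGalois ℚ (Spl Q) := by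
  have := qd_normal Q
  exact ⟨⟩

private theorem qd_conj (Q : ℚ[X]) (φ : Spl Q →ₐ[ℚ] ℂ) :
    ∃ c : Gr Q, ∀ x, φ (c x) = (starRingEnd ℂ) (φ x) := by
  let _ : Algebra (Spl Q) ℂ := φ.toRingHom.toAlgebra
  have _ : IsScalarTower ℚ (Spl Q) ℂ := IsScalarTower.of_algebraMap_eq fun r => by
    change algebraMap ℚ ℂ r = φ (algebraMap ℚ (Spl Q) r)
    rw [AlgHom.commutes]
  have h1 : Normal ℚ (Spl Q) := qd_normal Q
  let χ : ℂ ≃ₐ[ℚ] ℂ := Complex.conjAe.restrictScalars ℚ
  refine ⟨χ.restrictNormal (Spl Q), fun x => ?_⟩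
  exact AlgEquiv.restrictNormal_commutes χ (Spl Q) x

/-- automorphisms over `ℚ_p` restrict to the splitting field -/
private theorem qd_exists_restrict (τ : PadicAlgCl p ≃ₐ[ℚ_[p]] PadicAlgCl p) :
    ∃ d : Gr Q, ∀ x : Spl Q, emb Q p (d x) = τ (emb Q p x) := by
  let : Algebra (Spl Q) (PadicAlgCl p) := (emb Q p).toAlgebra
  have : IsScalarTower ℚ (Spl Q) (PadicAlgCl p) := by
    refine IsScalarTower.of_algebraMap_eq fun x => ?_
    simp
  let τ' : PadicAlgCl p ≃ₐ[ℚ] PadicAlgCl p :=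
    AlgEquiv.ofRingEquiv (f := τ.toRingEquiv) fun r => by simp
  have := qd_normal Q
  refine ⟨τ'.restrictNormal (Spl Q), fun x => ?_⟩
  exact τ'.restrictNormal_commutes (Spl Q) x

private theorem qd_exists_decomp (hQ : IsKThreePoly Q p f) {z w : Rt Q}
    (hz : 1 < ‖emb Q p z.val‖) (hw : 1 < ‖emb Q p w.val‖) :
    ∃ (g : Gr Q) (τ : PadicAlgCl p ≃ₐ[ℚ_[p]] PadicAlgCl p), g • z = w ∧
      ∀ x : Spl Q, emb Q p (g x) = τ (emb Q p x) := by
  obtain ⟨A, R, hAR, hA, hAi, hf, hA0, hR, hRi⟩ := hQ.slopes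
  have h1 := (mem_B_iff hQ hAR hA hAi hA0 hR hRi z).1 hz
  have h2 := (mem_B_iff hQ hAR hA hAi hA0 hR hRi w).1 hw
  have h3 := minpoly.eq_of_irreducible_of_monic hAi h1 hA
  have h4 := minpoly.eq_of_irreducible_of_monic hAi h2 hA
  have h5 : IsConjRoot ℚ_[p] (emb Q p w.val) (emb Q p z.val) := by
    rw [IsConjRoot, ← h3, ← h4]
  obtain ⟨τ, hτ⟩ := isConjRoot_iff_exists_algEquiv.1 h5
  obtain ⟨d, hd⟩ := qd_exists_restrict (Q := Q) τ
  refine ⟨d, τ, Rt.ext ((emb Q p).injective ?_), hd⟩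
  rw [Rt.val_smul, hd, hτ]

theorem exists_conj (hQ : IsKThreePoly Q p f) :
    ∃ (g : Gr Q) (σ : Spl Q →+* ℂ), (∀ x, σ (g x) = starRingEnd ℂ (σ x)) ∧
      ∀ z : Rt Q, g z.val = z.val⁻¹ := by
  let φ : Spl Q →ₐ[ℚ] ℂ := IsAlgClosed.lift
  obtain ⟨c, hc⟩ := qd_conj Q φ
  refine ⟨c, φ.toRingHom, hc, fun z => ?_⟩
  have hinj : Function.Injective φ := φ.toRingHom.injective
  apply hinj
  have hz : aeval z.val Q = 0 := aeval_eq_zero_of_mem_rootSet z.mem
  have h1 : aeval (φ z.val) Q = 0 := by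
    have h := qd_aeval_hom φ.toRingHom Q z.val
    rw [hz, map_zero] at h
    exact h
  have h2 := hQ.weil _ h1
  rw [hc, map_inv₀, Complex.inv_def, Complex.normSq_eq_norm_sq, h2]
  simp

/-- the sign of an element of the Galois group -/
private theorem qd_sign {S : Data (Gr Q) (Rt Q)} (hB : S.B.Nonempty) {ε : Rt Q → ℤ}
    (hε : S.IsEps ε) : ∃ χ : Gr Q → ℤ, (∀ g, χ g = 1 ∨ χ g = -1) ∧
      (∀ g y, ε (g • y) = χ g * ε y) ∧ ∀ g h, χ (g * h) = χ g * χ h := by
  choose χ h1 h2 using hε.2.2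
  refine ⟨χ, h1, h2, fun g h => ?_⟩
  obtain ⟨b, -⟩ := hB
  have h3 : ε b ≠ 0 := by
    rcases hε.1 b with h | h <;> rw [h] <;> norm_num
  have h4 := h2 (g * h) b
  rw [mul_smul, h2, h2, ← mul_assoc] at h4
  exact (mul_right_cancel₀ h3 h4).symm

/-- the eigenvector -/
private theorem qd_eigen {χ : Gr Q → ℤ} (h1 : ∀ g, χ g = 1 ∨ χ g = -1)
    (h2 : ∀ g h, χ (g * h) = χ g * χ h) :
    ∃ δ : Spl Q, δ ≠ 0 ∧ ∀ g : Gr Q, g δ = (χ g : Spl Q) * δ := by
  classical
  have := qd_finite Q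
  have : Fintype (Gr Q) := Fintype.ofFinite _
  have hne : ∃ θ : Spl Q, ∑ g : Gr Q, (χ g : Spl Q) * g θ ≠ 0 := by
    by_contra hcon
    push Not at hcon
    have hli := linearIndependent_monoidHom (Spl Q) (Spl Q)
    have hinj : Function.Injective
        (fun g : Gr Q => ((g : Spl Q →+* Spl Q) : Spl Q →* Spl Q)) := by
      intro g h hgh
      apply AlgEquiv.ext
      intro x
      exact DFunLike.congr_fun hgh x
    have hli2 := hli.comp _ hinj
    rw [Fintype.linearIndependent_iff] at hli2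
    have h3 := hli2 (fun g => (χ g : Spl Q)) (by
      funext θ
      rw [Finset.sum_apply, Pi.zero_apply, ← hcon θ]
      exact Finset.sum_congr rfl fun g _ => rfl) 1
    have h4 : χ 1 = 0 := by exact_mod_cast h3
    rcases h1 1 with h | h <;> rw [h] at h4 <;> norm_num at h4
  obtain ⟨θ, hθ⟩ := hne
  refine ⟨_, hθ, fun h => ?_⟩
  rw [map_sum, Finset.mul_sum, ← Equiv.sum_comp (Equiv.mulLeft h⁻¹)]
  refine Finset.sum_congr rfl fun g _ => ?_
  rw [Equiv.coe_mulLeft, map_mul, map_intCast]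
  have e1 : h ((h⁻¹ * g) θ) = g θ := by
    rw [← AlgEquiv.mul_apply, mul_inv_cancel_left]
  have e2 : χ (h⁻¹ * g) = χ h * χ g := by
    have e3 : χ (h * (h⁻¹ * g)) = χ h * χ (h⁻¹ * g) := h2 _ _
    rw [mul_inv_cancel_left] at e3
    rw [e3, ← mul_assoc]
    rcases h1 h with e | e <;> rw [e] <;> ring
  rw [e1, e2]
  push_cast
  ring

theorem exists_quad (hQ : IsKThreePoly Q p f) {S : Data (Gr Q) (Rt Q)} (hS : IsData Q p S)
    (hB : S.B.Nonempty) {ε : Rt Q → ℤ} (hε : S.IsEps ε) :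
    ∃ (D : ℚ) (δ : AdjoinRoot Q), D < 0 ∧ δ ^ 2 = algebraMap ℚ (AdjoinRoot Q) D ∧
      ∀ y : ℚ_[p], y ^ 2 ≠ (D : ℚ_[p]) := by
  classical
  have hfin := qd_finite Q
  have hgal := qd_galois Q
  obtain ⟨χ, hχ1, hχε, hχm⟩ := qd_sign hB hε
  obtain ⟨δ, hδ0, hδ⟩ := qd_eigen hχ1 hχm
  have hne : ∀ y, ε y ≠ 0 := by
    intro y
    rcases hε.1 y with h | h <;> rw [h] <;> norm_num
  -- the square is rational
  have hsq : ∃ D : ℚ, algebraMap ℚ (Spl Q) D = δ ^ 2 := by
    have h := (IsGalois.mem_range_algebraMap_iff_fixed (F := ℚ) (δ ^ 2)).2 (by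
      intro g
      rw [map_pow, hδ g, mul_pow]
      rcases hχ1 g with e | e <;> rw [e] <;> push_cast <;> ring)
    exact h
  obtain ⟨D, hD⟩ := hsq
  -- it is negative
  obtain ⟨g₀, σ, hσ, hg₀⟩ := exists_conj hQ
  obtain ⟨b₀, hb₀⟩ := hB
  have hχ0 : χ g₀ = -1 := by
    have h1 : g₀ • b₀ = S.inv b₀ := Rt.ext (by rw [Rt.val_smul, hg₀, hS.inv])
    have h2 := hχε g₀ b₀
    rw [h1, hε.2.1.1] at h2
    have h3 : (χ g₀ + 1) * ε b₀ = 0 := by linear_combination -h2
    rcases mul_eq_zero.1 h3 with h4 | h4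
    · omega
    · exact absurd h4 (hne b₀)
  have hDneg : D < 0 := by
    have h1 : starRingEnd ℂ (σ δ) = - σ δ := by
      rw [← hσ, hδ, hχ0]
      simp
    have h2 : (σ δ).re = 0 := by
      have h3 := congrArg Complex.re h1
      rw [Complex.conj_re, Complex.neg_re] at h3
      linarith
    have h3 : (σ δ) ^ 2 = (D : ℂ) := by
      rw [← map_pow, ← hD, RingHom.map_rat_algebraMap]
      rfl
    have h4 : (D : ℝ) = - (σ δ).im ^ 2 := by
      have h5 := congrArg Complex.re h3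
      rw [pow_two, Complex.mul_re, h2] at h5
      rw [Complex.ratCast_re] at h5
      linarith
    have h5 : (σ δ).im ≠ 0 := by
      intro h6
      have h7 : σ δ = 0 := Complex.ext h2 h6
      exact hδ0 (σ.injective (by rw [h7, map_zero]))
    have h6 : (0 : ℝ) < (σ δ).im ^ 2 := by positivity
    have h7 : (D : ℝ) < 0 := by rw [h4]; linarith
    exact_mod_cast h7
  -- the element of the field of one root
  have hmem : δ ∈ IntermediateField.adjoin ℚ {b₀.val} := by
    rw [← IsGalois.fixedField_fixingSubgroup (IntermediateField.adjoin ℚ {b₀.val}),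
      IntermediateField.mem_fixedField_iff]
    intro g hg
    rw [IntermediateField.mem_fixingSubgroup_iff] at hg
    have h1 : g b₀.val = b₀.val :=
      hg _ (IntermediateField.mem_adjoin_simple_self ℚ b₀.val)
    have h2 : g • b₀ = b₀ := Rt.ext (by rw [Rt.val_smul, h1])
    have h3 := hχε g b₀
    rw [h2] at h3
    have h4 : χ g = 1 := by
      have h5 : (χ g - 1) * ε b₀ = 0 := by linear_combination -h3
      rcases mul_eq_zero.1 h5 with h6 | h6
      · omega
      · exact absurd h6 (hne b₀)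
    rw [hδ, h4]
    simp
  have hint : IsIntegral ℚ b₀.val := Algebra.IsIntegral.isIntegral _
  rw [← IntermediateField.mem_toSubalgebra,
    IntermediateField.adjoin_simple_toSubalgebra_of_isAlgebraic hint.isAlgebraic,
    Algebra.adjoin_singleton_eq_range_aeval] at hmem
  obtain ⟨P, hP⟩ := hmem
  have hP' : aeval b₀.val P = δ := hP
  have hroot : eval₂ (algebraMap ℚ (Spl Q)) b₀.val Q = 0 := by
    have h := aeval_eq_zero_of_mem_rootSet b₀.mem
    rw [aeval_def] at h
    exact h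
  have : Fact (Irreducible Q) := ⟨hQ.irreducible⟩
  let i : AdjoinRoot Q →+* Spl Q := AdjoinRoot.lift (algebraMap ℚ (Spl Q)) b₀.val hroot
  have hi : i (AdjoinRoot.mk Q P) = δ := by
    rw [← hP', aeval_def]
    exact AdjoinRoot.lift_mk hroot P
  refine ⟨D, AdjoinRoot.mk Q P, hDneg, ?_, ?_⟩
  · apply i.injective
    rw [map_pow, hi, ← hD, RingHom.map_rat_algebraMap]
  · intro y hy
    have hsum := hε.2.1.2 1
    simp only [one_smul] at hsum
    have hex : (∃ b ∈ S.B, ε b = 1) ∧ ∃ b ∈ S.B, ε b = -1 := by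
      constructor
      · by_contra hcon
        push Not at hcon
        have h1 : ∀ b ∈ S.B, ε b = -1 := fun b hb => (hε.1 b).resolve_left (hcon b hb)
        rw [Finset.sum_congr rfl h1] at hsum
        rw [Finset.sum_const, nsmul_eq_mul] at hsum
        have h2 : 0 < S.B.card := Finset.card_pos.2 ⟨b₀, hb₀⟩
        have h3 : (0 : ℤ) < S.B.card := by exact_mod_cast h2
        linarith
      · by_contra hcon
        push Not at hcon
        have h1 : ∀ b ∈ S.B, ε b = 1 := fun b hb => (hε.1 b).resolve_right (hcon b hb)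
        rw [Finset.sum_congr rfl h1] at hsum
        rw [Finset.sum_const, nsmul_eq_mul] at hsum
        have h2 : 0 < S.B.card := Finset.card_pos.2 ⟨b₀, hb₀⟩
        have h3 : (0 : ℤ) < S.B.card := by exact_mod_cast h2
        linarith
    obtain ⟨⟨b, hb, hb1⟩, b', hb', hb1'⟩ := hex
    obtain ⟨g, τ, hg, hτ⟩ := qd_exists_decomp hQ ((hS.B b).1 hb) ((hS.B b').1 hb')
    have hχg : χ g = -1 := by
      have h1 := hχε g b
      rw [hg, hb1, hb1', mul_one] at h1
      exact h1.symm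
    have h1 : (emb Q p δ) ^ 2 = (algebraMap ℚ_[p] (PadicAlgCl p) y) ^ 2 := by
      rw [← map_pow, ← map_pow, ← hD, hy, RingHom.map_rat_algebraMap]
      simp
    have h2 : τ (emb Q p δ) = emb Q p δ := by
      rcases sq_eq_sq_iff_eq_or_eq_neg.1 h1 with h | h
      · rw [h, AlgEquiv.commutes]
      · rw [h, map_neg, AlgEquiv.commutes]
    rw [← hτ] at h2
    have h3 := (emb Q p).injective h2
    rw [hδ, hχg] at h3
    have h4 : (2 : Spl Q) * δ = 0 := by
      push_cast at h3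
      linear_combination -h3
    rcases mul_eq_zero.1 h4 with h5 | h5
    · exact two_ne_zero h5
    · exact hδ0 h5

end Pool.Agent.KThree
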