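import Pool.Agent.KThree.EpsA

/-!
# Relations when the group is `3`-transitive on the pairs `{y, inv y}`

PACKAGE (statement frozen). Proof. `P x y = ∑ g : G, m (g • x) * m (g • y)` (`G` is finite; use
`Fintype.ofFinite`). `P` is symmetric, `P (g • x) (g • y) = P x y`, `P (inv x) y = - P x y`, each
row `P x` is a relation (a combination of the relations `fun y => m (g • y)`; use that
`S.relSub ℚ` is a submodule), and `a = P x x > 0` for all `x` (it does not depend on `x` by
transitivity, and `m (g • x) ≠ 0` for some `g`, else `m = 0`).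
(1) `|P x y| = s` for all `x`, `y` with `y ≠ x`, `y ≠ inv x`: `3`-transitivity (complete the two
pairs to three: `Y` has at least three pairs) and `P (± x) (± y) = ± P x y`.
(2) `s ≠ 0`: otherwise `P x = a • S.e x`, so `S.e x` is a relation, and
`∑ b ∈ S.B, S.e x (g⁻¹ • b) = S.r (g • x) = 0` for all `g` (`sum_e`), but some `g • x` is in `B`.
(3) for `x`, `y`, `z` in three different pairs `P x y * P y z * P z x = τ * s ^ 3` with one sign
`τ = ± 1` (it is unchanged when `x`, `y` or `z` is replaced by its inverse, and invariant by `G`;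
`3`-transitivity). Fix `x₀`. Let `ε y = sign (P x₀ y)` for `y` not in the pair of `x₀`, `ε x₀ = τ`,
`ε (inv x₀) = -τ`. Then `P y z = τ * s * ε y * ε z` for all `y`, `z` in different pairs (also if one
of them is in the pair of `x₀`), `ε` is odd.
(4) For all `y`: `P y = (a - τ s) • S.e y + (τ s ε y) • ε` as functions. If `a ≠ τ s` take `x`, `y` in
different pairs: `ε x • P x - ε y • P y = (a - τ s) • (ε x • S.e x - ε y • S.e y)`, so
`ε x • S.e x - ε y • S.e y` is a relation; `ε x • S.e x = S.e x'` with `x' = x` or `inv x`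
(`S.e (S.inv x) = - S.e x`), so `x' = y'` by `eq_of_isRel_e`, against different pairs. So
`a = τ s`, `P y = (a ε y) • ε`, hence `ε` is a relation (over `ℚ`, hence over `ℤ`), and
`ε (g • x) * ε (g • y) = ε x * ε y` for all `x`, `y` since `P` is invariant: so
`ε (g • y) = c * ε y` with `c = ε (g • x₀) * ε x₀`.
-/

set_option autoImplicit false
set_option linter.unusedSectionVars false

namespace Pool.Agent.KThree

namespace Data

open MulAction

variable {G Y : Type} [Group G] [MulAction G Y] [Fintype Y] [DecidableEq Y] {S : Data G Y}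

variable (S) in
/-- the three points are in three different pairs `{y, inv y}` -/
def Apart (x : Fin 3 → Y) : Prop := ∀ i j, i ≠ j → x i ≠ x j ∧ x i ≠ S.inv (x j)

theorem apart_of {x y z : Y} (h1 : x ≠ y) (h2 : x ≠ S.inv y) (h3 : x ≠ z) (h4 : x ≠ S.inv z)
    (h5 : y ≠ z) (h6 : y ≠ S.inv z) : S.Apart ![x, y, z] := by
  have h2' : y ≠ S.inv x := fun h => h2 (by rw [h, S.inv_inv])
  have h4' : z ≠ S.inv x := fun h => h4 (by rw [h, S.inv_inv])
  have h6' : z ≠ S.inv y := fun h => h6 (by rw [h, S.inv_inv])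
  intro i j hij
  fin_cases i <;> fin_cases j <;> first
    | exact absurd rfl hij
    | exact ⟨h1, h2⟩
    | exact ⟨h3, h4⟩
    | exact ⟨h5, h6⟩
    | exact ⟨h1.symm, h2'⟩
    | exact ⟨h3.symm, h4'⟩
    | exact ⟨h5.symm, h6'⟩

theorem exists_third (S : Data G Y) (hY : 6 ≤ Fintype.card Y) (x y : Y) :
    ∃ z, z ≠ x ∧ z ≠ S.inv x ∧ z ≠ y ∧ z ≠ S.inv y := by
  by_contra hcon
  push Not at hcon
  have h1 : (Finset.univ : Finset Y) ⊆ {x, S.inv x, y, S.inv y} := by
    intro z _
    by_cases ha : z = x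
    · simp [ha]
    by_cases hb : z = S.inv x
    · simp [hb]
    by_cases hc : z = y
    · simp [hc]
    · simp [hcon z ha hb hc]
  have h2 := Finset.card_le_card h1
  have h3 : ({x, S.inv x, y, S.inv y} : Finset Y).card ≤ 4 := Finset.card_le_four
  rw [Finset.card_univ] at h2
  omega

theorem e_inv_left (x y : Y) : S.e (S.inv x) y = - S.e x y := by
  simp only [e, S.inv_inv]
  ring

theorem e_self (x : Y) : S.e x x = 1 := by
  rw [e, if_pos rfl, if_neg fun h => S.inv_ne x h.symm, sub_zero]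

theorem e_of_ne {x y : Y} (h1 : y ≠ x) (h2 : y ≠ S.inv x) : S.e x y = 0 := by
  rw [e, if_neg h1, if_neg h2, sub_zero]

theorem eps_of_three [Finite G] (hY : 6 ≤ Fintype.card Y)
    (h3 : ∀ x y : Fin 3 → Y, S.Apart x → S.Apart y →
      ∃ g : G, ∀ i, g • x i = y i ∨ g • x i = S.inv (y i))
    {m : Y → ℚ} (hm : S.IsRel m) (hm0 : m ≠ 0) : ∃ ε : Y → ℤ, S.IsEps ε := by
  classical
  let _ : Fintype G := Fintype.ofFinite G
  let P : Y → Y → ℚ := fun x y => ∑ g : G, m (g • x) * m (g • y)
  have hsymm : ∀ x y, P x y = P y x := fun x y => Finset.sum_congr rfl fun g _ => mul_comm _ _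
  have hinvl : ∀ x y, P (S.inv x) y = - P x y := by
    intro x y
    change ∑ g : G, m (g • S.inv x) * m (g • y) = - ∑ g : G, m (g • x) * m (g • y)
    rw [← Finset.sum_neg_distrib]
    refine Finset.sum_congr rfl fun g _ => ?_
    rw [S.smul_inv, hm.1]
    ring
  have hinvr : ∀ x y, P x (S.inv y) = - P x y := by
    intro x y
    rw [hsymm, hinvl, hsymm]
  have hP : ∀ (h : G) (x y : Y), P (h • x) (h • y) = P x y := by
    intro h x y
    change ∑ g : G, m (g • h • x) * m (g • h • y) = ∑ g : G, m (g • x) * m (g • y)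
    simp only [← mul_smul]
    exact Fintype.sum_equiv (Equiv.mulRight h) (fun g => m ((g * h) • x) * m ((g * h) • y))
      (fun g => m (g • x) * m (g • y)) fun g => rfl
  have hrel : ∀ x, S.IsRel (P x) := by
    intro x
    have h1 : P x = ∑ g : G, m (g • x) • fun y => m (g • y) := by
      funext y
      rw [Finset.sum_apply]
      rfl
    rw [h1]
    exact Submodule.sum_mem (S.relSub ℚ) fun g _ => Submodule.smul_mem _ _ (hm.smul g)
  -- base points
  have hne : Nonempty Y := by
    rw [← Fintype.card_pos_iff]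
    omega
  obtain ⟨x₀⟩ := hne
  obtain ⟨y₀, hy1, hy2, -, -⟩ := exists_third S hY x₀ x₀
  obtain ⟨z₀, hz1, hz2, hz3, hz4⟩ := exists_third S hY x₀ y₀
  have hinvne : ∀ {x y : Y}, x ≠ S.inv y → y ≠ S.inv x := by
    intro x y h h'
    exact h (by rw [h', S.inv_inv])
  have ha0 : ∀ x, P x x = P x₀ x₀ := by
    intro x
    obtain ⟨g, hg⟩ := S.trans x₀ x
    rw [← hg, hP]
  set a : ℚ := P x₀ x₀ with ha
  have hapos : 0 < a := by
    have hm1 : ∃ y, m y ≠ 0 := by
      by_contra hcon
      push Not at hcon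
      exact hm0 (funext hcon)
    obtain ⟨y, hy⟩ := hm1
    obtain ⟨g, hg⟩ := S.trans x₀ y
    refine Finset.sum_pos' (fun g _ => mul_self_nonneg _) ⟨g, Finset.mem_univ _, ?_⟩
    rw [hg]
    exact mul_self_pos.2 hy
  -- the square of `P x y`
  have hsq : ∀ x y : Y, x ≠ y → x ≠ S.inv y → P x y ^ 2 = P x₀ y₀ ^ 2 := by
    intro x y h1 h2
    obtain ⟨z, hza, hzb, hzc, hzd⟩ := exists_third S hY x y
    obtain ⟨g, hg⟩ := h3 ![x, y, z] ![x₀, y₀, z₀]
      (apart_of h1 h2 hza.symm (hinvne hzb) hzc.symm (hinvne hzd))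
      (apart_of hy1.symm (hinvne hy2) hz1.symm (hinvne hz2) hz3.symm (hinvne hz4))
    have g0 := hg 0
    have g1 := hg 1
    simp only [Matrix.cons_val_zero, Matrix.cons_val_one] at g0 g1
    rw [← hP g x y]
    rcases g0 with g0 | g0 <;> rcases g1 with g1 | g1 <;> rw [g0, g1] <;>
      simp only [hinvl, hinvr, neg_neg, neg_sq]
  have htri : ∀ x y z : Y, x ≠ y → x ≠ S.inv y → x ≠ z → x ≠ S.inv z → y ≠ z → y ≠ S.inv z →
      P x y * P y z * P z x = P x₀ y₀ * P y₀ z₀ * P z₀ x₀ := by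
    intro x y z h1 h2 h4 h5 h6 h7
    obtain ⟨g, hg⟩ := h3 ![x, y, z] ![x₀, y₀, z₀]
      (apart_of h1 h2 h4 h5 h6 h7)
      (apart_of hy1.symm (hinvne hy2) hz1.symm (hinvne hz2) hz3.symm (hinvne hz4))
    have g0 := hg 0
    have g1 := hg 1
    have g2 := hg 2
    simp only [Matrix.cons_val_zero, Matrix.cons_val_one, Matrix.cons_val] at g0 g1 g2
    rw [← hP g x y, ← hP g y z, ← hP g z x]
    rcases g0 with g0 | g0 <;> rcases g1 with g1 | g1 <;> rcases g2 with g2 | g2 <;>
      rw [g0, g1, g2] <;> simp only [hinvl, hinvr] <;> ring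
  -- `s ≠ 0`
  have hs0 : P x₀ y₀ ≠ 0 := by
    intro h0
    have h1 : ∀ x y : Y, x ≠ y → x ≠ S.inv y → P x y = 0 := by
      intro x y h1 h2
      have := hsq x y h1 h2
      rw [h0] at this
      simpa using this
    have h2 : ∀ x, S.IsRel (S.e x) := by
      intro x
      have h3 : S.e x = a⁻¹ • P x := by
        funext y
        change S.e x y = a⁻¹ * P x y
        by_cases hyx : y = x
        · rw [hyx, e_self, ha0, inv_mul_cancel₀ hapos.ne']
        by_cases hyx' : y = S.inv x
        · rw [hyx', e_inv, e_self, hinvr, ha0, mul_neg, inv_mul_cancel₀ hapos.ne']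
        · rw [e_of_ne hyx hyx', h1 x y (Ne.symm hyx) (hinvne hyx'), mul_zero]
      rw [h3]
      exact (hrel x).const_smul _
    have h4 : ∀ (g : G) (x : Y), S.r (g • x) = 0 := by
      intro g x
      have h5 := (h2 x).2 g⁻¹
      rw [sum_e] at h5
      exact_mod_cast h5
    exact S.inv_ne x₀ (eq_of_r (S := S) fun g => by rw [h4, h4])
  set s : ℚ := |P x₀ y₀| with hs
  have hspos : 0 < s := abs_pos.2 hs0
  have hs2 : s ^ 2 = P x₀ y₀ ^ 2 := sq_abs _
  have habs : ∀ x y : Y, x ≠ y → x ≠ S.inv y → P x y = s ∨ P x y = - s := by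
    intro x y h1 h2
    have h4 := hsq x y h1 h2
    rw [← hs2] at h4
    exact sq_eq_sq_iff_eq_or_eq_neg.1 h4
  -- the sign `τ`
  obtain ⟨τ, hτ, ht⟩ : ∃ τ : ℤ, (τ = 1 ∨ τ = -1) ∧
      P x₀ y₀ * P y₀ z₀ * P z₀ x₀ = τ * s ^ 3 := by
    have e1 := habs x₀ y₀ hy1.symm (hinvne hy2)
    have e2 := habs y₀ z₀ hz3.symm (hinvne hz4)
    have e3 := habs z₀ x₀ hz1 hz2
    rcases e1 with e1 | e1 <;> rcases e2 with e2 | e2 <;> rcases e3 with e3 | e3 <;>
      rw [e1, e2, e3]
    · exact ⟨1, Or.inl rfl, by push_cast; ring⟩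
    · exact ⟨-1, Or.inr rfl, by push_cast; ring⟩
    · exact ⟨-1, Or.inr rfl, by push_cast; ring⟩
    · exact ⟨1, Or.inl rfl, by push_cast; ring⟩
    · exact ⟨-1, Or.inr rfl, by push_cast; ring⟩
    · exact ⟨1, Or.inl rfl, by push_cast; ring⟩
    · exact ⟨1, Or.inl rfl, by push_cast; ring⟩
    · exact ⟨-1, Or.inr rfl, by push_cast; ring⟩
  have hτ2 : (τ : ℚ) * τ = 1 := by
    rcases hτ with h | h <;> rw [h] <;> norm_num
  let ε : Y → ℤ := fun y => if y = x₀ then τ else if y = S.inv x₀ then -τ else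
    if 0 < P x₀ y then 1 else -1
  have hε0 : ε x₀ = τ := if_pos rfl
  have hε0' : ε (S.inv x₀) = -τ := by
    change (if S.inv x₀ = x₀ then τ else if S.inv x₀ = S.inv x₀ then -τ else
      if 0 < P x₀ (S.inv x₀) then 1 else -1) = -τ
    rw [if_neg (S.inv_ne x₀), if_pos rfl]
  have hεA : ∀ y, y ≠ x₀ → y ≠ S.inv x₀ → P x₀ y = s * ε y := by
    intro y h1 h2
    have h4 : ε y = if 0 < P x₀ y then 1 else -1 := by
      change (if y = x₀ then τ else if y = S.inv x₀ then -τ else
        if 0 < P x₀ y then 1 else -1) = _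
      rw [if_neg h1, if_neg h2]
    rw [h4]
    rcases habs x₀ y h1.symm (hinvne h2) with h5 | h5
    · rw [h5, if_pos hspos]
      push_cast
      ring
    · rw [h5, if_neg (by linarith)]
      push_cast
      ring
  have hpm : ∀ y, ε y = 1 ∨ ε y = -1 := by
    intro y
    change (if y = x₀ then τ else if y = S.inv x₀ then -τ else
        if 0 < P x₀ y then 1 else -1) = 1 ∨ (if y = x₀ then τ else if y = S.inv x₀ then -τ else
        if 0 < P x₀ y then 1 else -1) = -1
    split_ifs
    · exact hτ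
    · rcases hτ with h | h <;> rw [h] <;> simp
    · exact Or.inl rfl
    · exact Or.inr rfl
  have hε2 : ∀ y, (ε y : ℚ) * ε y = 1 := by
    intro y
    rcases hpm y with h | h <;> rw [h] <;> norm_num
  have hodd : ∀ y, ε (S.inv y) = - ε y := by
    intro y
    by_cases h1 : y = x₀
    · rw [h1, hε0, hε0']
    by_cases h2 : y = S.inv x₀
    · rw [h2, S.inv_inv, hε0, hε0', neg_neg]
    have h4 : S.inv y ≠ x₀ := fun h => h2 (by rw [← h, S.inv_inv])
    have h5 : S.inv y ≠ S.inv x₀ := fun h => h1 (S.inv_injective h)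
    have h6 := hεA _ h4 h5
    rw [hinvr, hεA y h1 h2] at h6
    have h7 : (ε (S.inv y) : ℚ) = - ε y := by
      have h8 : s * ((ε (S.inv y) : ℚ) + ε y) = 0 := by linarith
      rcases mul_eq_zero.1 h8 with h9 | h9
      · exact absurd h9 hspos.ne'
      · linarith
    exact_mod_cast h7
  have hB : ∀ y z : Y, y ≠ z → y ≠ S.inv z → P y z = τ * s * ε y * ε z := by
    intro y z h1 h2
    by_cases hy : y = x₀
    · rw [hy, hε0, hεA z (by rw [← hy]; exact h1.symm) (by rw [← hy]; exact hinvne h2)]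
      linear_combination (-(s * ε z)) * hτ2
    by_cases hy' : y = S.inv x₀
    · have hz : z ≠ x₀ := fun h => h2 (by rw [hy', h])
      have hz' : z ≠ S.inv x₀ := fun h => h1 (by rw [hy', h])
      rw [hy', hε0', hinvl, hεA z hz hz']
      push_cast
      linear_combination (s * ε z) * hτ2
    by_cases hz : z = x₀
    · rw [hz, hε0, hsymm, hεA y hy hy']
      linear_combination (-(s * ε y)) * hτ2
    by_cases hz' : z = S.inv x₀
    · rw [hz', hε0', hinvr, hsymm, hεA y hy hy']
      push_cast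
      linear_combination (s * ε y) * hτ2
    have h4 := htri x₀ y z (Ne.symm hy) (hinvne hy') (Ne.symm hz) (hinvne hz') h1 h2
    rw [ht, hsymm z x₀, hεA y hy hy', hεA z hz hz'] at h4
    -- `s ε y P y z s ε z = τ s ^ 3`
    have h5 : s ^ 2 * (P y z - τ * s * ε y * ε z) = 0 := by
      have e1 := hε2 y
      have e2 := hε2 z
      linear_combination (ε y : ℚ) * ε z * h4 - s ^ 2 * P y z * (ε z * ε z) * e1 -
        s ^ 2 * P y z * e2
    rcases mul_eq_zero.1 h5 with h6 | h6
    · exact absurd h6 (pow_ne_zero 2 hspos.ne')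
    · linarith
  have hall : ∀ y z : Y, P y z = (a - τ * s) * S.e y z + τ * s * ε y * ε z := by
    intro y z
    by_cases h1 : z = y
    · rw [h1, ha0, e_self]
      linear_combination (-(τ * s : ℚ)) * hε2 y
    by_cases h2 : z = S.inv y
    · rw [h2, hinvr, ha0, e_inv, e_self, hodd]
      push_cast
      linear_combination ((τ * s : ℚ)) * hε2 y
    · rw [e_of_ne h1 h2, hB y z (Ne.symm h1) (hinvne h2)]
      ring
  -- `a = τ s`
  have has : a = τ * s := by
    by_contra hne
    have hne' : a - τ * s ≠ 0 := sub_ne_zero.2 hne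
    have h1 : S.IsRel ((ε x₀ : ℚ) • S.e x₀ - (ε y₀ : ℚ) • S.e y₀) := by
      have h2 : (ε x₀ : ℚ) • S.e x₀ - (ε y₀ : ℚ) • S.e y₀ =
          (a - τ * s)⁻¹ • ((ε x₀ : ℚ) • P x₀ - (ε y₀ : ℚ) • P y₀) := by
        funext z
        simp only [Pi.sub_apply, Pi.smul_apply, smul_eq_mul]
        rw [hall x₀ z, hall y₀ z]
        have e1 := hε2 x₀
        have e2 := hε2 y₀
        field_simp
        linear_combination (-(τ * s * ε z : ℚ)) * e1 + ((τ * s * ε z : ℚ)) * e2
      rw [h2]
      exact (((hrel x₀).const_smul _).sub ((hrel y₀).const_smul _)).const_smul _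
    have h2 : ∀ y, ∃ y', (y' = y ∨ y' = S.inv y) ∧ (ε y : ℚ) • S.e y = S.e y' := by
      intro y
      rcases hpm y with h | h
      · exact ⟨y, Or.inl rfl, by rw [h, Int.cast_one, one_smul]⟩
      · refine ⟨S.inv y, Or.inr rfl, ?_⟩
        funext z
        rw [h, e_inv_left]
        simp
    obtain ⟨x', hx', hxe⟩ := h2 x₀
    obtain ⟨y', hy', hye⟩ := h2 y₀
    rw [hxe, hye] at h1
    have h4 := eq_of_isRel_e h1
    rcases hx' with hx' | hx' <;> rcases hy' with hy' | hy'
    · exact hy1 (by rw [← hy', ← h4, hx'])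
    · exact hinvne hy2 (by rw [← hx', h4, hy'])
    · exact hy2 (by rw [← hy', ← h4, hx'])
    · exact hy1 (S.inv_injective (by rw [← hy', ← h4, hx']))
  have hPe : ∀ y z : Y, P y z = a * ε y * ε z := by
    intro y z
    rw [hall y z, ← has, sub_self, zero_mul, zero_add]
  have hepsrel : S.IsRel fun y => (ε y : ℚ) := by
    have h1 : (fun y => (ε y : ℚ)) = ((a * ε x₀ : ℚ))⁻¹ • P x₀ := by
      funext z
      simp only [Pi.smul_apply, smul_eq_mul]
      rw [hPe x₀ z]
      have h2 : (ε x₀ : ℚ) ≠ 0 := by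
        intro h
        have := hε2 x₀
        rw [h] at this
        norm_num at this
      have h4 := hapos.ne'
      field_simp
    rw [h1]
    exact (hrel x₀).const_smul _
  refine ⟨ε, hpm, ⟨hodd, fun g => ?_⟩, fun g => ⟨ε (g • x₀) * ε x₀, ?_, fun y => ?_⟩⟩
  · have h1 : ∑ b ∈ S.B, (ε (g • b) : ℚ) = 0 := hepsrel.2 g
    exact_mod_cast h1
  · rcases hpm (g • x₀) with h | h <;> rcases hpm x₀ with h' | h' <;> rw [h, h'] <;> simp
  · have h1 : a * ε (g • x₀) * ε (g • y) = a * ε x₀ * ε y := by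
      rw [← hPe, ← hPe, hP]
    have h2 : (ε (g • x₀) : ℚ) * ε (g • y) = ε x₀ * ε y := by
      have h4 : a * ((ε (g • x₀) : ℚ) * ε (g • y) - ε x₀ * ε y) = 0 := by linarith
      rcases mul_eq_zero.1 h4 with h5 | h5
      · exact absurd h5 hapos.ne'
      · linarith
    have h4 : (ε (g • y) : ℚ) = ε (g • x₀) * ε x₀ * ε y := by
      linear_combination (ε (g • x₀) : ℚ) * h2 - ε (g • y) * hε2 (g • x₀)
    exact_mod_cast h4

end Data

end Pool.Agent.KThree
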