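import Pool.Agent.KThree.MkData
import Pool.Agent.KThree.EpsB

/-!
# Transfer of the `3`-transitivity

PACKAGE (statement frozen). `TraceThree Q`: the minimal polynomial `H` of `α + 1 / α` has a
`3`-transitive Galois group. Proof: `H` splits in `Spl Q`?: every root of `H` is a conjugate of
`z.val + z.val⁻¹` (`z : Rt Q`; `H` is irreducible and has this root, by an embedding in `ℂ`), so it
is
of the form `g (z.val + z.val⁻¹)`; hence `H` splits in `Spl Q` and there is an embedding
`j : H.SplittingField →ₐ[ℚ] Spl Q`, bijective on the roots of `H`. For `x`, `y` apart the numbers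
`t i = (x i).val + (x i).val⁻¹` are three different roots of `H` (`u + 1/u = v + 1/v` implies `u =
v`
or `u = 1/v`), same for `y`. The hypothesis gives an automorphism of `H.SplittingField` which maps
`j⁻¹ (t i)` to `j⁻¹ (t' i)`; extend it to `Spl Q` (`AlgEquiv.liftNormal` or
`IntermediateField`/`IsSplittingField` lifting, `Spl Q` is normal over `ℚ`): `g : Gr Q` with
`g (t i) = t' i`, so `g (x i)` is `y i` or its inverse.
-/

set_option autoImplicit false

namespace Pool.Agent.KThree

open Polynomial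

variable {Q : ℚ[X]} {p f : ℕ} [Fact p.Prime]

/-- The Galois group of the minimal polynomial `H` of `α + 1 / α`, `α` a root of `Q`, is
`3`-transitive on the roots of `H`. -/
def TraceThree (Q : ℚ[X]) : Prop :=
  ∃ H : ℚ[X], Irreducible H ∧ (∀ z : ℂ, aeval z Q = 0 → aeval (z + z⁻¹) H = 0) ∧
    ∀ x y : Fin 3 → H.SplittingField, (∀ i, aeval (x i) H = 0) → (∀ i, aeval (y i) H = 0) →
      Function.Injective x → Function.Injective y →
      ∃ g : H.SplittingField ≃ₐ[ℚ] H.SplittingField, ∀ i, g (x i) = y i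

private theorem val_ne_zero' (hQ : IsKThreePoly Q p f) (z : Rt Q) : z.val ≠ 0 := by
  intro h0
  have h1 := (mem_rootSet.1 z.mem).2
  rw [h0, ← coeff_zero_eq_aeval_zero'] at h1
  have h2 : Q.coeff 0 = 0 := by
    rwa [map_eq_zero] at h1
  have h3 : aeval (0 : ℂ) Q = 0 := by
    rw [← coeff_zero_eq_aeval_zero', h2, map_zero]
  have h4 := hQ.weil 0 h3
  rw [norm_zero] at h4
  exact zero_ne_one h4

private theorem eq_or_of_add_inv {L : Type} [Field L] {u v : L} (hu : u ≠ 0) (hv : v ≠ 0)
    (h : u + u⁻¹ = v + v⁻¹) : u = v ∨ u = v⁻¹ := by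
  have h1 : (u - v) * (u * v - 1) = 0 := by
    field_simp at h
    linear_combination h
  rcases mul_eq_zero.1 h1 with h2 | h2
  · exact Or.inl (sub_eq_zero.1 h2)
  · exact Or.inr (eq_inv_of_mul_eq_one_left (sub_eq_zero.1 h2))

/-- Transfer of the roots and the automorphisms. -/
private theorem transfer {L : Type} [Field L] [Algebra ℚ L] [Normal ℚ L] {H : ℚ[X]}
    (hH : Irreducible H) (x y : Fin 3 → L) (hx : ∀ i, aeval (x i) H = 0)
    (hy : ∀ i, aeval (y i) H = 0) (hxi : Function.Injective x) (hyi : Function.Injective y)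
    (h3 : ∀ x y : Fin 3 → H.SplittingField, (∀ i, aeval (x i) H = 0) →
      (∀ i, aeval (y i) H = 0) → Function.Injective x → Function.Injective y →
      ∃ g : H.SplittingField ≃ₐ[ℚ] H.SplittingField, ∀ i, g (x i) = y i) :
    ∃ g : L ≃ₐ[ℚ] L, ∀ i, g (x i) = y i := by
  have hH0 := hH.ne_zero
  -- the polynomial splits
  have hsp : (H.map (algebraMap ℚ L)).Splits := by
    have h1 := Normal.splits (inferInstance : Normal ℚ L) (x 0)
    rw [← minpoly.eq_of_irreducible hH (hx 0), Polynomial.map_mul] at h1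
    refine h1.of_dvd ?_ (dvd_mul_right _ _)
    rw [← Polynomial.map_mul]
    refine (Polynomial.map_ne_zero_iff (algebraMap ℚ L).injective).2 (mul_ne_zero hH0 ?_)
    rw [Ne, C_eq_zero]
    exact inv_ne_zero (leadingCoeff_ne_zero.2 hH0)
  let j : H.SplittingField →ₐ[ℚ] L := SplittingField.lift H hsp
  have himg : j '' H.rootSet H.SplittingField = H.rootSet L :=
    (SplittingField.splits H).image_rootSet j
  have hpre : ∀ z : L, aeval z H = 0 → ∃ w : H.SplittingField, aeval w H = 0 ∧ j w = z := by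
    intro z hz
    have h1 : z ∈ H.rootSet L := mem_rootSet.2 ⟨hH0, hz⟩
    rw [← himg] at h1
    obtain ⟨w, hw, rfl⟩ := h1
    exact ⟨w, (mem_rootSet.1 hw).2, rfl⟩
  choose x' hx' hjx using fun i => hpre (x i) (hx i)
  choose y' hy' hjy using fun i => hpre (y i) (hy i)
  obtain ⟨g, hg⟩ := h3 x' y' hx' hy'
    (fun a b hab => hxi (by rw [← hjx, ← hjx, hab]))
    (fun a b hab => hyi (by rw [← hjy, ← hjy, hab]))
  let _ : Algebra H.SplittingField L := j.toRingHom.toAlgebra
  have : IsScalarTower ℚ H.SplittingField L := IsScalarTower.of_algebraMap_eq' (by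
    ext q
    exact (j.commutes q).symm)
  refine ⟨g.liftNormal L, fun i => ?_⟩
  have h1 := g.liftNormal_commutes L (x' i)
  rw [hg] at h1
  have hj : ∀ w, algebraMap H.SplittingField L w = j w := fun w => rfl
  rw [hj, hj, hjx, hjy] at h1
  exact h1

theorem three_of_trace (hQ : IsKThreePoly Q p f) {S : Data (Gr Q) (Rt Q)} (hS : IsData Q p S)
    (h3 : TraceThree Q) (x y : Fin 3 → Rt Q) (hx : S.Apart x) (hy : S.Apart y) :
    ∃ g : Gr Q, ∀ i, g • x i = y i ∨ g • x i = S.inv (y i) := by
  obtain ⟨H, hH, hroot, h3⟩ := h3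
  have hne := val_ne_zero' hQ
  have hti : ∀ z : Rt Q, aeval (z.val + z.val⁻¹) H = 0 := by
    intro z
    let ι : Spl Q →ₐ[ℚ] ℂ := IsAlgClosed.lift
    have h1 : aeval (ι z.val) Q = 0 := by
      rw [aeval_algHom_apply, (mem_rootSet.1 z.mem).2, map_zero]
    have h2 := hroot _ h1
    have h4 : ι z.val + (ι z.val)⁻¹ = ι (z.val + z.val⁻¹) := by
      rw [map_add, map_inv₀]
    rw [h4, aeval_algHom_apply] at h2
    exact ι.injective (h2.trans (map_zero ι).symm)
  have hinj : ∀ x : Fin 3 → Rt Q, S.Apart x →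
      Function.Injective fun i => (x i).val + (x i).val⁻¹ := by
    intro x hx a b hab
    by_contra hne'
    obtain ⟨h1, h2⟩ := hx a b hne'
    rcases eq_or_of_add_inv (hne (x a)) (hne (x b)) hab with h | h
    · exact h1 (Rt.ext h)
    · exact h2 (Rt.ext (by rw [h, hS.inv]))
  have hsf : IsSplittingField ℚ (Spl Q) Q := IsSplittingField.splittingField _
  have hnm : Normal ℚ (Spl Q) := Normal.of_isSplittingField Q
  obtain ⟨g, hg⟩ := transfer (L := Spl Q) hH (fun i => (x i).val + (x i).val⁻¹)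
    (fun i => (y i).val + (y i).val⁻¹) (fun i => hti _) (fun i => hti _) (hinj x hx) (hinj y hy) h3
  refine ⟨g, fun i => ?_⟩
  have h1 := hg i
  rw [map_add, map_inv₀] at h1
  have h0 : g (x i).val ≠ 0 := fun h0 => hne _ (g.injective (h0.trans (map_zero g).symm))
  rcases eq_or_of_add_inv h0 (hne (y i)) h1 with h | h
  · exact Or.inl (Rt.ext h)
  · exact Or.inr (Rt.ext (by rw [hS.inv]; exact h))

end Pool.Agent.KThree
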