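import Pool.Agent.KThree.MkData

/-!
# An imaginary quadratic subfield in which `p` does not split gives a relation

PACKAGE (statement frozen; `MkData.lean`, `Kron.lean`, `Places.lean` are proved). Proof, with
`φ = emb Q p`:
(1) For a root `y : Rt Q` let `ρ y : AdjoinRoot Q →ₐ[ℚ] Spl Q` map the root to `y.val`
(`AdjoinRoot.liftAlgHom`). Fix `y₀` (`S.B` or `Rt Q` is not empty: `card_Rt`, or `Q` splits) and
`δ₀ = ρ y₀ δ`, so `δ₀ ^ 2 = D`, `δ₀ ≠ 0`. Then `ρ y δ = δ₀` or `- δ₀`; let `ε y = 1` or `-1`.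
For `g : Gr Q`: `g ∘ ρ y = ρ (g • y)` (algebra maps from `AdjoinRoot Q` with the same value at the
root), and `g δ₀ = χ g * δ₀`, `χ g = ± 1`; so `ε (g • y) = χ g * ε y`.
(2) complex conjugation: there is `g₀ : Gr Q` and `σ : Spl Q →+* ℂ` with `σ (g₀ x) = conj (σ x)` and
`g₀ z.val = z.val⁻¹` for all roots (statement `exists_conj` of `Quad.lean`; do not import `Quad.lean`, copy
its proof if it is there already, or prove it: `Spl Q` is normal, compare
`Pool/Agent/Exo5/Conj.lean`). As `(σ δ₀) ^ 2 = D < 0`, `conj (σ δ₀) = - σ δ₀`, so `χ g₀ = -1`, and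
`ε (S.inv y) = - ε y`.
(3) `M = {y | ε y = 1}`: `y ∈ M ↔ S.inv y ∉ M`. Let `β = ∏ y ∈ M, y.val`. If `χ g = 1` then `g β = β`, if
`χ g = -1` then `g β = β⁻¹` (`g` maps `M` to `M` or to its inverse).
(4) `‖φ β‖ = 1`: since `D` is no square in `ℚ_p`, `φ δ₀` is not in (the image of) `ℚ_p`, so some
`τ : PadicAlgCl p ≃ₐ[ℚ_[p]] PadicAlgCl p` moves it (`IsGalois`/`Normal`: fixed elements are in the
base field; or use the roots `± φ δ₀` of the irreducible polynomial `X ^ 2 - D` and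
`isConjRoot_iff_exists_algEquiv`); `τ` restricts to `g : Gr Q` (private `exists_restrict` in
`Places.lean`/`Exo5/Loc.lean`, copy) with `χ g = -1`, and preserves the norm (`norm_algEquiv`), so
`‖φ β‖ = ‖φ (g β)‖ = ‖φ β‖⁻¹`. So `‖φ (g β)‖ = 1` for all `g`.
(5) `p ^ N * β` is an algebraic integer for some `N` (each root times a power of `p` is one, see
`Kron.lean`), so `β` is an algebraic integer (private `integral_of_norm` in `Kron.lean`, copy), all
`‖σ' β‖ = 1` (`hQ.weil`), and Kronecker (`NumberField.Embeddings.pow_eq_one_of_norm_eq_one`) gives `n`.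
-/

set_option autoImplicit false

namespace Pool.Agent.KThree

open Polynomial

/-- a product of linear factors with the roots in a subring has its coefficients there -/
private theorem ur_coeff_prod_mem {R : Type*} [CommRing R] (S : Subring R) {I : Type*} (T : Finset I)
    (a b : I → R) (ha : ∀ i ∈ T, a i ∈ S) (hb : ∀ i ∈ T, b i ∈ S) (n : ℕ) :
    (∏ i ∈ T, (C (b i) * X - C (a i))).coeff n ∈ S := by
  classical
  have h : (∏ i ∈ T, (C (b i) * X - C (a i))) ∈ Polynomial.lifts S.subtype := by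
    refine Subsemiring.prod_mem _ fun i hi => ?_
    have h1 : (C (b i) * X - C (a i) : R[X]) = C (b i) * X + C (-a i) := by
      rw [C_neg]
      ring
    rw [h1]
    refine Subsemiring.add_mem _ (Subsemiring.mul_mem _ ?_ ?_) ?_
    · exact (Polynomial.lifts S.subtype).mem_carrier.1 ⟨C ⟨b i, hb i hi⟩, by simp⟩
    · exact ⟨X, by simp⟩
    · exact ⟨C ⟨-a i, S.neg_mem (ha i hi)⟩, by simp⟩
  rw [Polynomial.lifts_iff_coeff_lifts] at h
  obtain ⟨y, hy⟩ := h n
  rw [← hy]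
  exact y.2

/-- a rational number which is a `p`-adic integer and an integer after multiplication by a power
of `p` is an integer -/
private theorem ur_int_of_padic {p : ℕ} [Fact p.Prime] {r : ℚ} (h : ‖(r : ℚ_[p])‖ ≤ 1) {N : ℕ}
    {m : ℤ} (hm : ((p ^ N : ℕ) : ℚ) * r = m) : ∃ k : ℤ, r = k := by
  have hp := (Fact.out : p.Prime)
  have h1 : ¬ p ∣ r.den := by
    intro hd
    have h2 := PadicInt.isUnit_iff.1 (PadicInt.isUnit_den r h)
    have h3 := (PadicInt.norm_int_lt_one_iff_dvd (p := p) (r.den : ℤ)).2 (by exact_mod_cast hd)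
    rw [Int.cast_natCast] at h3
    exact absurd h2 h3.ne
  have h2 : r.den ∣ p ^ N := by
    have e1 : ((p ^ N : ℕ) : ℤ) * r.num = m * r.den := by
      have e2 : (r.num : ℚ) = r * r.den := (Rat.mul_den_eq_num r).symm
      have e3 : (((p ^ N : ℕ) : ℤ) * r.num : ℚ) = m * r.den := by
        rw [e2, ← hm]
        push_cast
        ring
      exact_mod_cast e3
    have e4 : (r.den : ℤ) ∣ ((p ^ N : ℕ) : ℤ) * r.num := ⟨m, by rw [e1, mul_comm]⟩
    have e5 : IsCoprime (r.den : ℤ) r.num := by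
      rw [Int.isCoprime_iff_gcd_eq_one]
      have := r.reduced
      rw [Int.gcd_comm]
      exact this
    have e6 := e5.dvd_of_dvd_mul_right e4
    exact_mod_cast e6
  have h3 : r.den = 1 := by
    rcases (Nat.dvd_prime_pow hp).1 h2 with ⟨k, -, hk⟩
    rcases Nat.eq_zero_or_pos k with rfl | hk0
    · simpa using hk
    · exact absurd (hk ▸ dvd_pow_self p hk0.ne') h1
  exact ⟨r.num, (Rat.den_eq_one_iff r).1 h3 ▸ rfl⟩

private theorem ur_norm_coeff_le {p : ℕ} [Fact p.Prime] {I : Type*} (T : Finset I)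
    (x : I → PadicAlgCl p) (hx : ∀ i ∈ T, ‖x i‖ ≤ 1) (n : ℕ) :
    ‖(∏ i ∈ T, (C 1 * X - C (x i))).coeff n‖ ≤ 1 := by
  let S : Subring (PadicAlgCl p) :=
    { carrier := {x | ‖x‖ ≤ 1}
      mul_mem' := fun {x y} hx hy => by
        change ‖x * y‖ ≤ 1
        rw [norm_mul]
        exact mul_le_one₀ hx (norm_nonneg _) hy
      one_mem' := by
        change ‖(1 : PadicAlgCl p)‖ ≤ 1
        rw [norm_one]
      add_mem' := fun {x y} hx hy => by
        change ‖x + y‖ ≤ 1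
        exact (PadicAlgCl.isNonarchimedean p x y).trans (max_le hx hy)
      zero_mem' := by
        change ‖(0 : PadicAlgCl p)‖ ≤ 1
        rw [norm_zero]
        exact zero_le_one
      neg_mem' := fun {x} hx => by
        change ‖-x‖ ≤ 1
        rw [norm_neg]
        exact hx }
  exact ur_coeff_prod_mem S T x (fun _ => 1) hx (fun _ _ => S.one_mem) n

private theorem ur_integral_of_norm {L : Type} [Field L] [NumberField L] [IsGalois ℚ L] {p : ℕ}
    [Fact p.Prime] (φ : L →+* PadicAlgCl p) {a : ℕ} {u : L}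
    (hqu : IsIntegral ℤ (((p ^ a : ℕ) : L) * u)) (hφ : ∀ g : L ≃ₐ[ℚ] L, ‖φ (g u)‖ ≤ 1) :
    IsIntegral ℤ u := by
  classical
  set N := (Finset.univ : Finset (L ≃ₐ[ℚ] L)).card with hN
  set Q : L[X] := ∏ g : L ≃ₐ[ℚ] L, (C 1 * X - C (g u)) with hQ
  have hfix : ∀ (n : ℕ) (g : L ≃ₐ[ℚ] L), g (Q.coeff n) = Q.coeff n := by
    intro n g
    have h1 : Q.map (g : L →+* L) = Q := by
      rw [hQ, Polynomial.map_prod]
      refine Fintype.prod_equiv (Equiv.mulLeft g) _ _ fun g' => ?_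
      simp
    conv_rhs => rw [← h1, coeff_map]
    rfl
  have hrat : ∀ n, ∃ r : ℚ, algebraMap ℚ L r = Q.coeff n := by
    intro n
    have h1 := (IsGalois.mem_bot_iff_fixed (F := ℚ) (E := L) (Q.coeff n)).2 (hfix n)
    exact IntermediateField.mem_bot.1 h1
  have hZ : ∀ n, ∃ k : ℤ, Q.coeff n = k := by
    intro n
    obtain ⟨r, hr⟩ := hrat n
    have h1 : ‖(r : ℚ_[p])‖ ≤ 1 := by
      have e1 : φ (Q.coeff n) = algebraMap ℚ_[p] (PadicAlgCl p) (r : ℚ_[p]) := by
        rw [← hr]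
        have : φ.comp (algebraMap ℚ L) =
            (algebraMap ℚ_[p] (PadicAlgCl p)).comp (Rat.castHom ℚ_[p]) := Subsingleton.elim _ _
        exact RingHom.congr_fun this r
      have e2 : ‖φ (Q.coeff n)‖ ≤ 1 := by
        have e3 : φ (Q.coeff n) = (∏ g : L ≃ₐ[ℚ] L, (C (1 : PadicAlgCl p) * X -
            C (φ (g u)))).coeff n := by
          rw [← coeff_map, hQ, Polynomial.map_prod]
          simp
        rw [e3]
        exact ur_norm_coeff_le Finset.univ (fun g : L ≃ₐ[ℚ] L => φ (g u)) (fun g _ => hφ g) n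
      rw [e1] at e2
      rw [← PadicAlgCl.norm_extends]
      exact e2
    have h2 : IsIntegral ℤ (((p ^ (a * N) : ℕ) : ℚ) * r) := by
      have e1 : algebraMap ℚ L (((p ^ (a * N) : ℕ) : ℚ) * r) =
          (∏ g : L ≃ₐ[ℚ] L, (C ((p ^ a : ℕ) : L) * X - C (g (((p ^ a : ℕ) : L) * u)))).coeff n := by
        have e2 : (∏ g : L ≃ₐ[ℚ] L, (C ((p ^ a : ℕ) : L) * X - C (g (((p ^ a : ℕ) : L) * u)))) =
            C (((p ^ a : ℕ) : L) ^ N) * Q := by
          have e3 : ∀ g : L ≃ₐ[ℚ] L, (C ((p ^ a : ℕ) : L) * X - C (g (((p ^ a : ℕ) : L) * u)) :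
              L[X]) = C ((p ^ a : ℕ) : L) * (C 1 * X - C (g u)) := by
            intro g
            have e4 : g ((p ^ a : ℕ) : L) = ((p ^ a : ℕ) : L) := map_natCast g _
            rw [map_mul, e4, C_mul, C_1]
            ring
          rw [Finset.prod_congr rfl fun g _ => e3 g, Finset.prod_mul_distrib, Finset.prod_const,
            C_pow]
        rw [e2, coeff_C_mul, map_mul, hr]
        congr 1
        rw [map_natCast, pow_mul, Nat.cast_pow]
      have e5 : IsIntegral ℤ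
          ((∏ g : L ≃ₐ[ℚ] L, (C ((p ^ a : ℕ) : L) * X - C (g (((p ^ a : ℕ) : L) * u)))).coeff n) :=
        ur_coeff_prod_mem (integralClosure ℤ L).toSubring (Finset.univ : Finset (L ≃ₐ[ℚ] L))
          (fun g => g (((p ^ a : ℕ) : L) * u)) (fun _ => ((p ^ a : ℕ) : L))
          (fun g _ => hqu.map (g : L →ₐ[ℚ] L).toRingHom.toIntAlgHom)
          (fun _ _ => by
            have : IsIntegral ℤ (((p ^ a : ℕ) : L)) := by
              have := isIntegral_algebraMap (R := ℤ) (A := L) (x := ((p ^ a : ℕ) : ℤ))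
              rwa [map_natCast] at this
            exact this)
          n
      rw [← e1] at e5
      exact (isIntegral_algebraMap_iff (algebraMap ℚ L).injective).1 e5
    obtain ⟨m, hm⟩ := IsIntegrallyClosed.isIntegral_iff.1 h2
    obtain ⟨k, hk⟩ := ur_int_of_padic (p := p) h1 (N := a * N) (m := m) (by rw [← hm]; rfl)
    exact ⟨k, by rw [← hr, hk, map_intCast]⟩
  have h1 : Q ∈ Polynomial.lifts (Int.castRingHom L) := by
    rw [Polynomial.lifts_iff_coeff_lifts]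
    intro n
    obtain ⟨k, hk⟩ := hZ n
    exact ⟨k, by rw [hk]; rfl⟩
  have hQm : Q.Monic := by
    rw [hQ]
    refine monic_prod_of_monic _ _ fun g _ => ?_
    rw [C_1, one_mul]
    exact monic_X_sub_C _
  obtain ⟨Q', hQ', -, hQ'm⟩ := Polynomial.lifts_and_natDegree_eq_and_monic h1 hQm
  refine ⟨Q', hQ'm, ?_⟩
  have e1 : eval₂ (algebraMap ℤ L) u Q' = eval u Q := by
    rw [← hQ', eval_map]
    rfl
  rw [e1, hQ, eval_prod]
  refine Finset.prod_eq_zero (Finset.mem_univ (1 : L ≃ₐ[ℚ] L)) ?_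
  simp

/-- the root multiplied by a power of `p` is an algebraic integer -/
private theorem ur_integral_root {Q : ℚ[X]} {p N : ℕ} (hm : Q.Monic)
    (hN : ∀ i : ℕ, ∃ c : ℤ, (p : ℚ) ^ N * Q.coeff i = c) {K : Type} [Field K] [CharZero K] {v : K}
    (hv : eval₂ (algebraMap ℚ K) v Q = 0) : IsIntegral ℤ ((p : K) ^ N * v) := by
  have h1 : Q.scaleRoots ((p : ℚ) ^ N) ∈ Polynomial.lifts (Int.castRingHom ℚ) := by
    rw [Polynomial.lifts_iff_coeff_lifts]
    intro i
    rw [coeff_scaleRoots]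
    obtain ⟨c, hc⟩ := hN i
    rcases lt_trichotomy i Q.natDegree with hi | hi | hi
    · obtain ⟨k, hk⟩ : ∃ k, Q.natDegree - i = k + 1 := ⟨Q.natDegree - i - 1, by omega⟩
      refine ⟨c * ((p : ℤ) ^ N) ^ k, ?_⟩
      rw [hk, pow_succ, eq_intCast, Int.cast_mul, ← hc]
      push_cast
      ring
    · refine ⟨1, ?_⟩
      rw [hi, Nat.sub_self, pow_zero, mul_one, map_one]
      exact hm.symm
    · refine ⟨0, ?_⟩
      rw [coeff_eq_zero_of_natDegree_lt hi, zero_mul, map_zero]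
  obtain ⟨Q', hQ', -, hQm⟩ := Polynomial.lifts_and_natDegree_eq_and_monic h1
    ((monic_scaleRoots_iff _).2 hm)
  refine ⟨Q', hQm, ?_⟩
  have h2 := scaleRoots_eval₂_eq_zero (algebraMap ℚ K) (s := (p : ℚ) ^ N) hv
  rw [← hQ', eval₂_map] at h2
  rw [map_pow, map_natCast] at h2
  rw [← h2]
  congr 1
  exact RingHom.ext_int _ _

variable {Q : ℚ[X]} {p f : ℕ} [Fact p.Prime]

private theorem ur_aeval_hom {K L : Type*} [Field K] [Field L] [Algebra ℚ K] [Algebra ℚ L]
    (ψ : K →+* L) (Q : ℚ[X]) (x : K) : aeval (ψ x) Q = ψ (aeval x Q) := by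
  rw [aeval_def, aeval_def, hom_eval₂]
  congr 1
  exact Subsingleton.elim _ _

private theorem ur_normal (Q : ℚ[X]) : Normal ℚ (Spl Q) := by
  have h : ∃ i₀ : Algebra ℚ (Spl Q), @IsSplittingField ℚ (Spl Q) _ _ i₀ Q :=
    ⟨_, IsSplittingField.splittingField Q⟩
  obtain ⟨i₀, hi⟩ := h
  have e : i₀ = DivisionRing.toRatAlgebra := Subsingleton.elim _ _
  subst e
  exact Normal.of_isSplittingField Q

private theorem ur_norm_algEquiv (τ : PadicAlgCl p ≃ₐ[ℚ_[p]] PadicAlgCl p)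
    (y : PadicAlgCl p) : ‖τ y‖ = ‖y‖ := by
  rw [← PadicAlgCl.spectralNorm_eq, ← PadicAlgCl.spectralNorm_eq]
  exact (spectralNorm_eq_of_equiv τ y).symm

/-- automorphisms over `ℚ_p` restrict to the splitting field -/
private theorem ur_exists_restrict (τ : PadicAlgCl p ≃ₐ[ℚ_[p]] PadicAlgCl p) :
    ∃ d : Gr Q, ∀ x : Spl Q, emb Q p (d x) = τ (emb Q p x) := by
  let : Algebra (Spl Q) (PadicAlgCl p) := (emb Q p).toAlgebra
  have : IsScalarTower ℚ (Spl Q) (PadicAlgCl p) := by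
    refine IsScalarTower.of_algebraMap_eq fun x => ?_
    simp
  let τ' : PadicAlgCl p ≃ₐ[ℚ] PadicAlgCl p :=
    AlgEquiv.ofRingEquiv (f := τ.toRingEquiv) fun r => by simp
  have := ur_normal Q
  refine ⟨τ'.restrictNormal (Spl Q), fun x => ?_⟩
  exact τ'.restrictNormal_commutes (Spl Q) x

/-- complex conjugation -/
private theorem ur_exists_conj (hQ : IsKThreePoly Q p f) :
    ∃ (g : Gr Q) (σ : Spl Q →+* ℂ), (∀ x, σ (g x) = starRingEnd ℂ (σ x)) ∧
      ∀ z : Rt Q, g z.val = z.val⁻¹ := by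
  let φ : Spl Q →ₐ[ℚ] ℂ := IsAlgClosed.lift
  let : Algebra (Spl Q) ℂ := φ.toRingHom.toAlgebra
  have : IsScalarTower ℚ (Spl Q) ℂ := IsScalarTower.of_algebraMap_eq fun r => by
    change algebraMap ℚ ℂ r = φ (algebraMap ℚ (Spl Q) r)
    rw [AlgHom.commutes]
  have := ur_normal Q
  let χ : ℂ ≃ₐ[ℚ] ℂ := Complex.conjAe.restrictScalars ℚ
  have hc : ∀ x, φ (χ.restrictNormal (Spl Q) x) = (starRingEnd ℂ) (φ x) := fun x =>
    AlgEquiv.restrictNormal_commutes χ (Spl Q) x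
  refine ⟨χ.restrictNormal (Spl Q), φ.toRingHom, hc, fun z => ?_⟩
  have hroot : aeval (φ z.val) Q = 0 := by
    have h1 : aeval z.val Q = 0 := aeval_eq_zero_of_mem_rootSet z.mem
    have h2 := ur_aeval_hom φ.toRingHom Q z.val
    rw [h1, map_zero] at h2
    exact h2
  have h4 := hQ.weil (φ z.val) hroot
  have hinj : Function.Injective φ := φ.toRingHom.injective
  apply hinj
  rw [hc, map_inv₀]
  symm
  refine inv_eq_of_mul_eq_one_right ?_
  rw [Complex.mul_conj, Complex.normSq_eq_norm_sq, h4]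
  simp

/-- an element of the splitting field which is a unit at all places is a root of unity -/
private theorem ur_pow_eq_one (hQ : IsKThreePoly Q p f) (M : Finset (Rt Q))
    (hφ : ∀ g : Gr Q, ‖emb Q p (g (∏ y ∈ M, y.val))‖ = 1) :
    ∃ n : ℕ, 0 < n ∧ (∏ y ∈ M, y.val) ^ n = 1 := by
  obtain ⟨N, hN⟩ := hQ.integral
  have hr : ∀ v : Rt Q, eval₂ (algebraMap ℚ (Spl Q)) v.val Q = 0 := fun v =>
    (mem_rootSet.1 v.mem).2
  have hint : ∀ v : Rt Q, IsIntegral ℤ ((p : Spl Q) ^ N * v.val) := fun v =>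
    ur_integral_root hQ.monic hN (hr v)
  have hqu : IsIntegral ℤ (((p ^ (N * M.card) : ℕ) : Spl Q) * ∏ y ∈ M, y.val) := by
    have h1 : ((p ^ (N * M.card) : ℕ) : Spl Q) * ∏ y ∈ M, y.val =
        ∏ y ∈ M, ((p : Spl Q) ^ N * y.val) := by
      rw [Finset.prod_mul_distrib, Finset.prod_const, Nat.cast_pow, pow_mul]
    rw [h1]
    exact IsIntegral.prod _ fun y _ => hint y
  have : NumberField (Spl Q) := { }
  have := ur_normal Q
  have : IsGalois ℚ (Spl Q) := isGalois_iff.2 ⟨inferInstance, inferInstance⟩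
  have huint : IsIntegral ℤ (∏ y ∈ M, y.val) :=
    ur_integral_of_norm (emb Q p) hqu fun g => (hφ g).le
  obtain ⟨n, hn, hun⟩ := NumberField.Embeddings.pow_eq_one_of_norm_eq_one (Spl Q) ℂ huint (by
    intro σ
    rw [map_prod, norm_prod]
    refine Finset.prod_eq_one fun y _ => hQ.weil _ ?_
    rw [ur_aeval_hom σ, aeval_eq_zero_of_mem_rootSet y.mem, map_zero])
  exact ⟨n, hn, hun⟩

private theorem ur_aeval_smul (P : ℚ[X]) (g : Gr Q) (y : Rt Q) :
    aeval (g • y).val P = g (aeval y.val P) := by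
  rw [Rt.val_smul]
  exact ur_aeval_hom (g : Spl Q →+* Spl Q) P y.val

theorem exists_unit (hQ : IsKThreePoly Q p f) {S : Data (Gr Q) (Rt Q)} (hS : IsData Q p S)
    (D : ℚ) (δ : AdjoinRoot Q) (hD : D < 0) (hδ : δ ^ 2 = algebraMap ℚ (AdjoinRoot Q) D)
    (hy : ∀ y : ℚ_[p], y ^ 2 ≠ (D : ℚ_[p])) :
    ∃ (M : Finset (Rt Q)) (n : ℕ), 0 < n ∧ (∀ y, y ∈ M ↔ S.inv y ∉ M) ∧
      (∏ y ∈ M, y.val) ^ n = 1 := by
  classical
  obtain ⟨P, rfl⟩ := AdjoinRoot.mk_surjective δ
  have hdvd : Q ∣ P ^ 2 - C D := by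
    rw [← AdjoinRoot.mk_eq_zero, map_sub, map_pow, hδ, AdjoinRoot.mk_C, sub_eq_zero]
    rfl
  have hsq : ∀ y : Rt Q, aeval y.val P ^ 2 = algebraMap ℚ (Spl Q) D := by
    intro y
    obtain ⟨R, hR⟩ := hdvd
    have h1 := congrArg (aeval y.val) hR
    rw [_root_.map_mul, aeval_eq_zero_of_mem_rootSet y.mem, zero_mul, map_sub, map_pow, aeval_C,
      sub_eq_zero] at h1
    exact h1
  have hD0 : algebraMap ℚ (Spl Q) D ≠ 0 := by
    rw [Ne, map_eq_zero_iff _ (algebraMap ℚ (Spl Q)).injective]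
    exact hD.ne
  have hne : Nonempty (Rt Q) := by
    rw [← Fintype.card_pos_iff, card_Rt hQ]
    exact hQ.irreducible.natDegree_pos
  obtain ⟨y₀⟩ := hne
  obtain ⟨δ₀, hδ₀⟩ : ∃ δ₀, δ₀ = aeval y₀.val P := ⟨_, rfl⟩
  have hδsq : δ₀ ^ 2 = algebraMap ℚ (Spl Q) D := by rw [hδ₀, hsq]
  have hδ0 : δ₀ ≠ 0 := by
    rintro h
    rw [h, zero_pow two_ne_zero] at hδsq
    exact hD0 hδsq.symm
  have hδneg : -δ₀ ≠ δ₀ := by
    intro h
    apply hδ0
    have h1 : (2 : Spl Q) * δ₀ = 0 := by linear_combination -h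
    exact (mul_eq_zero.1 h1).resolve_left two_ne_zero
  have hpm : ∀ y : Rt Q, aeval y.val P = δ₀ ∨ aeval y.val P = -δ₀ := by
    intro y
    refine sq_eq_sq_iff_eq_or_eq_neg.1 ?_
    rw [hsq, hδsq]
  have hgpm : ∀ g : Gr Q, g δ₀ = δ₀ ∨ g δ₀ = -δ₀ := by
    intro g
    refine sq_eq_sq_iff_eq_or_eq_neg.1 ?_
    rw [← map_pow, hδsq, AlgEquiv.commutes]
  obtain ⟨g₀, σ, hσ, hg₀⟩ := ur_exists_conj hQ
  have hg₀δ : g₀ δ₀ = -δ₀ := by
    refine (hgpm g₀).resolve_left fun h => ?_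
    have h1 := hσ δ₀
    rw [h] at h1
    have h2 : σ δ₀ ^ 2 = (D : ℂ) := by
      rw [← map_pow, hδsq]
      simp
    obtain ⟨t, ht⟩ := Complex.conj_eq_iff_real.1 h1.symm
    rw [ht] at h2
    have h3 : t ^ 2 = (D : ℝ) := by exact_mod_cast h2
    have h4 : (D : ℝ) < 0 := by exact_mod_cast hD
    nlinarith [sq_nonneg t]
  have hinv : ∀ y : Rt Q, aeval (S.inv y).val P = g₀ (aeval y.val P) := by
    intro y
    have h1 : g₀ • y = S.inv y := by
      apply Rt.ext
      rw [Rt.val_smul, hg₀, hS.inv]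
    rw [← h1, ur_aeval_smul]
  set M : Finset (Rt Q) := Finset.univ.filter fun y => aeval y.val P = δ₀ with hM
  have hmem : ∀ y, y ∈ M ↔ aeval y.val P = δ₀ := fun y => by
    rw [hM, Finset.mem_filter]
    exact ⟨fun h => h.2, fun h => ⟨Finset.mem_univ _, h⟩⟩
  have hMinv : ∀ y, y ∈ M ↔ S.inv y ∉ M := by
    intro y
    rw [hmem, hmem, hinv]
    rcases hpm y with h | h
    · rw [h, hg₀δ]
      exact ⟨fun _ => hδneg, fun _ => rfl⟩
    · rw [h, map_neg, hg₀δ, neg_neg]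
      exact ⟨fun h1 => absurd h1 hδneg, fun h1 => absurd rfl h1⟩
  have hβ0 : (∏ y ∈ M, y.val) ≠ 0 := by
    rw [Finset.prod_ne_zero_iff]
    intro y _ h
    have h1 := hQ.weil (σ y.val) (by
      rw [ur_aeval_hom σ, aeval_eq_zero_of_mem_rootSet y.mem, map_zero])
    rw [h, map_zero, norm_zero] at h1
    exact zero_ne_one h1
  -- the action on the product
  have hfix : ∀ g : Gr Q, g δ₀ = δ₀ → g (∏ y ∈ M, y.val) = ∏ y ∈ M, y.val := by
    intro g hg
    have hg' : g⁻¹ δ₀ = δ₀ := by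
      rw [AlgEquiv.aut_inv, AlgEquiv.symm_apply_eq, hg]
    rw [map_prod]
    refine Finset.prod_nbij' (fun y => g • y) (fun y => g⁻¹ • y) ?_ ?_ ?_ ?_ ?_
    · intro y hy
      rw [hmem] at hy ⊢
      rw [ur_aeval_smul, hy, hg]
    · intro y hy
      rw [hmem] at hy ⊢
      rw [ur_aeval_smul, hy, hg']
    · intro y _
      exact inv_smul_smul g y
    · intro y _
      exact smul_inv_smul g y
    · intro y _
      exact (Rt.val_smul g y).symm
  have hflip : ∀ g : Gr Q, g δ₀ = -δ₀ → g (∏ y ∈ M, y.val) = (∏ y ∈ M, y.val)⁻¹ := by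
    intro g hg
    have hg' : g⁻¹ δ₀ = -δ₀ := by
      rw [AlgEquiv.aut_inv, AlgEquiv.symm_apply_eq, map_neg, hg, neg_neg]
    have h1 : ∀ (h : Gr Q), h δ₀ = -δ₀ → ∀ y ∈ M, S.inv (h • y) ∈ M := by
      intro h hh y hy
      by_contra h2
      have h3 := (hMinv (h • y)).2 h2
      rw [hmem] at hy h3
      rw [ur_aeval_smul, hy, hh] at h3
      exact hδneg h3
    rw [map_prod, ← Finset.prod_inv_distrib]
    refine Finset.prod_nbij' (fun y => S.inv (g • y)) (fun y => S.inv (g⁻¹ • y)) ?_ ?_ ?_ ?_ ?_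
    · exact fun y hy => h1 g hg y hy
    · exact fun y hy => h1 g⁻¹ hg' y hy
    · intro y _
      rw [S.smul_inv, S.inv_inv, inv_smul_smul]
    · intro y _
      rw [S.smul_inv, S.inv_inv, smul_inv_smul]
    · intro y _
      rw [hS.inv, inv_inv, Rt.val_smul]
  -- an automorphism over `ℚ_p` which changes the sign of `δ₀`
  have hnorm : ‖emb Q p (∏ y ∈ M, y.val)‖ = 1 := by
    have hirr : Irreducible (X ^ 2 - C (D : ℚ_[p]) : ℚ_[p][X]) :=
      X_pow_sub_C_irreducible_of_prime Nat.prime_two hy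
    have hmon : (X ^ 2 - C (D : ℚ_[p]) : ℚ_[p][X]).Monic := monic_X_pow_sub_C _ two_ne_zero
    have husq : emb Q p δ₀ ^ 2 = algebraMap ℚ_[p] (PadicAlgCl p) (D : ℚ_[p]) := by
      rw [← map_pow, hδsq]
      have : (emb Q p).comp (algebraMap ℚ (Spl Q)) =
          (algebraMap ℚ_[p] (PadicAlgCl p)).comp (Rat.castHom ℚ_[p]) := Subsingleton.elim _ _
      exact RingHom.congr_fun this D
    have h1 : aeval (emb Q p δ₀) (X ^ 2 - C (D : ℚ_[p]) : ℚ_[p][X]) = 0 := by
      rw [map_sub, map_pow, aeval_X, aeval_C, husq, sub_self]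
    have h2 : aeval (-emb Q p δ₀) (X ^ 2 - C (D : ℚ_[p]) : ℚ_[p][X]) = 0 := by
      rw [map_sub, map_pow, aeval_X, aeval_C, neg_sq, husq, sub_self]
    have h3 : IsConjRoot ℚ_[p] (-emb Q p δ₀) (emb Q p δ₀) := by
      rw [IsConjRoot, ← minpoly.eq_of_irreducible_of_monic hirr h1 hmon,
        ← minpoly.eq_of_irreducible_of_monic hirr h2 hmon]
    obtain ⟨τ, hτ⟩ := isConjRoot_iff_exists_algEquiv.1 h3
    obtain ⟨g, hg⟩ := ur_exists_restrict (Q := Q) τ
    have hgδ : g δ₀ = -δ₀ := by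
      apply (emb Q p).injective
      rw [hg, hτ, map_neg]
    have h4 := ur_norm_algEquiv τ (emb Q p (∏ y ∈ M, y.val))
    rw [← hg, hflip g hgδ, map_inv₀, norm_inv] at h4
    have h5 : ‖emb Q p (∏ y ∈ M, y.val)‖ ≠ 0 := by
      rw [norm_ne_zero_iff]
      intro h6
      exact hβ0 ((emb Q p).injective (by rw [h6, map_zero]))
    have h6 : ‖emb Q p (∏ y ∈ M, y.val)‖ * ‖emb Q p (∏ y ∈ M, y.val)‖ = 1 := by
      conv_lhs => rw [← h4]
      rw [h4]
      conv_lhs => arg 1; rw [← h4]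
      exact inv_mul_cancel₀ h5
    have h7 := norm_nonneg (emb Q p (∏ y ∈ M, y.val))
    nlinarith
  obtain ⟨n, hn, hprod⟩ := ur_pow_eq_one hQ M (by
    intro g
    rcases hgpm g with h | h
    · rw [hfix g h, hnorm]
    · rw [hflip g h, map_inv₀, norm_inv, hnorm, inv_one])
  exact ⟨M, n, hn, hMinv, hprod⟩

end Pool.Agent.KThree
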