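import Pool.Agent.KThree.Balanced
import Pool.Agent.KThree.Quad
import Pool.Agent.KThree.ThreeT
import Pool.Agent.KThree.UnitRel
import Pool.Agent.KThree.Conv
import Pool.Agent.KThree.Multi

/-!
# No relations, and balanced multisets, in all cases
-/

set_option autoImplicit false

namespace Pool.Agent.KThree

open Polynomial

variable {Q : ℚ[X]} {p f d : ℕ} [Fact p.Prime] {K : Type} [Field K] [IsAlgClosed K] [CharZero K]

private theorem bl_aeval_hom {E L : Type*} [Field E] [Field L] [Algebra ℚ E] [Algebra ℚ L]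
    (ψ : E →+* L) (Q : ℚ[X]) (x : E) : aeval (ψ x) Q = ψ (aeval x Q) := by
  rw [aeval_def, aeval_def, hom_eval₂]
  congr 1
  exact Subsingleton.elim _ _

private theorem bl_splits (Q : ℚ[X]) : (Q.map (algebraMap ℚ (Spl Q))).Splits := by
  have h := SplittingField.splits Q
  have e : algebraMap ℚ (Spl Q) = algebraMap ℚ (SplittingField Q) := Subsingleton.elim _ _
  rw [e]
  exact h

/-- an embedding of the splitting field in `K` -/
private noncomputable def psi (Q : ℚ[X]) (K : Type) [Field K] [IsAlgClosed K] [CharZero K] :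
    Spl Q →+* K :=
  (IsAlgClosed.lift : Spl Q →ₐ[ℚ] K).toRingHom

private theorem exists_rt (hQ : IsKThreePoly Q p f) {μ : K} (hμ : aeval μ Q = 0) :
    ∃ z : Rt Q, psi Q K z.val = μ := by
  have h : μ ∈ Q.rootSet K := by
    rw [mem_rootSet]
    exact ⟨hQ.monic.ne_zero, hμ⟩
  rw [← (bl_splits Q).image_rootSet (psi Q K).toRatAlgHom] at h
  obtain ⟨z, hz, rfl⟩ := h
  exact ⟨Rt.mk z hz, rfl⟩

private theorem aeval_psi (z : Rt Q) : aeval (psi Q K z.val) Q = 0 := by
  rw [bl_aeval_hom (psi Q K) Q z.val, aeval_eq_zero_of_mem_rootSet z.mem, map_zero]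

private theorem psi_inv {S : Data (Gr Q) (Rt Q)} (hS : IsData Q p S) (z : Rt Q) :
    psi Q K (S.inv z).val = (psi Q K z.val)⁻¹ := by
  rw [hS.inv, map_inv₀]

private theorem psi_inj : Function.Injective fun z : Rt Q => psi Q K z.val := fun z w h =>
  Rt.ext ((psi Q K).injective h)

private theorem exists_lift {α β : Type} (g : α → β) (N : Multiset β)
    (h : ∀ b ∈ N, ∃ a, g a = b) : ∃ N' : Multiset α, N'.map g = N := by
  induction N using Multiset.induction_on with
  | empty => exact ⟨0, rfl⟩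
  | cons b N ih =>
    obtain ⟨a, ha⟩ := h b (Multiset.mem_cons_self b N)
    obtain ⟨N', hN'⟩ := ih fun c hc => h c (Multiset.mem_cons_of_mem hc)
    exact ⟨a ::ₘ N', by rw [Multiset.map_cons, ha, hN']⟩

/-- the multisets of eigenvalues with a root of unity as product are balanced if there are no
relations -/
theorem balanced_of [DecidableEq K] (hQ : IsKThreePoly Q p f) (hneat : Neat Q)
    (hno : ∀ S : Data (Gr Q) (Rt Q), IsData Q p S → S.B.card = f →
      ∀ m : Rt Q → ℤ, S.IsRel m → m = 0)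
    (M : Multiset K) (hM : ∀ μ ∈ M, μ = 1 ∨ aeval μ Q = 0) {m : ℕ} (hm : 0 < m)
    (hprod : M.prod ^ m = 1) (μ : K) (hμ : μ ≠ 1) : M.count μ = M.count μ⁻¹ := by
  classical
  obtain ⟨S, hS, hcard⟩ := exists_data hQ hneat
  obtain ⟨M₂, hM₂⟩ := exists_lift (fun z : Rt Q => psi Q K z.val) (M.filter fun c => ¬ c = 1) <| by
    intro c hc
    rw [Multiset.mem_filter] at hc
    exact exists_rt hQ ((hM c hc.1).resolve_left hc.2)
  have hp1 : (M.filter fun c => ¬ c = 1).prod = M.prod := by
    conv_rhs => rw [← Multiset.filter_add_not (fun c => c = 1) M]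
    rw [Multiset.prod_add, Multiset.prod_eq_one (s := M.filter fun c => c = 1), one_mul]
    intro c hc
    exact (Multiset.mem_filter.1 hc).2
  have hp2 : (M₂.map Rt.val).prod ^ m = 1 := by
    refine (psi Q K).injective ?_
    rw [map_pow, map_multiset_prod, Multiset.map_map, map_one]
    have : M₂.map (⇑(psi Q K) ∘ Rt.val) = M.filter fun c => ¬ c = 1 := hM₂
    rw [this, hp1, hprod]
  have hrel := rel_of_prod hQ hS M₂ hm hp2
  have hzero := hno S hS hcard _ hrel
  have hcnt : ∀ z : Rt Q, M₂.count z = M₂.count (S.inv z) := by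
    intro z
    have h := congrFun hzero z
    simp only [Pi.zero_apply] at h
    omega
  have hc : ∀ z : Rt Q, psi Q K z.val ≠ 1 → M.count (psi Q K z.val) = M₂.count z := by
    intro z hz
    rw [← Multiset.count_filter_of_pos (p := fun c => ¬ c = 1) hz, ← hM₂]
    exact Multiset.count_map_eq_count' _ _ (psi_inj (K := K)) z
  by_cases hroot : aeval μ Q = 0
  · obtain ⟨z, rfl⟩ := exists_rt hQ hroot
    have h1 : (psi Q K z.val)⁻¹ ≠ 1 := by
      rw [Ne, inv_eq_one]
      exact hμ
    rw [← psi_inv hS] at h1 ⊢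
    rw [hc z hμ, hc _ h1, hcnt]
  · have h1 : μ ∉ M := fun h => ((hM μ h).resolve_left hμ |> hroot)
    have h2 : μ⁻¹ ∉ M := by
      intro h
      rcases hM _ h with h3 | h3
      · rw [inv_eq_one] at h3
        exact hμ h3
      · obtain ⟨z, hz⟩ := exists_rt hQ h3
        apply hroot
        rw [← inv_inv μ, ← hz, ← psi_inv hS]
        exact aeval_psi _
    rw [Multiset.count_eq_zero_of_notMem h1, Multiset.count_eq_zero_of_notMem h2]

/-- `p` splits in every imaginary quadratic subfield of the field `ℚ[X]/(Q)`. -/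
def AllSplit (Q : ℚ[X]) (p : ℕ) [Fact p.Prime] : Prop :=
  ∀ (D : ℚ) (δ : AdjoinRoot Q), D < 0 → δ ^ 2 = algebraMap ℚ (AdjoinRoot Q) D →
    ∃ y : ℚ_[p], y ^ 2 = (D : ℚ_[p])

/-- If `f` is odd, then `p` splits in every imaginary quadratic subfield. -/
theorem allSplit_of_odd (hQ : IsKThreePoly Q p f) (hf : Odd f) : AllSplit Q p := by
  intro D δ hD hδ
  by_contra h
  push Not at h
  obtain ⟨A, R, hAR, hA, hAi, hAf, -⟩ := hQ.slopes
  have : Fact (Irreducible A) := ⟨hAi⟩
  have hroot : Q.eval₂ ((AdjoinRoot.of A).comp (algebraMap ℚ ℚ_[p])) (AdjoinRoot.root A) = 0 := by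
    rw [← eval₂_map, hAR, eval₂_mul, AdjoinRoot.eval₂_root, zero_mul]
  let j : AdjoinRoot Q →+* AdjoinRoot A :=
    AdjoinRoot.lift ((AdjoinRoot.of A).comp (algebraMap ℚ ℚ_[p])) (AdjoinRoot.root A) hroot
  have h1 : (j δ) ^ 2 = algebraMap ℚ_[p] (AdjoinRoot A) (D : ℚ_[p]) := by
    rw [← map_pow, hδ]
    exact AdjoinRoot.lift_of hroot
  have hirr : Irreducible (X ^ 2 - C (D : ℚ_[p]) : ℚ_[p][X]) :=
    X_pow_sub_C_irreducible_of_prime Nat.prime_two h
  have hmin : X ^ 2 - C (D : ℚ_[p]) = minpoly ℚ_[p] (j δ) := by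
    refine minpoly.eq_of_irreducible_of_monic hirr ?_ (monic_X_pow_sub_C _ two_ne_zero)
    rw [map_sub, map_pow, aeval_X, aeval_C, h1, sub_self]
  have : Module.Finite ℚ_[p] (AdjoinRoot A) := (AdjoinRoot.powerBasis hA.ne_zero).finite
  have hdvd : (minpoly ℚ_[p] (j δ)).natDegree ∣ Module.finrank ℚ_[p] (AdjoinRoot A) :=
    minpoly.degree_dvd (Algebra.IsIntegral.isIntegral (j δ))
  rw [← hmin, natDegree_X_pow_sub_C, (AdjoinRoot.powerBasis hA.ne_zero).finrank,
    AdjoinRoot.powerBasis_dim, hAf] at hdvd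
  rcases hf with ⟨c, hc⟩
  omega

omit [Fact p.Prime] in
private theorem cast_ne_zero' {Y : Type} {m : Y → ℤ} (h : m ≠ 0) :
    (fun y => (m y : ℚ)) ≠ 0 := by
  intro h1
  apply h
  funext y
  have h2 : (m y : ℚ) = 0 := congrFun h1 y
  exact Int.cast_eq_zero.1 h2

theorem no_rel (hQ : IsKThreePoly Q p f) (hdeg : Q.natDegree = 2 * d)
    (hA : (Odd f ∧ d ≤ 11 ∧ (f, d) ∉ ({(3, 6), (3, 9), (3, 10), (5, 10)} : Set (ℕ × ℕ))) ∨
      d.Prime ∨ TraceThree Q) (hs : AllSplit Q p)
    (S : Data (Gr Q) (Rt Q)) (hS : IsData Q p S) (hcard : S.B.card = f) (m : Rt Q → ℤ)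
    (hm : S.IsRel m) : m = 0 := by
  have hY : Fintype.card (Rt Q) = 2 * d := by rw [card_Rt hQ, hdeg]
  rcases hA with ⟨hf, hd, hex⟩ | hA
  · exact Data.core hY hd (by rw [hcard]; exact hf) (by rw [hcard]; exact hex) hm
  have hB : S.B.Nonempty := by
    rw [← Finset.card_pos, hcard]
    obtain ⟨A, R, -, -, hAi, hAf, -⟩ := hQ.slopes
    rw [← hAf]
    exact hAi.natDegree_pos
  have heps : (∃ ε : Rt Q → ℤ, S.IsEps ε) → False := by
    rintro ⟨ε, hε⟩
    obtain ⟨D, δ, hD, hδ, hy⟩ := exists_quad hQ hS hB hε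
    obtain ⟨y, hy'⟩ := hs D δ hD hδ
    exact hy y hy'
  have hrat := hm.cast ℚ
  by_contra h0
  have h0' := cast_ne_zero' h0
  by_cases hd2 : d = 2
  · subst hd2
    exact h0' (Data.eq_zero_of_two hY hB hrat)
  rcases hA with hp | h3
  · have : Fact d.Prime := ⟨hp⟩
    exact heps (Data.eps_of_prime d hd2 hY hrat h0')
  · have hfd : S.B.card ≤ d := by
      have h1 : S.B.card + (S.B.image S.inv).card ≤ Fintype.card (Rt Q) := by
        rw [← Finset.card_union_of_disjoint]
        · exact Finset.card_le_univ _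
        · rw [Finset.disjoint_left]
          intro y hy hy'
          obtain ⟨z, hz, rfl⟩ := Finset.mem_image.1 hy'
          exact S.disj z hz hy
      rw [Finset.card_image_of_injective _ S.inv_injective, hY] at h1
      omega
    have hpos := Finset.card_pos.2 hB
    by_cases hd1 : d = 1
    · exact h0' (Data.eq_zero_of_one (by omega) hrat)
    · exact heps (Data.eps_of_three (by rw [hY]; omega)
        (fun x y hx hy => three_of_trace hQ hS h3 x y hx hy) hrat h0')

/-- If `p` does not split in some imaginary quadratic subfield, there are invariant multilinear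
forms which are no combinations of pair products. -/
theorem exists_exotic (hQ : IsKThreePoly Q p f) (hneat : Neat Q) (hns : ¬ AllSplit Q p)
    {V : Type} [AddCommGroup V] [Module K V] [FiniteDimensional K V] (F : Module.End K V)
    (hF : ⨆ μ : K, F.eigenspace μ = ⊤) (hev : ∀ μ : K, aeval μ Q = 0 → F.HasEigenvalue μ) :
    ∃ (m n : ℕ) (T : MultilinearMap K (fun _ : Fin n => V) K), 0 < m ∧
      (∀ v : Fin n → V, T (fun i => (F ^ m) (v i)) = T v) ∧
      T ∉ Submodule.span K {T' : MultilinearMap K (fun _ : Fin n => V) K |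
        IsPairProduct F T'} := by
  classical
  obtain ⟨S, hS, hcard⟩ := exists_data hQ hneat
  rw [AllSplit] at hns
  push Not at hns
  obtain ⟨D, δ, hD, hδ, hy⟩ := hns
  obtain ⟨M, n, hn, hM, hprod⟩ := exists_unit hQ hS D δ hD hδ hy
  have hne : Nonempty (Rt Q) := by
    rw [← Fintype.card_pos_iff, card_Rt hQ]
    exact hQ.irreducible.natDegree_pos
  have hk : 0 < M.card := by
    rw [Finset.card_pos]
    obtain ⟨y⟩ := hne
    by_cases h : y ∈ M
    · exact ⟨y, h⟩
    · refine ⟨S.inv y, ?_⟩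
      by_contra h1
      exact h ((hM y).2 h1)
  let en : Fin M.card ≃ M := M.equivFin.symm
  have hr : ∀ z : Rt Q, aeval (psi Q K z.val) Q = 0 := fun z => aeval_psi z
  obtain ⟨T, hT, hT'⟩ := exists_notMem_span F hF hk (fun i => psi Q K (en i).1.val)
    (fun i => hev _ (hr _)) (fun i => (ne_inv hQ hneat (hr _)).1)
    (fun i j _ h => by
      have h1 : psi Q K (en j).1.val = psi Q K (S.inv (en i).1).val := by
        rw [psi_inv hS]
        exact (inv_eq_of_mul_eq_one_right h).symm
      have h2 : (en j).1 = S.inv (en i).1 := psi_inj (K := K) h1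
      exact (hM _).1 (en i).2 (h2 ▸ (en j).2)) n (by
      have h1 : ∏ i, psi Q K (en i).1.val = psi Q K (∏ y ∈ M, y.val) := by
        rw [map_prod, ← Finset.prod_coe_sort M]
        exact Fintype.prod_equiv en _ _ fun i => rfl
      rw [h1, ← map_pow, hprod, map_one])
  exact ⟨n, M.card, T, hn, hT, hT'⟩

end Pool.Agent.KThree
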