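import Mathlib

/-!
# Weil numbers of K3 type: the group theory, basic definitions

`Y` is the set of the roots, `G` the Galois group, `B` the set of the roots with negative valuation
for one extension of the `p`-adic valuation; the decomposition group is transitive on `B`.
-/

set_option autoImplicit false
set_option linter.unusedSectionVars false

namespace Pool.Agent.KThree

/-- The data of a Weil number of K3 type. -/
structure Data (G Y : Type) [Group G] [MulAction G Y] where
  /-- the involution `y ↦ 1 / y` -/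
  inv : Y → Y
  inv_inv : ∀ y, inv (inv y) = y
  inv_ne : ∀ y, inv y ≠ y
  smul_inv : ∀ (g : G) (y : Y), g • inv y = inv (g • y)
  /-- the roots with negative valuation -/
  B : Finset Y
  disj : ∀ y ∈ B, inv y ∉ B
  trans : ∀ x y : Y, ∃ g : G, g • x = y
  decomp : ∀ x ∈ B, ∀ y ∈ B, ∃ g : G, g • x = y ∧ ∀ z, g • z ∈ B ↔ z ∈ B
  sep : ∀ x y : Y, (∀ g : G, (g • x ∈ B ↔ g • y ∈ B) ∧ (inv (g • x) ∈ B ↔ inv (g • y) ∈ B)) →
    x = y

namespace Data

variable {G Y : Type} [Group G] [MulAction G Y] [Fintype Y] [DecidableEq Y] (S : Data G Y)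

/-- An odd function with the sum zero on all translates of `B`: the additive form of a
multiplicative relation between the roots. -/
def IsRel {R : Type} [CommRing R] (m : Y → R) : Prop :=
  (∀ y, m (S.inv y) = - m y) ∧ ∀ g : G, ∑ b ∈ S.B, m (g • b) = 0

/-- `1` on `B`, `-1` on the inverses of the elements of `B`, otherwise `0`. -/
def r (y : Y) : ℤ := if y ∈ S.B then 1 else if S.inv y ∈ S.B then -1 else 0

variable {S}

theorem r_of_mem {y : Y} (h : y ∈ S.B) : S.r y = 1 := by
  rw [r, if_pos h]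

theorem r_of_inv_mem {y : Y} (h : S.inv y ∈ S.B) : S.r y = -1 := by
  rw [r, if_neg, if_pos h]
  intro h1
  exact S.disj y h1 h

theorem r_inv (y : Y) : S.r (S.inv y) = - S.r y := by
  by_cases h : y ∈ S.B
  · rw [r_of_mem h, r_of_inv_mem (by rwa [S.inv_inv])]
  · by_cases h' : S.inv y ∈ S.B
    · rw [r_of_inv_mem h', r_of_mem h', neg_neg]
    · rw [r, r, if_neg h', if_neg h, if_neg h', S.inv_inv, if_neg h, neg_zero]

theorem r_eq_one_iff {y : Y} : S.r y = 1 ↔ y ∈ S.B := by
  refine ⟨fun h => ?_, r_of_mem⟩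
  by_contra h1
  rw [r, if_neg h1] at h
  split_ifs at h
  all_goals omega

theorem r_eq_neg_one_iff {y : Y} : S.r y = -1 ↔ S.inv y ∈ S.B := by
  rw [← r_eq_one_iff, r_inv]
  omega

theorem eq_of_r {x y : Y} (h : ∀ g : G, S.r (g • x) = S.r (g • y)) : x = y := by
  refine S.sep x y fun g => ⟨?_, ?_⟩
  · rw [← r_eq_one_iff, ← r_eq_one_iff, h]
  · rw [← r_eq_neg_one_iff, ← r_eq_neg_one_iff, h]

variable (S) in
theorem inv_injective : Function.Injective S.inv := fun x y h => by
  rw [← S.inv_inv x, h, S.inv_inv]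

variable (S) in
/-- the involution as a permutation -/
def invEquiv : Y ≃ Y := ⟨S.inv, S.inv, S.inv_inv, S.inv_inv⟩

section Rel

variable {R : Type} [CommRing R] {m m' : Y → R}

theorem IsRel.smul (h : S.IsRel m) (g : G) : S.IsRel fun y => m (g • y) := by
  refine ⟨fun y => ?_, fun g' => ?_⟩
  · change m (g • S.inv y) = - m (g • y)
    rw [S.smul_inv, h.1]
  · change ∑ b ∈ S.B, m (g • g' • b) = 0
    simp_rw [← mul_smul]
    exact h.2 _

theorem IsRel.add (h : S.IsRel m) (h' : S.IsRel m') : S.IsRel (m + m') := by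
  refine ⟨fun y => ?_, fun g => ?_⟩
  · rw [Pi.add_apply, Pi.add_apply, h.1, h'.1, neg_add]
  · simp only [Pi.add_apply]
    rw [Finset.sum_add_distrib, h.2, h'.2, add_zero]

theorem IsRel.sub (h : S.IsRel m) (h' : S.IsRel m') : S.IsRel (m - m') := by
  refine ⟨fun y => ?_, fun g => ?_⟩
  · rw [Pi.sub_apply, Pi.sub_apply, h.1, h'.1]
    ring
  · simp only [Pi.sub_apply]
    rw [Finset.sum_sub_distrib, h.2, h'.2, sub_zero]

theorem IsRel.const_smul (h : S.IsRel m) (c : R) : S.IsRel (c • m) := by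
  refine ⟨fun y => ?_, fun g => ?_⟩
  · rw [Pi.smul_apply, Pi.smul_apply, h.1, smul_neg]
  · simp only [Pi.smul_apply, smul_eq_mul]
    rw [← Finset.mul_sum, h.2, mul_zero]

theorem isRel_zero : S.IsRel (0 : Y → R) := by
  refine ⟨fun y => ?_, fun g => ?_⟩
  · simp
  · simp

variable (S R) in
/-- the submodule of the relations -/
def relSub : Submodule R (Y → R) where
  carrier := {m | S.IsRel m}
  add_mem' := IsRel.add
  zero_mem' := isRel_zero
  smul_mem' c _ h := IsRel.const_smul h c

theorem mem_relSub : m ∈ S.relSub R ↔ S.IsRel m := Iff.rfl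

/-- a relation which vanishes at one point with all its translates is zero -/
theorem eq_zero_of_forall {x : Y} (h : ∀ m : Y → R, S.IsRel m → m x = 0) (hm : S.IsRel m) :
    m = 0 := by
  funext y
  obtain ⟨g, hg⟩ := S.trans x y
  have := h _ (hm.smul g)
  rwa [hg] at this

end Rel

theorem IsRel.cast {m : Y → ℤ} (h : S.IsRel m) (R : Type) [CommRing R] :
    S.IsRel fun y => (m y : R) := by
  refine ⟨fun y => ?_, fun g => ?_⟩
  · change ((m (S.inv y) : ℤ) : R) = - ((m y : ℤ) : R)
    rw [h.1, Int.cast_neg]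
  · change ∑ b ∈ S.B, ((m (g • b) : ℤ) : R) = 0
    rw [← Int.cast_sum, h.2, Int.cast_zero]

variable (S) in
/-- the odd function supported on `x` and its inverse -/
def e (x : Y) (y : Y) : ℚ := (if y = x then 1 else 0) - (if y = S.inv x then 1 else 0)

theorem e_inv (x y : Y) : S.e x (S.inv y) = - S.e x y := by
  have h1 : (S.inv y = x) ↔ (y = S.inv x) :=
    ⟨fun h => by rw [← h, S.inv_inv], fun h => by rw [h, S.inv_inv]⟩
  have h2 : (S.inv y = S.inv x) ↔ y = x := S.inv_injective.eq_iff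
  simp only [e, h1, h2]
  ring

theorem e_smul (g : G) (x y : Y) : S.e x (g⁻¹ • y) = S.e (g • x) y := by
  have h1 : (g⁻¹ • y = x) ↔ (y = g • x) := by
    rw [inv_smul_eq_iff]
  have h2 : (g⁻¹ • y = S.inv x) ↔ (y = S.inv (g • x)) := by
    rw [inv_smul_eq_iff, S.smul_inv]
  simp only [e, h1, h2]

theorem sum_e (x : Y) (g : G) : ∑ b ∈ S.B, S.e x (g⁻¹ • b) = S.r (g • x) := by
  have h : ∀ z : Y, ∑ b ∈ S.B, S.e z b = S.r z := by
    intro z
    simp only [e, Finset.sum_sub_distrib, Finset.sum_ite_eq']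
    by_cases h : z ∈ S.B
    · rw [r_of_mem h, if_pos h, if_neg (S.disj z h)]
      simp
    · by_cases h' : S.inv z ∈ S.B
      · rw [r_of_inv_mem h', if_neg h, if_pos h']
        simp
      · rw [if_neg h, if_neg h', r, if_neg h, if_neg h']
        simp
  rw [← h (g • x)]
  exact Finset.sum_congr rfl fun b _ => e_smul g x b

/-- `e x - e y` is not a relation for `x ≠ y` -/
theorem eq_of_isRel_e {x y : Y} (h : S.IsRel (S.e x - S.e y)) : x = y := by
  refine eq_of_r (S := S) fun g => ?_
  have h1 := h.2 g⁻¹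
  simp only [Pi.sub_apply] at h1
  rw [Finset.sum_sub_distrib, sum_e, sum_e, sub_eq_zero] at h1
  exact_mod_cast h1

variable (S) in
/-- the sum of an even function over `Y` -/
theorem sum_even {R : Type} [CommRing R] (H : Finset Y) (hH : ∀ y, y ∈ H ↔ S.inv y ∉ H)
    (u : Y → R) (hu : ∀ y, u (S.inv y) = u y) : ∑ y, u y = 2 * ∑ y ∈ H, u y := by
  have h1 : ∑ y, u y = ∑ y ∈ H, u y + ∑ y ∈ Hᶜ, u y := (Finset.sum_add_sum_compl H u).symm
  have h2 : ∑ y ∈ Hᶜ, u y = ∑ y ∈ H, u y := by
    refine Finset.sum_nbij' S.inv S.inv ?_ ?_ (fun y _ => S.inv_inv y) (fun y _ => S.inv_inv y)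
      fun y _ => (hu y).symm
    · intro y hy
      rw [Finset.mem_compl] at hy
      rw [hH, S.inv_inv]
      exact hy
    · intro y hy
      rw [Finset.mem_compl]
      exact (hH y).1 hy
  rw [h1, h2, two_mul]

end Data

end Pool.Agent.KThree
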