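import Pool.Agent.KThree.Prim

/-!
# The cases `f = 1`, `f` an odd prime with `d < 2 f`, and `d` an odd prime
-/

set_option autoImplicit false
set_option linter.unusedSectionVars false

namespace Pool.Agent.KThree

open MulAction

/-- a transitive action on a set of cardinality divisible by `l` has an element of `l`-power order
which moves a given point -/
theorem exists_moving {D Ω : Type} [Group D] [Finite D] [MulAction D Ω] [Finite Ω]
    [IsPretransitive D Ω] (l : ℕ) [Fact l.Prime] (hl : l ∣ Nat.card Ω) (x : Ω) :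
    ∃ (s : D) (k : ℕ), s ^ l ^ k = 1 ∧ s • x ≠ x := by
  by_contra hcon
  push Not at hcon
  let P : Sylow l D := default
  have h1 : (P : Subgroup D) ≤ stabilizer D x := by
    intro s hs
    obtain ⟨k, hk⟩ := P.2 ⟨s, hs⟩
    refine mem_stabilizer_iff.2 (hcon s k ?_)
    simpa using congrArg Subtype.val hk
  have h2 := Subgroup.index_dvd_of_le h1
  rw [MulAction.index_stabilizer_of_transitive] at h2
  exact P.not_dvd_index (hl.trans h2)

theorem sum_pm {Y : Type} (B : Finset Y) (m : Y → ℚ) (k : ℚ) (h : ∀ b ∈ B, m b = k ∨ m b = -k) :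
    ∃ n : ℤ, ∑ b ∈ B, m b = n * k ∧ (2 : ℤ) ∣ n - B.card := by
  classical
  induction B using Finset.induction_on with
  | empty => exact ⟨0, by simp, by simp⟩
  | insert b B hb ih =>
    obtain ⟨n, hn, hn2⟩ := ih fun c hc => h c (Finset.mem_insert_of_mem hc)
    rw [Finset.sum_insert hb, Finset.card_insert_of_notMem hb, hn]
    rcases h b (Finset.mem_insert_self b B) with h1 | h1
    · refine ⟨n + 1, ?_, ?_⟩
      · rw [h1]
        push_cast
        ring
      · push_cast
        omega
    · refine ⟨n - 1, ?_, ?_⟩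
      · rw [h1]
        push_cast
        ring
      · push_cast
        omega

namespace Data

variable {G Y : Type} [Group G] [MulAction G Y] [Fintype Y] [DecidableEq Y] {S : Data G Y}

variable (S) in
/-- the decomposition group (or a larger group) -/
def D : Subgroup G where
  carrier := {g | ∀ z, g • z ∈ S.B ↔ z ∈ S.B}
  mul_mem' {g h} hg hh z := by
    rw [mul_smul, hg, hh]
  one_mem' z := by rw [one_smul]
  inv_mem' {g} hg z := by
    rw [← hg, smul_inv_smul]

theorem mem_D {g : G} : g ∈ S.D ↔ ∀ z, g • z ∈ S.B ↔ z ∈ S.B := Iff.rfl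

instance : MulAction S.D S.B where
  smul g b := ⟨g.1 • b.1, (g.2 b.1).2 b.2⟩
  one_smul b := Subtype.ext (one_smul G b.1)
  mul_smul g h b := Subtype.ext (mul_smul g.1 h.1 b.1)

theorem coe_smul_B (g : S.D) (b : S.B) : ((g • b : S.B) : Y) = g.1 • b.1 := rfl

instance : IsPretransitive S.D S.B where
  exists_smul_eq b c := by
    obtain ⟨g, hg, hD⟩ := S.decomp b.1 b.2 c.1 c.2
    exact ⟨⟨g, hD⟩, Subtype.ext hg⟩

/-- `f = 1` -/
theorem eq_zero_of_one (h : S.B.card = 1) {m : Y → ℚ} (hm : S.IsRel m) : m = 0 := by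
  obtain ⟨b, hb⟩ := Finset.card_eq_one.1 h
  refine eq_zero_of_forall (S := S) (x := b) (fun m hm => ?_) hm
  have := hm.2 1
  rw [hb, Finset.sum_singleton, one_smul] at this
  exact this

/-- `f` an odd prime, `d < 2 f` -/
theorem eq_zero_of_prime [Finite G] (l : ℕ) [hlf : Fact l.Prime] (hl : l ≠ 2)
    (h : S.B.card = l) (hY : Fintype.card Y < 4 * l) {m : Y → ℚ} (hm : S.IsRel m) : m = 0 := by
  have hlp := hlf.out
  have hB : S.B.Nonempty := Finset.card_pos.1 (by rw [h]; exact hlp.pos)
  obtain ⟨b, hb⟩ := hB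
  obtain ⟨s, k, hs, hsb⟩ := exists_moving (D := S.D) (Ω := S.B) l (by simp [h]) ⟨b, hb⟩
  have hs' : (s : G) ^ l ^ k = 1 := by
    have := congrArg Subtype.val hs
    simpa using this
  have hsb' : (s : G) • b ≠ b := fun h1 => hsb (Subtype.ext h1)
  have hsub : orb (s : G) b ⊆ S.B := by
    intro y hy
    rw [mem_orb] at hy
    obtain ⟨⟨g, hg⟩, rfl⟩ := hy
    have h1 : g ∈ S.D := (Subgroup.zpowers_le.2 s.2) hg
    exact (h1 b).2 hb
  have horb : orb (s : G) b = S.B := by
    refine Finset.eq_of_subset_of_card_le hsub ?_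
    obtain ⟨n, hn0, hn⟩ := le_card_orb hs' hsb'
    rw [hn, h]
    exact Nat.le_self_pow hn0.ne' l
  have hinv : ∀ {m : Y → ℚ}, S.IsRel m → ∀ (i : ℕ), m ((s : G) ^ i • b) = m b := by
    intro m hm i
    induction i with
    | zero => rw [pow_zero, one_smul]
    | succ i ih => rw [pow_succ', mul_smul, smul_eq_of_card_lt hl hs' hY hm, ih]
  refine eq_zero_of_forall (S := S) (x := b) (fun m hm => ?_) hm
  have h1 : ∀ y ∈ S.B, m y = m b := by
    intro y hy
    rw [← horb, mem_orb] at hy
    obtain ⟨⟨g, hg⟩, rfl⟩ := hy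
    have hfin : IsOfFinOrder (s : G) := isOfFinOrder_of_finite _
    obtain ⟨i, rfl⟩ := (hfin.mem_powers_iff_mem_zpowers).2 hg
    exact hinv hm i
  have h2 := hm.2 1
  simp only [one_smul] at h2
  rw [Finset.sum_congr rfl h1, Finset.sum_const, h, nsmul_eq_mul] at h2
  rcases mul_eq_zero.1 h2 with h3 | h3
  · exact absurd (by exact_mod_cast h3) hlp.ne_zero
  · exact h3

/-- `d` an odd prime, `f` odd -/
theorem eq_zero_of_prime_dim [Finite G] (l : ℕ) [hlf : Fact l.Prime] (hl : l ≠ 2)
    (hY : Fintype.card Y = 2 * l) (hf : Odd S.B.card) {m : Y → ℚ} (hm : S.IsRel m) : m = 0 := by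
  have hlp := hlf.out
  have : IsPretransitive G Y := ⟨S.trans⟩
  have hne : Nonempty Y := Fintype.card_pos_iff.1 (by rw [hY]; have := hlp.pos; omega)
  obtain ⟨x⟩ := hne
  obtain ⟨s, k, hs, hsx⟩ := exists_moving (D := G) (Ω := Y) l
    (by rw [Nat.card_eq_fintype_card, hY]; exact Dvd.intro_left 2 rfl) x
  have hY' : Fintype.card Y < 4 * l := by
    have := hlp.pos
    omega
  have hd : Disjoint (orb s x) (orb s (S.inv x)) := orb_disj (inv_notMem_orb S hl hs x)
  have huniv : orb s x ∪ orb s (S.inv x) = Finset.univ := by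
    refine Finset.eq_univ_of_card _ ?_
    refine le_antisymm (Finset.card_le_univ _) ?_
    obtain ⟨n, hn0, hn⟩ := le_card_orb hs hsx
    rw [Finset.card_union_of_disjoint hd, card_orb_inv, hn, hY]
    have := Nat.le_self_pow hn0.ne' l
    omega
  have hinv : ∀ (m : Y → ℚ), S.IsRel m → ∀ y ∈ orb s x, m y = m x := by
    intro m hm y hy
    rw [mem_orb] at hy
    obtain ⟨⟨g, hg⟩, rfl⟩ := hy
    have hfin : IsOfFinOrder s := isOfFinOrder_of_finite _
    obtain ⟨i, rfl⟩ := (hfin.mem_powers_iff_mem_zpowers).2 hg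
    change m (s ^ i • x) = m x
    clear hg
    induction i with
    | zero => rw [pow_zero, one_smul]
    | succ i ih => rw [pow_succ', mul_smul, smul_eq_of_card_lt hl hs hY' hm, ih]
  have hpm : ∀ y, m y = m x ∨ m y = - m x := by
    intro y
    have hy : y ∈ orb s x ∪ orb s (S.inv x) := by rw [huniv]; exact Finset.mem_univ y
    rcases Finset.mem_union.1 hy with h | h
    · exact Or.inl (hinv m hm y h)
    · right
      rw [← hinv m hm _ (mem_orb_inv_iff.1 h), hm.1, neg_neg]
  obtain ⟨n, hn, hn2⟩ := sum_pm S.B m (m x) fun b _ => hpm b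
  have h1 := hm.2 1
  simp only [one_smul] at h1
  rw [hn] at h1
  have hx0 : m x = 0 := by
    rcases mul_eq_zero.1 h1 with h2 | h2
    · exfalso
      have h3 : n = 0 := by exact_mod_cast h2
      obtain ⟨c, hc⟩ := hf
      rw [h3, hc] at hn2
      omega
    · exact h2
  funext y
  rcases hpm y with h | h
  · rw [h, hx0]; rfl
  · rw [h, hx0, neg_zero]; rfl

end Data

end Pool.Agent.KThree
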