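import Pool.Agent.KThree.Basic

/-!
# Sylow subgroups: transitivity, and relations fixed modulo `l`
-/

set_option autoImplicit false
set_option linter.unusedSectionVars false

namespace Pool.Agent.KThree

open MulAction

/-- a Sylow `l`-subgroup is transitive on a set with `l ^ a` elements if the group is -/
theorem sylow_transitive {D Ω : Type} [Group D] [Finite D] [MulAction D Ω] [Finite Ω]
    [IsPretransitive D Ω] (l : ℕ) [hl : Fact l.Prime] (a : ℕ) (hc : Nat.card Ω = l ^ a)
    (P : Sylow l D) (x y : Ω) : ∃ g ∈ (P : Subgroup D), g • x = y := by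
  have h1 : (stabilizer D x).index = l ^ a := by
    rw [MulAction.index_stabilizer_of_transitive, hc]
  have h2 : l ^ a ∣ (stabilizer D x).relIndex P := by
    have h3 : l ^ a ∣ ((stabilizer D x) ⊓ (P : Subgroup D)).index := by
      rw [← h1]
      exact Subgroup.index_dvd_of_le inf_le_left
    rw [← Subgroup.relIndex_mul_index (inf_le_right : (stabilizer D x) ⊓ (P : Subgroup D) ≤ P),
      Subgroup.inf_relIndex_right] at h3
    have h4 : Nat.Coprime (l ^ a) (P : Subgroup D).index :=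
      hl.out.coprime_pow_of_not_dvd P.not_dvd_index |>.symm
    exact h4.dvd_of_dvd_mul_right h3
  have h3 : (stabilizer (P : Subgroup D) x).index = (stabilizer D x).relIndex P := rfl
  have h4 : Nat.card (orbit (P : Subgroup D) x) = (stabilizer D x).relIndex P := by
    rw [← h3, index_stabilizer]
    rfl
  have h5 : (stabilizer D x).relIndex P ≠ 0 := by
    rw [← h4]
    have : Nonempty (orbit (P : Subgroup D) x) := ⟨⟨x, mem_orbit_self x⟩⟩
    exact Nat.card_pos.ne'
  have h6 : orbit (P : Subgroup D) x = Set.univ := by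
    have h7 := Nat.le_of_dvd (Nat.pos_of_ne_zero h5) h2
    rw [← h4, ← hc, Nat.card_coe_set_eq] at h7
    refine Set.eq_of_subset_of_ncard_le (Set.subset_univ _) ?_ Set.finite_univ
    rw [Set.ncard_univ]
    exact h7
  have h7 : y ∈ orbit (P : Subgroup D) x := by rw [h6]; exact Set.mem_univ y
  obtain ⟨g, hg⟩ := h7
  exact ⟨g.1, g.2, hg⟩

namespace Data

variable {G Y : Type} [Group G] [MulAction G Y] [Fintype Y] [DecidableEq Y] {S : Data G Y}

/-- a nonzero integral relation can be divided until it is not divisible by `l` -/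
theorem exists_primitive (l : ℕ) (hl : 2 ≤ l) {m₀ : Y → ℤ} (hm₀ : S.IsRel m₀) (h0 : m₀ ≠ 0) :
    ∃ m : Y → ℤ, S.IsRel m ∧ ∃ y, ¬ (l : ℤ) ∣ m y := by
  obtain ⟨N, hN⟩ : ∃ N, N = ∑ y, (m₀ y).natAbs := ⟨_, rfl⟩
  induction N using Nat.strong_induction_on generalizing m₀ with
  | _ N ih =>
    by_cases h : ∃ y, ¬ (l : ℤ) ∣ m₀ y
    · exact ⟨m₀, hm₀, h⟩
    · push Not at h
      choose m₁ hm₁ using h
      have hl0 : (l : ℤ) ≠ 0 := by omega
      have hrel : S.IsRel m₁ := by
        refine ⟨fun y => ?_, fun g => ?_⟩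
        · apply mul_left_cancel₀ hl0
          rw [← hm₁, hm₀.1, hm₁ y]
          ring
        · apply mul_left_cancel₀ hl0
          rw [Finset.mul_sum, mul_zero, ← hm₀.2 g]
          exact Finset.sum_congr rfl fun b _ => (hm₁ _).symm
      have hne : m₁ ≠ 0 := by
        rintro rfl
        apply h0
        funext y
        rw [hm₁ y]
        simp
      refine ih (∑ y, (m₁ y).natAbs) ?_ hrel hne rfl
      rw [hN]
      obtain ⟨y₀, hy₀⟩ : ∃ y, m₁ y ≠ 0 := by
        by_contra h2
        push Not at h2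
        exact hne (funext h2)
      have h3 : ∀ y, (m₀ y).natAbs = l * (m₁ y).natAbs := by
        intro y
        rw [hm₁ y, Int.natAbs_mul, Int.natAbs_natCast]
      refine Finset.sum_lt_sum (fun y _ => ?_) ⟨y₀, Finset.mem_univ _, ?_⟩
      · rw [h3 y]
        exact Nat.le_mul_of_pos_left _ (by omega)
      · rw [h3 y₀]
        have h4 : 0 < (m₁ y₀).natAbs := Int.natAbs_pos.2 hy₀
        nlinarith

variable (S) in
/-- the reductions of the integral relations modulo `l` -/
def red (l : ℕ) : AddSubgroup (Y → ZMod l) where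
  carrier := {u | ∃ m : Y → ℤ, S.IsRel m ∧ u = fun y => (m y : ZMod l)}
  add_mem' := by
    rintro _ _ ⟨m, hm, rfl⟩ ⟨m', hm', rfl⟩
    refine ⟨m + m', hm.add hm', ?_⟩
    funext y
    simp
  zero_mem' := ⟨0, isRel_zero, by funext y; simp⟩
  neg_mem' := by
    rintro _ ⟨m, hm, rfl⟩
    refine ⟨(-1 : ℤ) • m, hm.const_smul (-1), ?_⟩
    funext y
    simp

/-- the action on the reductions -/
instance redAction (l : ℕ) (P : Subgroup G) : MulAction P (S.red l) where
  smul g u := ⟨fun y => u.1 (g.1⁻¹ • y), by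
    obtain ⟨m, hm, hu⟩ := u.2
    exact ⟨fun y => m (g.1⁻¹ • y), hm.smul _, by rw [hu]⟩⟩
  one_smul u := Subtype.ext (by
    funext y
    change u.1 ((1 : G)⁻¹ • y) = u.1 y
    rw [inv_one, one_smul])
  mul_smul g h u := Subtype.ext (by
    funext y
    change u.1 ((g.1 * h.1)⁻¹ • y) = u.1 (h.1⁻¹ • g.1⁻¹ • y)
    rw [mul_inv_rev, mul_smul])

/-- If there is a nonzero relation, there is one which is fixed modulo `l` by an `l`-group and
not divisible by `l`. -/
theorem exists_fixed_mod (l : ℕ) [hl : Fact l.Prime] (P : Subgroup G) (hP : IsPGroup l P)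
    {m₀ : Y → ℤ} (hm₀ : S.IsRel m₀) (h0 : m₀ ≠ 0) :
    ∃ m : Y → ℤ, S.IsRel m ∧ (∃ y, ¬ (l : ℤ) ∣ m y) ∧
      ∀ g ∈ P, ∀ y, (l : ℤ) ∣ m (g • y) - m y := by
  have hlp := hl.out
  have : NeZero l := ⟨hlp.ne_zero⟩
  obtain ⟨m₁, hm₁, y₁, hy₁⟩ := exists_primitive l hlp.two_le hm₀ h0
  have hfin : Finite (S.red l) := inferInstance
  let u₁ : S.red l := ⟨fun y => (m₁ y : ZMod l), m₁, hm₁, rfl⟩
  have hu₁ : u₁ ≠ 0 := by
    intro h
    apply hy₁
    have h1 : (m₁ y₁ : ZMod l) = 0 := congrFun (congrArg Subtype.val h) y₁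
    exact (ZMod.intCast_zmod_eq_zero_iff_dvd _ _).1 h1
  have hdvd : l ∣ Nat.card (S.red l) := by
    have h1 : addOrderOf u₁ = l := by
      refine addOrderOf_eq_prime ?_ hu₁
      refine Subtype.ext ?_
      funext y
      change ((l • u₁ : S.red l) : Y → ZMod l) y = 0
      rw [AddSubgroup.coe_nsmul, Pi.smul_apply, nsmul_eq_mul, CharP.cast_eq_zero, zero_mul]
    have h2 := addOrderOf_dvd_natCard u₁
    rw [h1] at h2
    exact h2
  have hfix : (0 : S.red l) ∈ fixedPoints P (S.red l) := by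
    intro g
    refine Subtype.ext ?_
    funext y
    rfl
  obtain ⟨u, hu, hu0⟩ := hP.exists_fixed_point_of_prime_dvd_card_of_fixed_point (S.red l) hdvd hfix
  obtain ⟨m, hm, hum⟩ := u.2
  refine ⟨m, hm, ?_, fun g hg y => ?_⟩
  · by_contra hcon
    push Not at hcon
    apply hu0
    refine Subtype.ext ?_
    rw [hum]
    funext y
    exact ((ZMod.intCast_zmod_eq_zero_iff_dvd _ _).2 (hcon y)).symm
  · have h1 := congrFun (congrArg Subtype.val (hu ⟨g, hg⟩)) (g • y)
    change u.1 (g⁻¹ • g • y) = u.1 (g • y) at h1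
    rw [inv_smul_smul, hum] at h1
    have h2 : ((m y : ℤ) : ZMod l) = ((m (g • y) : ℤ) : ZMod l) := h1
    exact (ZMod.intCast_eq_intCast_iff_dvd_sub _ _ _).1 h2

end Data

end Pool.Agent.KThree
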