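import Pool.Agent.KThree.CasesA
import Pool.Agent.KThree.Sylow

/-!
# The cases `d` a power of two, `d = f + 1`, and `f = d = 9`
-/

set_option autoImplicit false
set_option linter.unusedSectionVars false

namespace Pool.Agent.KThree

open MulAction

namespace Data

variable {G Y : Type} [Group G] [MulAction G Y] [Fintype Y] [DecidableEq Y] {S : Data G Y}

/-- `d` a power of two, `f` odd -/
theorem eq_zero_of_two_pow [Finite G] (a : ℕ) (hY : Fintype.card Y = 2 ^ a)
    (hf : Odd S.B.card) {m₀ : Y → ℤ} (hm₀ : S.IsRel m₀) : m₀ = 0 := by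
  by_contra h0
  have : IsPretransitive G Y := ⟨S.trans⟩
  let P : Sylow 2 G := default
  obtain ⟨m, hm, ⟨y₀, hy₀⟩, hP⟩ := exists_fixed_mod 2 (P : Subgroup G) P.2 hm₀ h0
  have hodd : ∀ y, Odd (m y) := by
    intro y
    obtain ⟨g, hg, hgy⟩ := sylow_transitive 2 a (by rw [Nat.card_eq_fintype_card, hY]) P y₀ y
    have h1 := hP g hg y₀
    rw [hgy] at h1
    have h2 : ¬ (2 : ℤ) ∣ m y := by
      intro h3
      apply hy₀
      have h4 := dvd_sub h3 h1
      push_cast at h4 ⊢
      rwa [sub_sub_cancel] at h4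
    rwa [← even_iff_two_dvd, Int.not_even_iff_odd] at h2
  have h1 := hm.2 1
  have h2 : (2 : ℤ) ∣ ∑ b ∈ S.B, (m ((1 : G) • b) - 1) := by
    refine Finset.dvd_sum fun b _ => ?_
    obtain ⟨c, hc⟩ := hodd ((1 : G) • b)
    exact ⟨c, by rw [hc]; ring⟩
  rw [Finset.sum_sub_distrib, h1, Finset.sum_const, nsmul_eq_mul, mul_one, zero_sub,
    dvd_neg] at h2
  obtain ⟨c, hc⟩ := hf
  rw [hc] at h2
  push_cast at h2
  omega

/-- a set of half the size which meets no pair twice meets all pairs -/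
theorem half_iff (H : Finset Y) (hH : ∀ y ∈ H, S.inv y ∉ H) (hc : 2 * H.card = Fintype.card Y)
    (y : Y) : y ∈ H ↔ S.inv y ∉ H := by
  refine ⟨hH y, fun h => ?_⟩
  have hd : Disjoint H (H.image S.inv) := by
    rw [Finset.disjoint_left]
    intro z hz hz'
    obtain ⟨w, hw, rfl⟩ := Finset.mem_image.1 hz'
    exact hH w hw hz
  have hu : H ∪ H.image S.inv = Finset.univ := by
    apply Finset.eq_univ_of_card
    rw [Finset.card_union_of_disjoint hd, Finset.card_image_of_injective _ S.inv_injective, ← hc,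
      two_mul]
  have hy : y ∈ H ∪ H.image S.inv := by rw [hu]; exact Finset.mem_univ y
  rcases Finset.mem_union.1 hy with h1 | h1
  · exact h1
  · obtain ⟨w, hw, rfl⟩ := Finset.mem_image.1 h1
    rw [S.inv_inv] at h
    exact absurd hw h

/-- `d = f + 1`, `f` odd -/
theorem eq_zero_of_succ (hY : Fintype.card Y = 2 * (S.B.card + 1))
    (hf : Odd S.B.card) {m₀ : Y → ℤ} (hm₀ : S.IsRel m₀) : m₀ = 0 := by
  by_contra h0
  obtain ⟨m, hm, y₀, hy₀⟩ := exists_primitive 2 le_rfl hm₀ h0
  -- a point outside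
  obtain ⟨z, hz⟩ : ∃ z, z ∉ S.B ∪ S.B.image S.inv := by
    by_contra hcon
    push Not at hcon
    have h1 : S.B ∪ S.B.image S.inv = Finset.univ := by
      ext z
      simp only [hcon z, Finset.mem_univ]
    have h2 := Finset.card_union_le S.B (S.B.image S.inv)
    rw [h1, Finset.card_univ, hY, Finset.card_image_of_injective _ S.inv_injective] at h2
    omega
  have hz1 : z ∉ S.B := fun h => hz (Finset.mem_union_left _ h)
  have hz2 : S.inv z ∉ S.B := fun h => hz (Finset.mem_union_right _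
    (Finset.mem_image.2 ⟨S.inv z, h, S.inv_inv z⟩))
  set H := insert z S.B with hHdef
  have hH : ∀ y, y ∈ H ↔ S.inv y ∉ H := by
    refine half_iff H ?_ ?_
    · intro y hy h
      rcases Finset.mem_insert.1 hy with rfl | h1
      · rcases Finset.mem_insert.1 h with h2 | h2
        · exact S.inv_ne _ h2
        · exact hz2 h2
      · rcases Finset.mem_insert.1 h with h2 | h2
        · apply hz2
          rw [← h2, S.inv_inv]
          exact h1
        · exact S.disj y h1 h2
    · rw [hHdef, Finset.card_insert_of_notMem hz1, hY]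
  let ν : Y → ℤ := fun y => m y % 2
  have hν : ∀ y, ν (S.inv y) = ν y := by
    intro y
    change m (S.inv y) % 2 = m y % 2
    rw [hm.1]
    omega
  set T := ∑ y, ν y with hT
  have hkey : ∀ g : G, ∃ c : ℤ, T = 4 * c + 2 * ν (g • z) := by
    intro g
    have h1 : ∑ y, ν (g • y) = T := by
      rw [hT]
      exact Fintype.sum_equiv (MulAction.toPerm g) _ _ fun y => rfl
    have h2 := S.sum_even H hH (fun y => ν (g • y)) fun y => by
      rw [S.smul_inv, hν]
    rw [h1, hHdef, Finset.sum_insert hz1] at h2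
    have h3 : (2 : ℤ) ∣ ∑ b ∈ S.B, ν (g • b) := by
      have h4 : (2 : ℤ) ∣ ∑ b ∈ S.B, (m (g • b) - ν (g • b)) := by
        refine Finset.dvd_sum fun b _ => ?_
        change (2 : ℤ) ∣ m (g • b) - m (g • b) % 2
        omega
      rw [Finset.sum_sub_distrib, hm.2 g, zero_sub, dvd_neg] at h4
      exact h4
    obtain ⟨c, hc⟩ := h3
    refine ⟨c, ?_⟩
    rw [h2, hc]
    ring
  have hconst : ∀ y, ν y = ν y₀ := by
    intro y
    obtain ⟨g, hg⟩ := S.trans z y
    obtain ⟨g', hg'⟩ := S.trans z y₀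
    obtain ⟨c, hc⟩ := hkey g
    obtain ⟨c', hc'⟩ := hkey g'
    rw [hg] at hc
    rw [hg'] at hc'
    have h1 : ν y = 0 ∨ ν y = 1 := by
      change m y % 2 = 0 ∨ m y % 2 = 1
      omega
    have h2 : ν y₀ = 0 ∨ ν y₀ = 1 := by
      change m y₀ % 2 = 0 ∨ m y₀ % 2 = 1
      omega
    omega
  have hone : ν y₀ = 1 := by
    change m y₀ % 2 = 1
    push_cast at hy₀
    omega
  have hT2 : T = 2 * (S.B.card + 1) := by
    rw [hT, Finset.sum_congr rfl fun y _ => hconst y, hone, Finset.sum_const, Finset.card_univ, hY]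
    simp
  obtain ⟨g', hg'⟩ := S.trans z y₀
  obtain ⟨c', hc'⟩ := hkey g'
  rw [hg', hone, hT2] at hc'
  obtain ⟨k, hk⟩ := hf
  rw [hk] at hc'
  push_cast at hc'
  omega

/-- the product of two signs modulo four -/
theorem sign_mul {a b : ℤ} (ha : a = 1 ∨ a = -1) (hb : b = 1 ∨ b = -1) :
    (4 : ℤ) ∣ a * b - (a + b - 1) := by
  rcases ha with rfl | rfl <;> rcases hb with rfl | rfl <;> decide

/-- Signs with pairwise products `9` or `-3` on nine points do not separate the points. -/
theorem nine {ι : Type} [Fintype ι] [DecidableEq ι] (B : Type) [Fintype B] [DecidableEq B]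
    (hB : Fintype.card B = 9) (w : ι → B → ℤ) (hw : ∀ i b, w i b = 1 ∨ w i b = -1) (i₀ : ι)
    (hi₀ : ∀ b, w i₀ b = 1) (hp : ∀ i j, ∑ b, w i b * w j b = 9 ∨ ∑ b, w i b * w j b = -3) :
    ∃ b c : B, b ≠ c ∧ ∀ i, w i b = w i c := by
  classical
  by_contra hcon
  push Not at hcon
  set W : Finset (B → ℤ) := Finset.univ.image w with hW
  have hmem : ∀ u ∈ W, ∃ i, w i = u := by
    intro u hu
    obtain ⟨i, -, hi⟩ := Finset.mem_image.1 hu
    exact ⟨i, hi⟩
  have hsq : ∀ i, ∑ b, w i b * w i b = 9 := by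
    intro i
    have h1 : ∀ b, w i b * w i b = 1 := by
      intro b
      rcases hw i b with h | h <;> rw [h] <;> norm_num
    rw [Finset.sum_congr rfl fun b _ => h1 b]
    simp [hB]
  have hpair : ∀ u ∈ W, ∀ v ∈ W, u ≠ v → ∑ b, u b * v b = -3 := by
    intro u hu v hv huv
    obtain ⟨i, rfl⟩ := hmem u hu
    obtain ⟨j, rfl⟩ := hmem v hv
    rcases hp i j with h | h
    · exfalso
      apply huv
      have h1 : ∑ b, (w i b - w j b) ^ 2 = 0 := by
        have h2 : ∀ b, (w i b - w j b) ^ 2 =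
            w i b * w i b + w j b * w j b - 2 * (w i b * w j b) := by
          intro b
          ring
        rw [Finset.sum_congr rfl fun b _ => h2 b, Finset.sum_sub_distrib, Finset.sum_add_distrib,
          ← Finset.mul_sum, hsq, hsq, h]
        norm_num
      funext b
      have h3 := (Finset.sum_eq_zero_iff_of_nonneg fun b _ => sq_nonneg _).1 h1 b
        (Finset.mem_univ b)
      exact sub_eq_zero.1 (pow_eq_zero_iff (two_ne_zero) |>.1 h3)
    · exact h
  have hk : W.card ≤ 4 := by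
    have h1 : 0 ≤ ∑ b : B, (∑ u ∈ W, u b) ^ 2 := Finset.sum_nonneg fun b _ => sq_nonneg _
    have h2 : ∑ b : B, (∑ u ∈ W, u b) ^ 2 = ∑ u ∈ W, ∑ v ∈ W, ∑ b, u b * v b := by
      simp_rw [sq, Finset.sum_mul_sum]
      rw [Finset.sum_comm]
      refine Finset.sum_congr rfl fun u _ => ?_
      rw [Finset.sum_comm]
    have h3 : ∀ u ∈ W, ∑ v ∈ W, ∑ b, u b * v b = 12 - 3 * (W.card : ℤ) := by
      intro u hu
      rw [← Finset.add_sum_erase W _ hu]
      have h4 : ∀ v ∈ W.erase u, ∑ b, u b * v b = -3 := fun v hv =>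
        hpair u hu v (Finset.mem_of_mem_erase hv) (Finset.ne_of_mem_erase hv).symm
      rw [Finset.sum_congr rfl h4, Finset.sum_const, Finset.card_erase_of_mem hu]
      obtain ⟨i, rfl⟩ := hmem u hu
      rw [hsq]
      have h5 : 1 ≤ W.card := Finset.card_pos.2 ⟨_, hu⟩
      rw [nsmul_eq_mul, Nat.cast_sub h5]
      push_cast
      ring
    rw [h2, Finset.sum_congr rfl h3, Finset.sum_const, nsmul_eq_mul] at h1
    by_contra h4
    push Not at h4
    have h5 : (5 : ℤ) ≤ W.card := by exact_mod_cast h4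
    nlinarith
  have hone : w i₀ ∈ W := Finset.mem_image.2 ⟨i₀, Finset.mem_univ _, rfl⟩
  let φ : B → (↥(W.erase (w i₀)) → Bool) := fun b u => decide (u.1 b = 1)
  have hφ : Function.Injective φ := by
    intro b c hbc
    by_contra hne
    obtain ⟨i, hi⟩ := hcon b c hne
    apply hi
    by_cases h : w i = w i₀
    · rw [h, hi₀, hi₀]
    · have h1 := congrFun hbc ⟨w i, Finset.mem_erase.2 ⟨h,
        Finset.mem_image.2 ⟨i, Finset.mem_univ _, rfl⟩⟩⟩
      have h2 : (w i b = 1) ↔ (w i c = 1) := by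
        have h3 : decide (w i b = 1) = decide (w i c = 1) := h1
        simpa using h3
      rcases hw i b with h3 | h3 <;> rcases hw i c with h4 | h4
      · rw [h3, h4]
      · exact absurd (h2.1 h3) (by rw [h4]; decide)
      · exact absurd (h2.2 h4) (by rw [h3]; decide)
      · rw [h3, h4]
  have h1 := Fintype.card_le_of_injective φ hφ
  rw [hB, Fintype.card_fun, Fintype.card_bool, Fintype.card_coe,
    Finset.card_erase_of_mem hone] at h1
  have h2 : (2 : ℕ) ^ (W.card - 1) ≤ 2 ^ 3 := Nat.pow_le_pow_right (by norm_num) (by omega)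
  omega

end Data

end Pool.Agent.KThree
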