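import Pool.Agent.KThree.Basic

/-!
# Relations and elements which act as a cycle of prime length
-/

set_option autoImplicit false
set_option linter.unusedSectionVars false

namespace Pool.Agent.KThree

namespace Data

open Polynomial

variable {G Y : Type} [Group G] [MulAction G Y] [Fintype Y] [DecidableEq Y] {S : Data G Y}

/-- the action of `s` on the functions -/
def act (s : G) : Module.End ℚ (Y → ℚ) where
  toFun m y := m (s⁻¹ • y)
  map_add' _ _ := rfl
  map_smul' _ _ := rfl

theorem act_apply (s : G) (m : Y → ℚ) (y : Y) : act s m y = m (s⁻¹ • y) := rfl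

theorem act_e (s : G) (x : Y) : act s (S.e x) = S.e (s • x) := by
  funext y
  rw [act_apply, e_smul]

theorem act_pow_e (s : G) (x : Y) (i : ℕ) : (act s ^ i) (S.e x) = S.e (s ^ i • x) := by
  induction i with
  | zero => simp
  | succ i ih => rw [pow_succ', Module.End.mul_apply, ih, act_e, ← mul_smul, ← pow_succ']

theorem isRel_aeval (s : G) (f : ℚ[X]) {m : Y → ℚ} (hm : S.IsRel m) :
    S.IsRel (aeval (act s) f m) := by
  induction f using Polynomial.induction_on' with
  | add f g hf hg => rw [map_add, LinearMap.add_apply]; exact hf.add hg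
  | monomial n a =>
    rw [aeval_monomial, Module.End.mul_apply, Module.algebraMap_end_apply]
    refine IsRel.const_smul ?_ a
    induction n with
    | zero => simpa using hm
    | succ n ih =>
      rw [pow_succ', Module.End.mul_apply]
      exact ih.smul s⁻¹

/-- If `s` acts as a cycle of prime length `l` on the points `s ^ i • x`, and trivially outside
these points and their inverses, then all relations are constant on the cycle. -/
theorem cyc (s : G) (l : ℕ) [hl : Fact l.Prime] (x : Y) (hx : s ^ l • x = x)
    (hs : ∀ y : Y, (∀ i : ℕ, y ≠ s ^ i • x) → (∀ i : ℕ, y ≠ S.inv (s ^ i • x)) → s • y = y)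
    (hinj : ∀ i < l, ∀ j < l, s ^ i • x = s ^ j • x → i = j)
    (hdis : ∀ i < l, ∀ j < l, s ^ i • x ≠ S.inv (s ^ j • x))
    {m : Y → ℚ} (hm : S.IsRel m) : m (s • x) = m x := by
  classical
  have hlp := hl.out
  set a : ℕ → ℚ := fun i => m (s ^ (i + 1) • x) - m (s ^ i • x) with ha
  set f : ℚ[X] := ∑ i ∈ Finset.range l, monomial i (a i) with hf
  have hmod : ∀ i : ℕ, ∃ j < l, s ^ i • x = s ^ j • x := by
    intro i
    refine ⟨i % l, Nat.mod_lt _ hlp.pos, ?_⟩
    conv_lhs => rw [← Nat.mod_add_div i l, pow_add, mul_smul, pow_mul]
    congr 1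
    generalize i / l = n
    induction n with
    | zero => simp
    | succ n ih => rw [pow_succ, mul_smul, hx, ih]
  -- the difference is a combination of the functions `e (s ^ i • x)`
  have hδ : (fun y => m (s • y)) - m = aeval (act s) f (S.e x) := by
    have h1 : aeval (act s) f (S.e x) = ∑ i ∈ Finset.range l, a i • S.e (s ^ i • x) := by
      rw [hf, map_sum, LinearMap.sum_apply]
      refine Finset.sum_congr rfl fun i _ => ?_
      rw [aeval_monomial, Module.End.mul_apply, act_pow_e, Module.algebraMap_end_apply]
    rw [h1]
    funext y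
    rw [Pi.sub_apply, Finset.sum_apply]
    simp only [Pi.smul_apply, smul_eq_mul]
    have hval : ∀ j < l, ∑ i ∈ Finset.range l, a i * S.e (s ^ i • x) (s ^ j • x) = a j := by
      intro j hj
      rw [Finset.sum_eq_single j]
      · rw [e, if_pos rfl, if_neg (hdis j hj j hj)]
        ring
      · intro i hi hij
        rw [e, if_neg, if_neg]
        · ring
        · exact hdis j hj i (Finset.mem_range.1 hi)
        · intro h
          exact hij (hinj j hj i (Finset.mem_range.1 hi) h).symm
      · intro h
        exact absurd (Finset.mem_range.2 hj) h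
    by_cases h2 : ∃ i, y = s ^ i • x
    · obtain ⟨i, rfl⟩ := h2
      obtain ⟨j, hj, hij⟩ := hmod i
      rw [hij, hval j hj, ha]
      simp only
      rw [← mul_smul, ← pow_succ']
    · by_cases h3 : ∃ i, y = S.inv (s ^ i • x)
      · obtain ⟨i, rfl⟩ := h3
        obtain ⟨j, hj, hij⟩ := hmod i
        rw [hij]
        have h4 : ∀ i, a i * S.e (s ^ i • x) (S.inv (s ^ j • x)) =
            - (a i * S.e (s ^ i • x) (s ^ j • x)) := by
          intro i
          rw [e_inv, mul_neg]
        rw [Finset.sum_congr rfl fun i _ => h4 i, Finset.sum_neg_distrib, hval j hj,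
          S.smul_inv, hm.1, hm.1, ha]
        simp only
        rw [← mul_smul, ← pow_succ']
        ring
      · push Not at h2 h3
        rw [hs y h2 h3, sub_self]
        symm
        refine Finset.sum_eq_zero fun i _ => ?_
        rw [e, if_neg (h2 i), if_neg (h3 i)]
        ring
  by_cases hf0 : f = 0
  · have h1 := congrFun hδ x
    rw [hf0, map_zero, LinearMap.zero_apply, Pi.zero_apply, Pi.sub_apply, sub_eq_zero] at h1
    exact h1
  · exfalso
    -- `f` is prime to the cyclotomic polynomial
    have hdeg : f.natDegree < l := by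
      have h1 : f.natDegree ≤ l - 1 := by
        rw [hf]
        refine natDegree_sum_le_of_forall_le _ _ fun i hi => ?_
        exact (natDegree_monomial_le _).trans
          (Nat.le_sub_one_of_lt (Finset.mem_range.1 hi))
      have h2 := hlp.pos
      omega
    have hf1 : f.eval 1 = 0 := by
      rw [hf, eval_finsetSum]
      simp only [eval_monomial, one_pow, mul_one]
      rw [ha, Finset.sum_range_sub (fun i => m (s ^ i • x)), hx]
      simp
    have hirr : Irreducible (cyclotomic l ℚ) := cyclotomic.irreducible_rat hlp.pos
    have hcop : IsCoprime f (cyclotomic l ℚ) := by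
      refine ((EuclideanDomain.dvd_or_coprime _ _ hirr).resolve_left ?_).symm
      rintro ⟨c, hc⟩
      have hc0 : c ≠ 0 := by
        rintro rfl
        exact hf0 (by rw [hc, mul_zero])
      have hd : f.natDegree = (l - 1) + c.natDegree := by
        rw [hc, natDegree_mul hirr.ne_zero hc0, natDegree_cyclotomic, Nat.totient_prime hlp]
      have hcd : c.natDegree = 0 := by omega
      rw [eq_C_of_natDegree_eq_zero hcd] at hc hc0
      rw [hc, eval_mul, eval_C, eval_one_cyclotomic_prime] at hf1
      rcases mul_eq_zero.1 hf1 with h | h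
      · exact hlp.ne_zero (by exact_mod_cast h)
      · exact hc0 (by rw [h, C_0])
    obtain ⟨u, v, huv⟩ := hcop
    have hcyc : cyclotomic l ℚ * (X - 1) = X ^ l - 1 := cyclotomic_prime_mul_X_sub_one ℚ l
    have h1 : S.e (s • x) - S.e x = aeval (act s) (u * (X - 1)) ((fun y => m (s • y)) - m) := by
      have h2 : aeval (act s) ((X ^ l - 1 : ℚ[X])) (S.e x) = 0 := by
        rw [map_sub, map_pow, aeval_X, map_one, LinearMap.sub_apply, act_pow_e, hx,
          Module.End.one_apply, sub_self]
      have h3 : (u * (X - 1)) * f = (X - 1) - v * (X ^ l - 1) := by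
        rw [← hcyc]
        linear_combination (X - 1) * huv
      rw [hδ, ← Module.End.mul_apply, ← map_mul, h3, map_sub, LinearMap.sub_apply, map_mul,
        Module.End.mul_apply, h2, map_zero, sub_zero, map_sub, aeval_X, map_one,
        LinearMap.sub_apply, act_e, Module.End.one_apply]
    have h4 : S.IsRel (S.e (s • x) - S.e x) := by
      rw [h1]
      exact isRel_aeval s _ ((hm.smul s).sub hm)
    have h5 := eq_of_isRel_e h4
    have h6 : s ^ 1 • x = s ^ 0 • x := by simpa using h5
    exact one_ne_zero (hinj 1 hlp.one_lt 0 hlp.pos h6)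

end Data

end Pool.Agent.KThree
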