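import Mathlib

/-!
# Powers of K3 surfaces of odd height over finite fields: definitions
-/

set_option autoImplicit false

namespace Pool.Agent.KThree

open Polynomial

/-- `Q` has the properties (Artin, Mazur, Deligne, Yu-Yui, Taelman) of the irreducible factor of the
characteristic polynomial of the Frobenius on the transcendental part of `H^2(X)(1)` for a K3
surface `X` of finite height over a finite field of characteristic `p`: the complex roots have the
absolute value `1`, the coefficients are integers divided by powers of `p`, and over `ℚ_p` there is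
exactly one irreducible factor `A` with roots of negative valuation; `f` is the degree of `A`. -/
structure IsKThreePoly (Q : ℚ[X]) (p f : ℕ) [Fact p.Prime] : Prop where
  monic : Q.Monic
  irreducible : Irreducible Q
  weil : ∀ z : ℂ, aeval z Q = 0 → ‖z‖ = 1
  integral : ∃ N : ℕ, ∀ i : ℕ, ∃ c : ℤ, (p : ℚ) ^ N * Q.coeff i = c
  slopes : ∃ A R : ℚ_[p][X], Q.map (algebraMap ℚ ℚ_[p]) = A * R ∧ A.Monic ∧ Irreducible A ∧
    A.natDegree = f ∧ 1 < ‖A.coeff 0‖ ∧ R.Monic ∧ ∀ i : ℕ, ‖R.coeff i‖ ≤ 1

/-- No quotient of two different roots is a root of unity. -/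
def Neat (Q : ℚ[X]) : Prop :=
  ∀ z w : ℂ, aeval z Q = 0 → aeval w Q = 0 → ∀ n : ℕ, 0 < n → z ^ n = w ^ n → z = w

/-- `T` is a product of linear forms and bilinear forms which are invariant by `F`, every variable
being used once: the variables `i` and `τ i` are in the same bilinear form, the fixed points of the
involution `τ` are the variables of the linear forms. -/
def IsPairProduct {K V : Type} [Field K] [AddCommGroup V] [Module K V] (F : Module.End K V)
    {n : ℕ} (T : MultilinearMap K (fun _ : Fin n => V) K) : Prop :=
  ∃ (τ : Fin n → Fin n) (φ : Fin n → V →ₗ[K] K) (b : Fin n → V →ₗ[K] V →ₗ[K] K),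
    (∀ i, τ (τ i) = i) ∧ (∀ i x, φ i (F x) = φ i x) ∧
    (∀ i x y, b i (F x) (F y) = b i x y) ∧
    ∀ v : Fin n → V, T v = (∏ i with τ i = i, φ i (v i)) * ∏ i with i < τ i, b i (v i) (v (τ i))

end Pool.Agent.KThree
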