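import Pool.Agent.KThree.Setup

/-!
# The norms at `p` of all conjugates determine the root

PACKAGE (statement frozen). Almost a copy of `Pool/Agent/Exo5/Kron.lean` (there `Q` is integral and
its roots have absolute value `√(p ^ a)`; here they have absolute value `1` and `p ^ N Q` is
integral). Proof (`φ = emb Q p`, `L = Spl Q`): let `u = z / w = z * w'`, `w' = w⁻¹` (in `ℂ` the
conjugate of `w`, since `‖w‖ = 1`, hence also a root of `Q` there).
(1) for every root `v` of `Q` (in any field of characteristic zero) `p ^ N * v` is an algebraic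
integer: `(p ^ N v)` is a root of the monic polynomial `∑ p ^ (N (n - i)) Q.coeff i X ^ i`,
`n = deg Q`, whose coefficients are integers (`hQ.integral`, `Polynomial.scaleRoots`,
`Polynomial.integralNormalization` or directly). So `p ^ (2 N) * u` is an algebraic integer.
(2) `‖φ (g u)‖ = 1` for all `g` by hypothesis, so `u` is an algebraic integer: the private lemma
`integral_of_norm` of `Exo5/Kron.lean` (copy it with its three private helper lemmas; it is stated
for every Galois number field, with `a = 2 N`).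
(3) for every `σ : L →+* ℂ`: `‖σ u‖ = 1` by `hQ.weil`; Kronecker:
`NumberField.Embeddings.pow_eq_one_of_norm_eq_one` gives `n > 0` with `u ^ n = 1`.
(4) so `z ^ n = w ^ n`; take an embedding in `ℂ` and use `Neat`.
-/

set_option autoImplicit false

namespace Pool.Agent.KThree

open Polynomial

/-- a product of linear factors with the roots in a subring has its coefficients there -/
private theorem coeff_prod_mem {R : Type*} [CommRing R] (S : Subring R) {I : Type*} (T : Finset I)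
    (a b : I → R) (ha : ∀ i ∈ T, a i ∈ S) (hb : ∀ i ∈ T, b i ∈ S) (n : ℕ) :
    (∏ i ∈ T, (C (b i) * X - C (a i))).coeff n ∈ S := by
  classical
  have h : (∏ i ∈ T, (C (b i) * X - C (a i))) ∈ Polynomial.lifts S.subtype := by
    refine Subsemiring.prod_mem _ fun i hi => ?_
    have h1 : (C (b i) * X - C (a i) : R[X]) = C (b i) * X + C (-a i) := by
      rw [C_neg]
      ring
    rw [h1]
    refine Subsemiring.add_mem _ (Subsemiring.mul_mem _ ?_ ?_) ?_
    · exact (Polynomial.lifts S.subtype).mem_carrier.1 ⟨C ⟨b i, hb i hi⟩, by simp⟩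
    · exact ⟨X, by simp⟩
    · exact ⟨C ⟨-a i, S.neg_mem (ha i hi)⟩, by simp⟩
  rw [Polynomial.lifts_iff_coeff_lifts] at h
  obtain ⟨y, hy⟩ := h n
  rw [← hy]
  exact y.2

/-- a rational number which is a `p`-adic integer and an integer after multiplication by a power
of `p` is an integer -/
private theorem int_of_padic {p : ℕ} [Fact p.Prime] {r : ℚ} (h : ‖(r : ℚ_[p])‖ ≤ 1) {N : ℕ}
    {m : ℤ} (hm : ((p ^ N : ℕ) : ℚ) * r = m) : ∃ k : ℤ, r = k := by
  have hp := (Fact.out : p.Prime)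
  have h1 : ¬ p ∣ r.den := by
    intro hd
    have h2 := PadicInt.isUnit_iff.1 (PadicInt.isUnit_den r h)
    have h3 := (PadicInt.norm_int_lt_one_iff_dvd (p := p) (r.den : ℤ)).2 (by exact_mod_cast hd)
    rw [Int.cast_natCast] at h3
    exact absurd h2 h3.ne
  have h2 : r.den ∣ p ^ N := by
    have e1 : ((p ^ N : ℕ) : ℤ) * r.num = m * r.den := by
      have e2 : (r.num : ℚ) = r * r.den := (Rat.mul_den_eq_num r).symm
      have e3 : (((p ^ N : ℕ) : ℤ) * r.num : ℚ) = m * r.den := by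
        rw [e2, ← hm]
        push_cast
        ring
      exact_mod_cast e3
    have e4 : (r.den : ℤ) ∣ ((p ^ N : ℕ) : ℤ) * r.num := ⟨m, by rw [e1, mul_comm]⟩
    have e5 : IsCoprime (r.den : ℤ) r.num := by
      rw [Int.isCoprime_iff_gcd_eq_one]
      have := r.reduced
      rw [Int.gcd_comm]
      exact this
    have e6 := e5.dvd_of_dvd_mul_right e4
    exact_mod_cast e6
  have h3 : r.den = 1 := by
    rcases (Nat.dvd_prime_pow hp).1 h2 with ⟨k, -, hk⟩
    rcases Nat.eq_zero_or_pos k with rfl | hk0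
    · simpa using hk
    · exact absurd (hk ▸ dvd_pow_self p hk0.ne') h1
  exact ⟨r.num, (Rat.den_eq_one_iff r).1 h3 ▸ rfl⟩

private theorem norm_coeff_le {p : ℕ} [Fact p.Prime] {I : Type*} (T : Finset I)
    (x : I → PadicAlgCl p) (hx : ∀ i ∈ T, ‖x i‖ ≤ 1) (n : ℕ) :
    ‖(∏ i ∈ T, (C 1 * X - C (x i))).coeff n‖ ≤ 1 := by
  let S : Subring (PadicAlgCl p) :=
    { carrier := {x | ‖x‖ ≤ 1}
      mul_mem' := fun {x y} hx hy => by
        change ‖x * y‖ ≤ 1
        rw [norm_mul]
        exact mul_le_one₀ hx (norm_nonneg _) hy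
      one_mem' := by
        change ‖(1 : PadicAlgCl p)‖ ≤ 1
        rw [norm_one]
      add_mem' := fun {x y} hx hy => by
        change ‖x + y‖ ≤ 1
        exact (PadicAlgCl.isNonarchimedean p x y).trans (max_le hx hy)
      zero_mem' := by
        change ‖(0 : PadicAlgCl p)‖ ≤ 1
        rw [norm_zero]
        exact zero_le_one
      neg_mem' := fun {x} hx => by
        change ‖-x‖ ≤ 1
        rw [norm_neg]
        exact hx }
  exact coeff_prod_mem S T x (fun _ => 1) hx (fun _ _ => S.one_mem) n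

private theorem integral_of_norm {L : Type} [Field L] [NumberField L] [IsGalois ℚ L] {p : ℕ}
    [Fact p.Prime] (φ : L →+* PadicAlgCl p) {a : ℕ} {u : L}
    (hqu : IsIntegral ℤ (((p ^ a : ℕ) : L) * u)) (hφ : ∀ g : L ≃ₐ[ℚ] L, ‖φ (g u)‖ ≤ 1) :
    IsIntegral ℤ u := by
  classical
  set N := (Finset.univ : Finset (L ≃ₐ[ℚ] L)).card with hN
  set Q : L[X] := ∏ g : L ≃ₐ[ℚ] L, (C 1 * X - C (g u)) with hQ
  have hfix : ∀ (n : ℕ) (g : L ≃ₐ[ℚ] L), g (Q.coeff n) = Q.coeff n := by
    intro n g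
    have h1 : Q.map (g : L →+* L) = Q := by
      rw [hQ, Polynomial.map_prod]
      refine Fintype.prod_equiv (Equiv.mulLeft g) _ _ fun g' => ?_
      simp
    conv_rhs => rw [← h1, coeff_map]
    rfl
  have hrat : ∀ n, ∃ r : ℚ, algebraMap ℚ L r = Q.coeff n := by
    intro n
    have h1 := (IsGalois.mem_bot_iff_fixed (F := ℚ) (E := L) (Q.coeff n)).2 (hfix n)
    exact IntermediateField.mem_bot.1 h1
  have hZ : ∀ n, ∃ k : ℤ, Q.coeff n = k := by
    intro n
    obtain ⟨r, hr⟩ := hrat n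
    have h1 : ‖(r : ℚ_[p])‖ ≤ 1 := by
      have e1 : φ (Q.coeff n) = algebraMap ℚ_[p] (PadicAlgCl p) (r : ℚ_[p]) := by
        rw [← hr]
        have : φ.comp (algebraMap ℚ L) =
            (algebraMap ℚ_[p] (PadicAlgCl p)).comp (Rat.castHom ℚ_[p]) := Subsingleton.elim _ _
        exact RingHom.congr_fun this r
      have e2 : ‖φ (Q.coeff n)‖ ≤ 1 := by
        have e3 : φ (Q.coeff n) = (∏ g : L ≃ₐ[ℚ] L, (C (1 : PadicAlgCl p) * X -
            C (φ (g u)))).coeff n := by
          rw [← coeff_map, hQ, Polynomial.map_prod]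
          simp
        rw [e3]
        exact norm_coeff_le Finset.univ (fun g : L ≃ₐ[ℚ] L => φ (g u)) (fun g _ => hφ g) n
      rw [e1] at e2
      rw [← PadicAlgCl.norm_extends]
      exact e2
    have h2 : IsIntegral ℤ (((p ^ (a * N) : ℕ) : ℚ) * r) := by
      have e1 : algebraMap ℚ L (((p ^ (a * N) : ℕ) : ℚ) * r) =
          (∏ g : L ≃ₐ[ℚ] L, (C ((p ^ a : ℕ) : L) * X - C (g (((p ^ a : ℕ) : L) * u)))).coeff n := by
        have e2 : (∏ g : L ≃ₐ[ℚ] L, (C ((p ^ a : ℕ) : L) * X - C (g (((p ^ a : ℕ) : L) * u)))) =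
            C (((p ^ a : ℕ) : L) ^ N) * Q := by
          have e3 : ∀ g : L ≃ₐ[ℚ] L, (C ((p ^ a : ℕ) : L) * X - C (g (((p ^ a : ℕ) : L) * u)) :
              L[X]) = C ((p ^ a : ℕ) : L) * (C 1 * X - C (g u)) := by
            intro g
            have e4 : g ((p ^ a : ℕ) : L) = ((p ^ a : ℕ) : L) := map_natCast g _
            rw [map_mul, e4, C_mul, C_1]
            ring
          rw [Finset.prod_congr rfl fun g _ => e3 g, Finset.prod_mul_distrib, Finset.prod_const,
            C_pow]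
        rw [e2, coeff_C_mul, map_mul, hr]
        congr 1
        rw [map_natCast, pow_mul, Nat.cast_pow]
      have e5 : IsIntegral ℤ
          ((∏ g : L ≃ₐ[ℚ] L, (C ((p ^ a : ℕ) : L) * X - C (g (((p ^ a : ℕ) : L) * u)))).coeff n) :=
        coeff_prod_mem (integralClosure ℤ L).toSubring (Finset.univ : Finset (L ≃ₐ[ℚ] L))
          (fun g => g (((p ^ a : ℕ) : L) * u)) (fun _ => ((p ^ a : ℕ) : L))
          (fun g _ => hqu.map (g : L →ₐ[ℚ] L).toRingHom.toIntAlgHom)
          (fun _ _ => by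
            have : IsIntegral ℤ (((p ^ a : ℕ) : L)) := by
              have := isIntegral_algebraMap (R := ℤ) (A := L) (x := ((p ^ a : ℕ) : ℤ))
              rwa [map_natCast] at this
            exact this)
          n
      rw [← e1] at e5
      exact (isIntegral_algebraMap_iff (algebraMap ℚ L).injective).1 e5
    obtain ⟨m, hm⟩ := IsIntegrallyClosed.isIntegral_iff.1 h2
    obtain ⟨k, hk⟩ := int_of_padic (p := p) h1 (N := a * N) (m := m) (by rw [← hm]; rfl)
    exact ⟨k, by rw [← hr, hk, map_intCast]⟩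
  have h1 : Q ∈ Polynomial.lifts (Int.castRingHom L) := by
    rw [Polynomial.lifts_iff_coeff_lifts]
    intro n
    obtain ⟨k, hk⟩ := hZ n
    exact ⟨k, by rw [hk]; rfl⟩
  have hQm : Q.Monic := by
    rw [hQ]
    refine monic_prod_of_monic _ _ fun g _ => ?_
    rw [C_1, one_mul]
    exact monic_X_sub_C _
  obtain ⟨Q', hQ', -, hQ'm⟩ := Polynomial.lifts_and_natDegree_eq_and_monic h1 hQm
  refine ⟨Q', hQ'm, ?_⟩
  have e1 : eval₂ (algebraMap ℤ L) u Q' = eval u Q := by
    rw [← hQ', eval_map]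
    rfl
  rw [e1, hQ, eval_prod]
  refine Finset.prod_eq_zero (Finset.mem_univ (1 : L ≃ₐ[ℚ] L)) ?_
  simp

/-- the root multiplied by a power of `p` is an algebraic integer -/
private theorem integral_root {Q : ℚ[X]} {p N : ℕ} (hm : Q.Monic)
    (hN : ∀ i : ℕ, ∃ c : ℤ, (p : ℚ) ^ N * Q.coeff i = c) {K : Type} [Field K] [CharZero K] {v : K}
    (hv : eval₂ (algebraMap ℚ K) v Q = 0) : IsIntegral ℤ ((p : K) ^ N * v) := by
  have h1 : Q.scaleRoots ((p : ℚ) ^ N) ∈ Polynomial.lifts (Int.castRingHom ℚ) := by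
    rw [Polynomial.lifts_iff_coeff_lifts]
    intro i
    rw [coeff_scaleRoots]
    obtain ⟨c, hc⟩ := hN i
    rcases lt_trichotomy i Q.natDegree with hi | hi | hi
    · obtain ⟨k, hk⟩ : ∃ k, Q.natDegree - i = k + 1 := ⟨Q.natDegree - i - 1, by omega⟩
      refine ⟨c * ((p : ℤ) ^ N) ^ k, ?_⟩
      rw [hk, pow_succ, eq_intCast, Int.cast_mul, ← hc]
      push_cast
      ring
    · refine ⟨1, ?_⟩
      rw [hi, Nat.sub_self, pow_zero, mul_one, map_one]
      exact hm.symm
    · refine ⟨0, ?_⟩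
      rw [coeff_eq_zero_of_natDegree_lt hi, zero_mul, map_zero]
  obtain ⟨Q', hQ', -, hQm⟩ := Polynomial.lifts_and_natDegree_eq_and_monic h1
    ((monic_scaleRoots_iff _).2 hm)
  refine ⟨Q', hQm, ?_⟩
  have h2 := scaleRoots_eval₂_eq_zero (algebraMap ℚ K) (s := (p : ℚ) ^ N) hv
  rw [← hQ', eval₂_map] at h2
  rw [map_pow, map_natCast] at h2
  rw [← h2]
  congr 1
  exact RingHom.ext_int _ _

theorem eq_of_norm {Q : ℚ[X]} {p f : ℕ} [Fact p.Prime] (hQ : IsKThreePoly Q p f)
    (hneat : Neat Q) {z w : Rt Q}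
    (h : ∀ g : Gr Q, ‖emb Q p (g z.val)‖ = ‖emb Q p (g w.val)‖) : z = w := by
  obtain ⟨N, hN⟩ := hQ.integral
  have hr : ∀ v : Rt Q, eval₂ (algebraMap ℚ (Spl Q)) v.val Q = 0 := fun v =>
    (mem_rootSet.1 v.mem).2
  have hroot : ∀ (v : Rt Q) (σ : Spl Q →+* ℂ), aeval (σ v.val) Q = 0 := by
    intro v σ
    have h2 := congrArg σ (hr v)
    rw [map_zero, Polynomial.hom_eval₂] at h2
    rw [aeval_def, ← h2]
    congr 1
    exact Subsingleton.elim _ _
  have hnorm : ∀ (v : Rt Q) (σ : Spl Q →+* ℂ), ‖σ v.val‖ = 1 := fun v σ =>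
    hQ.weil _ (hroot v σ)
  let σ₀ : Spl Q →+* ℂ := (IsAlgClosed.lift : Spl Q →ₐ[ℚ] ℂ).toRingHom
  have hv0 : ∀ v : Rt Q, v.val ≠ 0 := by
    intro v hv
    have := hnorm v σ₀
    rw [hv, map_zero, norm_zero] at this
    exact zero_ne_one this
  have hσ0 : ∀ (v : Rt Q) (σ : Spl Q →+* ℂ), σ v.val ≠ 0 := fun v σ h1 =>
    hv0 v (σ.injective (by rw [h1, map_zero]))
  have hint : ∀ v : Rt Q, IsIntegral ℤ ((p : Spl Q) ^ N * v.val) := fun v =>
    integral_root hQ.monic hN (hr v)
  have hint' : IsIntegral ℤ ((p : Spl Q) ^ N * w.val⁻¹) := by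
    have h1 : σ₀ ((p : Spl Q) ^ N * w.val⁻¹) = starRingEnd ℂ (σ₀ ((p : Spl Q) ^ N * w.val)) := by
      have h3 : (σ₀ w.val)⁻¹ = starRingEnd ℂ (σ₀ w.val) := by
        refine inv_eq_of_mul_eq_one_right ?_
        rw [Complex.mul_conj, Complex.normSq_eq_norm_sq, hnorm]
        simp
      rw [map_mul, map_mul, map_mul, map_inv₀, h3, map_pow, map_natCast, map_pow, map_natCast]
    have h2 : IsIntegral ℤ (σ₀ ((p : Spl Q) ^ N * w.val⁻¹)) := by
      rw [h1]
      have h3 : IsIntegral ℤ (σ₀ ((p : Spl Q) ^ N * w.val)) := (hint w).map σ₀.toIntAlgHom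
      exact h3.map (starRingEnd ℂ).toIntAlgHom
    exact (isIntegral_algHom_iff σ₀.toIntAlgHom σ₀.injective).1 h2
  have hqu : IsIntegral ℤ (((p ^ (N + N) : ℕ) : Spl Q) * (z.val / w.val)) := by
    have : ((p ^ (N + N) : ℕ) : Spl Q) * (z.val / w.val) =
        ((p : Spl Q) ^ N * z.val) * ((p : Spl Q) ^ N * w.val⁻¹) := by
      rw [Nat.cast_pow, pow_add, div_eq_mul_inv]
      ring
    rw [this]
    exact (hint z).mul hint'
  have : NumberField (Spl Q) := { }
  have : IsSplittingField ℚ (Spl Q) Q := IsSplittingField.splittingField _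
  have : IsGalois ℚ (Spl Q) := isGalois_iff.2 ⟨inferInstance, Normal.of_isSplittingField Q⟩
  have huint : IsIntegral ℤ (z.val / w.val) := by
    refine integral_of_norm (emb Q p) hqu fun g => ?_
    rw [map_div₀, map_div₀, norm_div, h g]
    exact div_self_le_one _
  obtain ⟨n, hn, hun⟩ := NumberField.Embeddings.pow_eq_one_of_norm_eq_one (Spl Q) ℂ huint (by
    intro σ
    rw [map_div₀, norm_div, hnorm z σ, hnorm w σ, div_one])
  have hzw : z.val ^ n = w.val ^ n := by
    rw [div_pow, div_eq_one_iff_eq (pow_ne_zero _ (hv0 w))] at hun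
    exact hun
  apply Rt.ext
  apply σ₀.injective
  refine hneat _ _ (hroot z σ₀) (hroot w σ₀) n hn ?_
  rw [← map_pow, ← map_pow, hzw]

end Pool.Agent.KThree
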