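import Pool.Agent.KThree.Setup

/-!
# The roots of negative valuation

PACKAGE (statements frozen). We write `φ = emb Q p`; `A`, `R` from `hQ.slopes`.
* `inv_mem`: over `ℂ` the inverse of a root is the complex conjugate (`‖z‖ = 1`), which is a root
  (rational coefficients); take any embedding `Spl Q → ℂ` and pull back (`aeval` and injectivity).
* `card_Rt`: `Q` is separable (irreducible, characteristic zero) and splits in `Spl Q`
  (`card_rootSet_eq_natDegree`).
* `exists_smul`: `Q` is irreducible, `Spl Q` is normal over `ℚ`: two roots are conjugate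
  (`minpoly`, `IsConjRoot`, or `Polynomial.Gal.galAction_isPretransitive`).
* `mem_B_iff`: for a root `z` of `Q`, `y = φ z` is a root of `A` or of `R` (over `PadicAlgCl p`). If
  `R(y) = 0`: `R` is monic with coefficients of norm `≤ 1`, so `y` is integral over `ℤ_[p]` and
  `‖y‖ ≤ 1` (ultrametric: if `‖y‖ > 1` then `‖y ^ n‖ > ‖R.coeff i * y ^ i‖` for `i < n`). If
  `A(y) = 0` then `A = minpoly ℚ_[p] y` (monic irreducible) and `‖A.coeff 0‖ = ‖y‖ ^ f`
  (private `norm_coeff_zero` in `Pool/Agent/Exo5/Loc.lean`; copy it), so `‖y‖ > 1`.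
* `exists_decomp`: `φ z`, `φ w` are roots of `A` by `mem_B_iff`, so there is
  `τ : PadicAlgCl p ≃ₐ[ℚ_[p]] PadicAlgCl p` with `τ (φ z) = φ w` (`isConjRoot_iff_exists_algEquiv`);
  it restricts to `Spl Q` (private `exists_restrict` in `Exo5/Loc.lean`) and preserves the norm
  (`norm_algEquiv` there).
* `card_B`: the roots of `Q` in `PadicAlgCl p` are the `φ z` (`Q` splits in `Spl Q`), the roots of
  `A` are `f` different ones of them (`card_rootSet_eq_natDegree`), `mem_B_iff`.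
-/

set_option autoImplicit false

namespace Pool.Agent.KThree

open Polynomial

variable {Q : ℚ[X]} {p f : ℕ} [Fact p.Prime]

private theorem pl_aeval_hom {K L : Type*} [Field K] [Field L] [Algebra ℚ K] [Algebra ℚ L]
    (ψ : K →+* L) (Q : ℚ[X]) (x : K) : aeval (ψ x) Q = ψ (aeval x Q) := by
  rw [aeval_def, aeval_def, hom_eval₂]
  congr 1
  exact Subsingleton.elim _ _

private theorem pl_aeval_emb (z : Rt Q) : aeval (emb Q p z.val) Q = 0 := by
  rw [pl_aeval_hom (emb Q p) Q z.val, aeval_eq_zero_of_mem_rootSet z.mem, map_zero]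

private theorem pl_normal (Q : ℚ[X]) : Normal ℚ (Spl Q) := by
  have h : ∃ i₀ : Algebra ℚ (Spl Q), @IsSplittingField ℚ (Spl Q) _ _ i₀ Q :=
    ⟨_, IsSplittingField.splittingField Q⟩
  obtain ⟨i₀, hi⟩ := h
  have e : i₀ = DivisionRing.toRatAlgebra := Subsingleton.elim _ _
  subst e
  exact Normal.of_isSplittingField Q

private theorem pl_splits (Q : ℚ[X]) : (Q.map (algebraMap ℚ (Spl Q))).Splits := by
  have h := SplittingField.splits Q
  have e : algebraMap ℚ (Spl Q) = algebraMap ℚ (SplittingField Q) := Subsingleton.elim _ _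
  rw [e]
  exact h

private theorem pl_norm_algEquiv (τ : PadicAlgCl p ≃ₐ[ℚ_[p]] PadicAlgCl p)
    (y : PadicAlgCl p) : ‖τ y‖ = ‖y‖ := by
  rw [← PadicAlgCl.spectralNorm_eq, ← PadicAlgCl.spectralNorm_eq]
  exact (spectralNorm_eq_of_equiv τ y).symm

/-- the norm of the constant coefficient of the minimal polynomial -/
private theorem pl_norm_coeff_zero (y : PadicAlgCl p) :
    ‖(minpoly ℚ_[p] y).coeff 0‖ = ‖y‖ ^ (minpoly ℚ_[p] y).natDegree := by
  have h0 : (minpoly ℚ_[p] y).natDegree ≠ 0 :=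
    (minpoly.natDegree_pos (Algebra.IsIntegral.isIntegral y)).ne'
  have h1 := spectralNorm.spectralNorm_eq_norm_coeff_zero_rpow (K := ℚ_[p]) (L := PadicAlgCl p) y
  rw [PadicAlgCl.spectralNorm_eq] at h1
  rw [h1, ← Real.rpow_natCast, ← Real.rpow_mul (norm_nonneg _), one_div,
    inv_mul_cancel₀ (by exact_mod_cast h0), Real.rpow_one]

/-- automorphisms over `ℚ_p` restrict to the splitting field -/
private theorem pl_exists_restrict (τ : PadicAlgCl p ≃ₐ[ℚ_[p]] PadicAlgCl p) :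
    ∃ d : Gr Q, ∀ x : Spl Q, emb Q p (d x) = τ (emb Q p x) := by
  let : Algebra (Spl Q) (PadicAlgCl p) := (emb Q p).toAlgebra
  have : IsScalarTower ℚ (Spl Q) (PadicAlgCl p) := by
    refine IsScalarTower.of_algebraMap_eq fun x => ?_
    simp
  let τ' : PadicAlgCl p ≃ₐ[ℚ] PadicAlgCl p :=
    AlgEquiv.ofRingEquiv (f := τ.toRingEquiv) fun r => by simp
  have := pl_normal Q
  refine ⟨τ'.restrictNormal (Spl Q), fun x => ?_⟩
  exact τ'.restrictNormal_commutes (Spl Q) x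

/-- a root of a monic polynomial with integral coefficients is integral -/
private theorem pl_norm_le_one {R : ℚ_[p][X]} (hR : R.Monic) (hRi : ∀ i : ℕ, ‖R.coeff i‖ ≤ 1)
    {y : PadicAlgCl p} (h : aeval y R = 0) : ‖y‖ ≤ 1 := by
  by_contra hy
  push Not at hy
  rw [aeval_eq_sum_range, Finset.sum_range_succ, coeff_natDegree, hR.leadingCoeff, one_smul] at h
  have h1 : y ^ R.natDegree = - ∑ i ∈ Finset.range R.natDegree, R.coeff i • y ^ i := by
    linear_combination h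
  have h2 : ‖y‖ ^ R.natDegree = ‖∑ i ∈ Finset.range R.natDegree, R.coeff i • y ^ i‖ := by
    rw [← norm_pow, h1, norm_neg]
  rcases Nat.eq_zero_or_pos R.natDegree with h0 | h0
  · rw [h0] at h2
    simp at h2
  · have h3 : ‖∑ i ∈ Finset.range R.natDegree, R.coeff i • y ^ i‖ ≤ ‖y‖ ^ (R.natDegree - 1) := by
      refine IsUltrametricDist.norm_sum_le_of_forall_le_of_nonneg (by positivity) fun i hi => ?_
      have hi' : i ≤ R.natDegree - 1 := by
        have := Finset.mem_range.1 hi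
        omega
      rw [norm_smul, norm_pow]
      calc ‖R.coeff i‖ * ‖y‖ ^ i ≤ 1 * ‖y‖ ^ i := by
            exact mul_le_mul_of_nonneg_right (hRi i) (by positivity)
        _ = ‖y‖ ^ i := one_mul _
        _ ≤ ‖y‖ ^ (R.natDegree - 1) := pow_le_pow_right₀ hy.le hi'
    rw [← h2] at h3
    have h4 : ‖y‖ ^ (R.natDegree - 1) < ‖y‖ ^ R.natDegree :=
      pow_lt_pow_right₀ hy (by omega)
    exact absurd h3 (not_le.2 h4)

private theorem pl_mem_iff {A R : ℚ_[p][X]}
    (hAR : Q.map (algebraMap ℚ ℚ_[p]) = A * R) (hA : A.Monic) (hAi : Irreducible A)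
    (hA0 : 1 < ‖A.coeff 0‖) (hR : R.Monic) (hRi : ∀ i : ℕ, ‖R.coeff i‖ ≤ 1)
    {y : PadicAlgCl p} (hy : aeval y Q = 0) : 1 < ‖y‖ ↔ aeval y A = 0 := by
  constructor
  · intro h
    have h1 : aeval y (Q.map (algebraMap ℚ ℚ_[p])) = 0 := by
      rw [aeval_map_algebraMap]
      exact hy
    rw [hAR, _root_.map_mul, mul_eq_zero] at h1
    rcases h1 with h1 | h1
    · exact h1
    · exact absurd (pl_norm_le_one hR hRi h1) (not_le.2 h)
  · intro h
    have h1 := minpoly.eq_of_irreducible_of_monic hAi h hA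
    have h2 := pl_norm_coeff_zero y
    rw [← h1] at h2
    by_contra h3
    push Not at h3
    rw [h2] at hA0
    exact absurd (pow_le_one₀ (norm_nonneg y) h3) (not_le.2 hA0)

theorem inv_mem (hQ : IsKThreePoly Q p f) (z : Rt Q) : z.val⁻¹ ∈ Q.rootSet (Spl Q) := by
  have hQ0 : Q ≠ 0 := hQ.monic.ne_zero
  obtain ⟨ψ⟩ : Nonempty (Spl Q →+* ℂ) :=
    ⟨(IsAlgClosed.lift : Spl Q →ₐ[ℚ] ℂ).toRingHom⟩
  have hz : aeval z.val Q = 0 := aeval_eq_zero_of_mem_rootSet z.mem
  have h1 : aeval (ψ z.val) Q = 0 := by rw [pl_aeval_hom ψ, hz, map_zero]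
  have h2 := hQ.weil _ h1
  have h3 : ψ z.val⁻¹ = (starRingEnd ℂ) (ψ z.val) := by
    rw [map_inv₀, Complex.inv_def, Complex.normSq_eq_norm_sq, h2]
    simp
  rw [mem_rootSet]
  refine ⟨hQ0, ψ.injective ?_⟩
  rw [← pl_aeval_hom ψ, h3, pl_aeval_hom (starRingEnd ℂ), h1, map_zero, map_zero]

theorem card_Rt (hQ : IsKThreePoly Q p f) : Fintype.card (Rt Q) = Q.natDegree := by
  exact card_rootSet_eq_natDegree hQ.irreducible.separable (pl_splits Q)

theorem exists_smul (hQ : IsKThreePoly Q p f) (z w : Rt Q) : ∃ g : Gr Q, g • z = w := by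
  have h1 : ∀ u : Rt Q, Q = minpoly ℚ u.val := fun u =>
    minpoly.eq_of_irreducible_of_monic hQ.irreducible (aeval_eq_zero_of_mem_rootSet u.mem)
      hQ.monic
  have := pl_normal Q
  have h2 : IsConjRoot ℚ w.val z.val := by
    rw [IsConjRoot, ← h1, ← h1]
  obtain ⟨g, hg⟩ := isConjRoot_iff_exists_algEquiv.1 h2
  exact ⟨g, Rt.ext hg⟩

theorem mem_B_iff (hQ : IsKThreePoly Q p f) {A R : ℚ_[p][X]}
    (hAR : Q.map (algebraMap ℚ ℚ_[p]) = A * R) (hA : A.Monic) (hAi : Irreducible A)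
    (hA0 : 1 < ‖A.coeff 0‖) (hR : R.Monic) (hRi : ∀ i : ℕ, ‖R.coeff i‖ ≤ 1) (z : Rt Q) :
    1 < ‖emb Q p z.val‖ ↔ aeval (emb Q p z.val) A = 0 := by
  exact pl_mem_iff hAR hA hAi hA0 hR hRi (pl_aeval_emb z)

theorem exists_decomp (hQ : IsKThreePoly Q p f) {z w : Rt Q} (hz : 1 < ‖emb Q p z.val‖)
    (hw : 1 < ‖emb Q p w.val‖) :
    ∃ g : Gr Q, g • z = w ∧ ∀ x : Spl Q, ‖emb Q p (g x)‖ = ‖emb Q p x‖ := by
  obtain ⟨A, R, hAR, hA, hAi, hf, hA0, hR, hRi⟩ := hQ.slopes
  have h1 := (mem_B_iff hQ hAR hA hAi hA0 hR hRi z).1 hz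
  have h2 := (mem_B_iff hQ hAR hA hAi hA0 hR hRi w).1 hw
  have h3 := minpoly.eq_of_irreducible_of_monic hAi h1 hA
  have h4 := minpoly.eq_of_irreducible_of_monic hAi h2 hA
  have h5 : IsConjRoot ℚ_[p] (emb Q p w.val) (emb Q p z.val) := by
    rw [IsConjRoot, ← h3, ← h4]
  obtain ⟨τ, hτ⟩ := isConjRoot_iff_exists_algEquiv.1 h5
  obtain ⟨d, hd⟩ := pl_exists_restrict (Q := Q) τ
  refine ⟨d, Rt.ext ((emb Q p).injective ?_), fun x => ?_⟩
  · rw [Rt.val_smul, hd, hτ]
  · rw [hd, pl_norm_algEquiv]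

theorem card_B (hQ : IsKThreePoly Q p f) :
    (Finset.univ.filter fun z : Rt Q => 1 < ‖emb Q p z.val‖).card = f := by
  classical
  obtain ⟨A, R, hAR, hA, hAi, hf, hA0, hR, hRi⟩ := hQ.slopes
  rw [← hf, ← card_rootSet_eq_natDegree hAi.separable
    (IsAlgClosed.splits (A.map (algebraMap ℚ_[p] (PadicAlgCl p)))), ← Set.toFinset_card]
  refine Finset.card_bij (fun z _ => emb Q p z.val) ?_ ?_ ?_
  · intro z hz
    rw [Finset.mem_filter] at hz
    rw [Set.mem_toFinset, mem_rootSet]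
    exact ⟨hA.ne_zero, (mem_B_iff hQ hAR hA hAi hA0 hR hRi z).1 hz.2⟩
  · intro z _ w _ h
    exact Rt.ext ((emb Q p).injective h)
  · intro u hu
    rw [Set.mem_toFinset, mem_rootSet] at hu
    have hu1 : aeval u Q = 0 := by
      rw [← aeval_map_algebraMap ℚ_[p] u Q, hAR, _root_.map_mul, hu.2, zero_mul]
    have hu2 : u ∈ Q.rootSet (PadicAlgCl p) := by
      rw [mem_rootSet]
      exact ⟨hQ.monic.ne_zero, hu1⟩
    rw [← (pl_splits Q).image_rootSet (emb Q p).toRatAlgHom] at hu2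
    obtain ⟨z, hz, rfl⟩ := hu2
    refine ⟨Rt.mk z hz, ?_, rfl⟩
    rw [Finset.mem_filter]
    refine ⟨Finset.mem_univ _, ?_⟩
    exact (pl_mem_iff hAR hA hAi hA0 hR hRi hu1).2 hu.2

end Pool.Agent.KThree
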