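import Pool.Agent.KThree.Kron
import Pool.Agent.KThree.Places

/-!
# The data of a polynomial of K3 type

PACKAGE (statements frozen; the statements of `Kron.lean` and `Places.lean` may be used with their
sorry). We write `φ = emb Q p`, `‖φ z‖ > 0` for all roots (`z ≠ 0`: `inv_mem`, or `Q` irreducible of
degree `> 1`).
* `exists_data`: `inv z = z⁻¹` (`inv_mem`); `inv z ≠ z`: otherwise `z = ± 1`, so `‖φ (g z)‖ = 1` for
  all `g`, but by transitivity some `g z` is in `B` (`card_B`, `f > 0` as `A` is irreducible);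
  `B = univ.filter (1 < ‖φ z‖)`; `disj`: `‖φ z⁻¹‖ = ‖φ z‖⁻¹ < 1`; `trans`: `exists_smul`; `decomp`:
  `exists_decomp` (the `g` preserves all norms); `sep`: first: all elements of `B` have the same
  norm `c > 1` (`exists_decomp`), so for every root `‖φ z‖` is `c` if `z ∈ B`, `c⁻¹` if `inv z ∈ B`,
  else `1` (neither `> 1` nor `< 1`); so the hypothesis of `sep` gives `‖φ (g x)‖ = ‖φ (g y)‖` for
  all `g`, and `x = y` by `eq_of_norm` (Kron).
* `rel_of_prod`: for `g : Gr Q` apply `φ ∘ g` to `(∏ z) ^ m = 1`: `∑_{z ∈ M} log ‖φ (g z)‖ = 0`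
  (`m > 0`; compare `sum_log_eq`, `rel_of_prod` in `Pool/Agent/Exo5/Data.lean`), and
  `log ‖φ (g z)‖ = log c * S.r (g • z)` (`Basic.lean`), `log c > 0`. So
  `∑_z M.count z * S.r (g • z) = 0`, and `∑_z u z * S.r (g • z) = ∑_{b ∈ S.B} (u (g⁻¹ • b) -
  u (S.inv (g⁻¹ • b)))` for every `u` (substitute `z = g⁻¹ • y`, split `r`). Oddness: `S.inv_inv`.
-/

set_option autoImplicit false

namespace Pool.Agent.KThree

open Polynomial

variable {Q : ℚ[X]} {p f : ℕ} [Fact p.Prime]

private theorem val_ne_zero (hQ : IsKThreePoly Q p f) (z : Rt Q) : z.val ≠ 0 := by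
  intro h0
  have h1 := (mem_rootSet.1 z.mem).2
  rw [h0, ← coeff_zero_eq_aeval_zero'] at h1
  have h2 : Q.coeff 0 = 0 := by
    rwa [map_eq_zero] at h1
  have h3 : aeval (0 : ℂ) Q = 0 := by
    rw [← coeff_zero_eq_aeval_zero', h2, map_zero]
  have h4 := hQ.weil 0 h3
  rw [norm_zero] at h4
  exact zero_ne_one h4

private theorem norm_pos' (hQ : IsKThreePoly Q p f) (z : Rt Q) : 0 < ‖emb Q p z.val‖ := by
  rw [norm_pos_iff]
  exact (_root_.map_ne_zero _).2 (val_ne_zero hQ z)

private theorem f_pos (hQ : IsKThreePoly Q p f) : 0 < f := by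
  obtain ⟨A, R, _, _, hAi, hd, _⟩ := hQ.slopes
  rw [← hd]
  exact hAi.natDegree_pos

private theorem norm_smul' (g : Gr Q) (z : Rt Q) (h : ∀ x : Spl Q, ‖emb Q p (g x)‖ = ‖emb Q p x‖) :
    ‖emb Q p (g • z).val‖ = ‖emb Q p z.val‖ := by
  rw [Rt.val_smul, h]

private theorem norm_eq_of_B (hQ : IsKThreePoly Q p f) {z w : Rt Q} (hz : 1 < ‖emb Q p z.val‖)
    (hw : 1 < ‖emb Q p w.val‖) : ‖emb Q p z.val‖ = ‖emb Q p w.val‖ := by
  obtain ⟨g, hg, hn⟩ := exists_decomp hQ hz hw
  rw [← hg, norm_smul' g z hn]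

theorem exists_data (hQ : IsKThreePoly Q p f) (hneat : Neat Q) :
    ∃ S : Data (Gr Q) (Rt Q), IsData Q p S ∧ S.B.card = f := by
  classical
  have hinv : ∀ z : Rt Q, (Rt.mk z.val⁻¹ (inv_mem hQ z)).val = z.val⁻¹ := fun z => rfl
  have hnorm_inv : ∀ z : Rt Q, ‖emb Q p (Rt.mk z.val⁻¹ (inv_mem hQ z)).val‖ =
      ‖emb Q p z.val‖⁻¹ := by
    intro z
    rw [hinv, map_inv₀, norm_inv]
  have hmem : ∀ z : Rt Q, z ∈ Finset.univ.filter (fun z : Rt Q => 1 < ‖emb Q p z.val‖) ↔
      1 < ‖emb Q p z.val‖ := fun z => by simp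
  refine ⟨{
    inv := fun z => Rt.mk z.val⁻¹ (inv_mem hQ z)
    inv_inv := fun z => Rt.ext (by rw [hinv, hinv, inv_inv])
    inv_ne := ?_
    smul_inv := fun g z => Rt.ext (by rw [Rt.val_smul, hinv, hinv, Rt.val_smul, map_inv₀])
    B := Finset.univ.filter fun z : Rt Q => 1 < ‖emb Q p z.val‖
    disj := ?_
    trans := exists_smul hQ
    decomp := ?_
    sep := ?_ }, ⟨hinv, hmem⟩, card_B hQ⟩
  · intro z hz
    have h1 : z.val⁻¹ = z.val := by
      rw [← hinv z, hz]
    obtain ⟨b, hb⟩ : (Finset.univ.filter fun z : Rt Q => 1 < ‖emb Q p z.val‖).Nonempty := by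
      rw [← Finset.card_pos, card_B hQ]
      exact f_pos hQ
    rw [hmem] at hb
    obtain ⟨g, hg⟩ := exists_smul hQ z b
    have h2 : (b.val)⁻¹ = b.val := by
      rw [← hg, Rt.val_smul, ← map_inv₀, h1]
    have h3 : ‖emb Q p b.val‖⁻¹ = ‖emb Q p b.val‖ := by
      rw [← norm_inv, ← map_inv₀, h2]
    have h4 := inv_lt_one_of_one_lt₀ hb
    rw [h3] at h4
    exact lt_asymm hb h4
  · intro y hy hy'
    rw [hmem] at hy hy'
    rw [hnorm_inv] at hy'
    exact lt_asymm hy' (inv_lt_one_of_one_lt₀ hy)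
  · intro x hx y hy
    rw [hmem] at hx hy
    obtain ⟨g, hg, hn⟩ := exists_decomp hQ hx hy
    refine ⟨g, hg, fun z => ?_⟩
    rw [hmem, hmem, norm_smul' g z hn]
  · intro x y h
    refine eq_of_norm hQ hneat fun g => ?_
    obtain ⟨h1, h2⟩ := h g
    rw [hmem, hmem] at h1 h2
    rw [hnorm_inv, hnorm_inv] at h2
    rw [← Rt.val_smul, ← Rt.val_smul]
    have px := norm_pos' hQ (g • x)
    have py := norm_pos' hQ (g • y)
    by_cases c1 : 1 < ‖emb Q p (g • x).val‖
    · exact norm_eq_of_B hQ c1 (h1.1 c1)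
    · by_cases c2 : 1 < ‖emb Q p (g • x).val‖⁻¹
      · have c3 := h2.1 c2
        rw [← hnorm_inv] at c2 c3
        have h3 := norm_eq_of_B hQ c2 c3
        rw [hnorm_inv, hnorm_inv] at h3
        exact inv_injective h3
      · have c1' : ¬ 1 < ‖emb Q p (g • y).val‖ := fun h' => c1 (h1.2 h')
        have c2' : ¬ 1 < ‖emb Q p (g • y).val‖⁻¹ := fun h' => c2 (h2.2 h')
        have e : ∀ r : ℝ, 0 < r → ¬ 1 < r → ¬ 1 < r⁻¹ → r = 1 := by
          intro r hr h3 h4
          push Not at h3 h4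
          refine le_antisymm h3 ?_
          by_contra h5
          push Not at h5
          exact absurd ((one_lt_inv₀ hr).2 h5) (not_lt.2 h4)
        rw [e _ px c1 c2, e _ py c1' c2']

private theorem log_eq (hQ : IsKThreePoly Q p f) {S : Data (Gr Q) (Rt Q)} (hS : IsData Q p S)
    {b : Rt Q} (hb : b ∈ S.B) (z : Rt Q) :
    Real.log ‖emb Q p z.val‖ = Real.log ‖emb Q p b.val‖ * (S.r z : ℝ) := by
  have hinv : ∀ z : Rt Q, ‖emb Q p (S.inv z).val‖ = ‖emb Q p z.val‖⁻¹ := by
    intro z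
    rw [hS.inv, map_inv₀, norm_inv]
  have hb' := (hS.B b).1 hb
  by_cases h1 : z ∈ S.B
  · rw [Data.r_of_mem h1, norm_eq_of_B hQ ((hS.B z).1 h1) hb']
    simp
  · by_cases h2 : S.inv z ∈ S.B
    · rw [Data.r_of_inv_mem h2, ← norm_eq_of_B hQ ((hS.B _).1 h2) hb', hinv, Real.log_inv]
      simp
    · have h3 : S.r z = 0 := by
        rw [Data.r, if_neg h1, if_neg h2]
      rw [hS.B] at h1 h2
      rw [hinv] at h2
      have h4 : ‖emb Q p z.val‖ = 1 := by
        push Not at h1 h2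
        refine le_antisymm h1 ?_
        by_contra h5
        push Not at h5
        exact absurd ((one_lt_inv₀ (norm_pos' hQ z)).2 h5) (not_lt.2 h2)
      rw [h3, h4, Real.log_one]
      simp

private theorem sum_split {S : Data (Gr Q) (Rt Q)} (u : Rt Q → ℤ) (g : Gr Q) :
    ∑ z : Rt Q, u z * S.r (g⁻¹ • z) = ∑ b ∈ S.B, (u (g • b) - u (S.inv (g • b))) := by
  classical
  have h1 : ∑ z : Rt Q, u z * S.r (g⁻¹ • z) = ∑ y : Rt Q, u (g • y) * S.r y := by
    rw [← Equiv.sum_comp (MulAction.toPerm g)]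
    refine Finset.sum_congr rfl fun y _ => ?_
    rw [MulAction.toPerm_apply, inv_smul_smul]
  have h2 : ∀ y : Rt Q, S.r y = (if y ∈ S.B then 1 else 0) - (if S.inv y ∈ S.B then 1 else 0) := by
    intro y
    by_cases c1 : y ∈ S.B
    · rw [Data.r_of_mem c1, if_pos c1, if_neg (S.disj y c1)]
      simp
    · by_cases c2 : S.inv y ∈ S.B
      · rw [Data.r_of_inv_mem c2, if_neg c1, if_pos c2]
        simp
      · rw [Data.r, if_neg c1, if_neg c2, if_neg c1, if_neg c2, sub_self]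
  have h3 : ∑ y : Rt Q, u (g • y) * (if S.inv y ∈ S.B then 1 else 0) =
      ∑ y : Rt Q, u (S.inv (g • y)) * (if y ∈ S.B then 1 else 0) := by
    rw [← Equiv.sum_comp S.invEquiv]
    refine Finset.sum_congr rfl fun y _ => ?_
    change u (g • S.inv y) * (if S.inv (S.inv y) ∈ S.B then 1 else 0) = _
    rw [S.smul_inv, S.inv_inv]
  have h4 : ∀ v : Rt Q → ℤ, ∑ y : Rt Q, v y * (if y ∈ S.B then 1 else 0) = ∑ b ∈ S.B, v b := by
    intro v
    have e : ∀ y : Rt Q, v y * (if y ∈ S.B then 1 else 0) = if y ∈ S.B then v y else 0 := by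
      intro y
      split_ifs <;> simp
    rw [Finset.sum_congr rfl fun y _ => e y, Finset.sum_ite_mem, Finset.univ_inter]
  rw [h1, Finset.sum_sub_distrib, ← h4 fun b => u (g • b), ← h4 fun b => u (S.inv (g • b)), ← h3,
    ← Finset.sum_sub_distrib]
  refine Finset.sum_congr rfl fun y _ => ?_
  rw [h2 y]
  ring

theorem rel_of_prod (hQ : IsKThreePoly Q p f) {S : Data (Gr Q) (Rt Q)} (hS : IsData Q p S)
    (M : Multiset (Rt Q)) {m : ℕ} (hm : 0 < m) (h : (M.map Rt.val).prod ^ m = 1) :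
    S.IsRel fun z => (M.count z : ℤ) - (M.count (S.inv z) : ℤ) := by
  classical
  refine ⟨fun y => ?_, fun g => ?_⟩
  · change (M.count (S.inv y) : ℤ) - (M.count (S.inv (S.inv y)) : ℤ) =
      -((M.count y : ℤ) - (M.count (S.inv y) : ℤ))
    rw [S.inv_inv]
    ring
  · rcases S.B.eq_empty_or_nonempty with he | ⟨b, hb⟩
    · rw [he, Finset.sum_empty]
    · rw [← sum_split (fun z => (M.count z : ℤ)) g]
      have hc : 0 < Real.log ‖emb Q p b.val‖ := Real.log_pos ((hS.B b).1 hb)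
      -- apply the homomorphism
      have h1 : ‖emb Q p (g⁻¹ (M.map Rt.val).prod)‖ = 1 := by
        have h2 : ‖emb Q p (g⁻¹ (M.map Rt.val).prod)‖ ^ m = 1 := by
          rw [← norm_pow, ← map_pow, ← map_pow, h, map_one, map_one, norm_one]
        exact (pow_eq_one_iff_of_nonneg (norm_nonneg _) hm.ne').1 h2
      have h3 : ∀ N : Multiset (Rt Q), ‖emb Q p (g⁻¹ (N.map Rt.val).prod)‖ ≠ 0 ∧
          Real.log ‖emb Q p (g⁻¹ (N.map Rt.val).prod)‖ =
            Real.log ‖emb Q p b.val‖ * ((∑ z : Rt Q, (N.count z : ℤ) * S.r (g⁻¹ • z) : ℤ) : ℝ) := by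
        intro N
        induction N using Multiset.induction_on with
        | empty => simp
        | cons a N ih =>
          obtain ⟨ih0, ih1⟩ := ih
          have e1 : ‖emb Q p (g⁻¹ (((a ::ₘ N).map Rt.val).prod))‖ =
              ‖emb Q p (g⁻¹ • a).val‖ * ‖emb Q p (g⁻¹ (N.map Rt.val).prod)‖ := by
            rw [Multiset.map_cons, Multiset.prod_cons, map_mul, map_mul, norm_mul, Rt.val_smul]
          have e2 := (norm_pos' hQ (g⁻¹ • a)).ne'
          refine ⟨by rw [e1]; exact mul_ne_zero e2 ih0, ?_⟩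
          rw [e1, Real.log_mul e2 ih0, ih1, log_eq hQ hS hb, ← mul_add]
          congr 1
          rw [← Int.cast_add, Int.cast_inj]
          have e3 : ∀ z : Rt Q, ((Multiset.count z (a ::ₘ N) : ℕ) : ℤ) * S.r (g⁻¹ • z) =
              (if z = a then S.r (g⁻¹ • a) else 0) + (N.count z : ℤ) * S.r (g⁻¹ • z) := by
            intro z
            rw [Multiset.count_cons]
            by_cases hz : z = a
            · subst hz
              rw [if_pos rfl, if_pos rfl]
              push_cast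
              ring
            · rw [if_neg hz, if_neg hz]
              simp
          rw [Finset.sum_congr rfl fun z _ => e3 z, Finset.sum_add_distrib, Finset.sum_ite_eq',
            if_pos (Finset.mem_univ a)]
      have h4 := (h3 M).2
      rw [h1, Real.log_one] at h4
      rcases mul_eq_zero.1 h4.symm with h5 | h5
      · exact absurd h5 hc.ne'
      · exact_mod_cast h5

end Pool.Agent.KThree
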