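import Pool.Agent.KThree.Cyc

/-!
# Elements of prime power order
-/

set_option autoImplicit false
set_option linter.unusedSectionVars false

namespace Pool.Agent.KThree

namespace Data

open MulAction

variable {G Y : Type} [Group G] [MulAction G Y] [Fintype Y] [DecidableEq Y] {S : Data G Y}

open Classical in
/-- the orbit of `x` under the powers of `s` -/
noncomputable def orb (s : G) (x : Y) : Finset Y :=
  Finset.univ.filter (· ∈ orbit (Subgroup.zpowers s) x)

theorem mem_orb {s : G} {x y : Y} : y ∈ orb s x ↔ y ∈ orbit (Subgroup.zpowers s) x := by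
  classical
  simp [orb]

theorem self_mem_orb (s : G) (x : Y) : x ∈ orb s x := mem_orb.2 (mem_orbit_self x)

theorem smul_mem_orb (s : G) (x : Y) : s • x ∈ orb s x :=
  mem_orb.2 (mem_orbit x (⟨s, Subgroup.mem_zpowers s⟩ : Subgroup.zpowers s))

theorem pow_smul_mem_orb (s : G) (x : Y) (i : ℕ) : s ^ i • x ∈ orb s x :=
  mem_orb.2 (mem_orbit x (⟨s ^ i, Subgroup.npow_mem_zpowers s i⟩ : Subgroup.zpowers s))

theorem card_orb (s : G) (x : Y) : (orb s x).card = Function.minimalPeriod (s • ·) x := by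
  classical
  rw [minimalPeriod_eq_card, ← Set.toFinset_card]
  congr 1
  ext y
  rw [mem_orb, Set.mem_toFinset]

theorem orb_eq {s : G} {x y : Y} (h : y ∈ orb s x) : orb s y = orb s x := by
  have h1 := orbit_eq_iff.2 (mem_orb.1 h)
  ext z
  rw [mem_orb, mem_orb, h1]

theorem orb_disj {s : G} {x y : Y} (h : y ∉ orb s x) : Disjoint (orb s x) (orb s y) := by
  rw [Finset.disjoint_left]
  intro z hz hz'
  apply h
  rw [← orb_eq hz, orb_eq hz']
  exact self_mem_orb s y

theorem inv_mem_orb {s : G} {x y : Y} (h : y ∈ orb s x) : S.inv y ∈ orb s (S.inv x) := by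
  rw [mem_orb] at h ⊢
  obtain ⟨⟨g, hg⟩, rfl⟩ := h
  refine ⟨⟨g, hg⟩, ?_⟩
  exact S.smul_inv g x

theorem mem_orb_inv_iff {s : G} {x y : Y} : y ∈ orb s (S.inv x) ↔ S.inv y ∈ orb s x := by
  constructor
  · intro h
    have := inv_mem_orb (S := S) h
    rwa [S.inv_inv] at this
  · intro h
    have := inv_mem_orb (S := S) h
    rwa [S.inv_inv] at this

variable (S) in
theorem card_orb_inv (s : G) (x : Y) : (orb s (S.inv x)).card = (orb s x).card := by
  refine Finset.card_bij (fun y _ => S.inv y) (fun y hy => mem_orb_inv_iff.1 hy)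
    (fun y _ z _ h => S.inv_injective h) fun y hy => ⟨S.inv y, ?_, S.inv_inv y⟩
  rw [mem_orb_inv_iff, S.inv_inv]
  exact hy

theorem exists_card_orb {s : G} {l k : ℕ} [Fact l.Prime] (hs : s ^ l ^ k = 1) (x : Y) :
    ∃ n, (orb s x).card = l ^ n := by
  have h1 : Function.IsPeriodicPt (s • ·) (l ^ k) x := by
    rw [Function.IsPeriodicPt, smul_iterate, Function.IsFixedPt, hs, one_smul]
  have h2 := h1.minimalPeriod_dvd
  rw [← card_orb] at h2
  obtain ⟨n, -, hn⟩ := (Nat.dvd_prime_pow Fact.out).1 h2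
  exact ⟨n, hn⟩

theorem le_card_orb {s : G} {l k : ℕ} [Fact l.Prime] (hs : s ^ l ^ k = 1) {x : Y}
    (hx : s • x ≠ x) : ∃ n, 0 < n ∧ (orb s x).card = l ^ n := by
  obtain ⟨n, hn⟩ := exists_card_orb hs x
  refine ⟨n, Nat.pos_of_ne_zero ?_, hn⟩
  rintro rfl
  rw [pow_zero, card_orb] at hn
  have h := Function.isPeriodicPt_minimalPeriod (s • ·) x
  rw [hn] at h
  exact hx h

variable (S) in
theorem inv_notMem_orb {s : G} {l k : ℕ} [Fact l.Prime] (hl : l ≠ 2) (hs : s ^ l ^ k = 1)
    (x : Y) : S.inv x ∉ orb s x := by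
  intro h
  rw [mem_orb] at h
  obtain ⟨⟨g, hg⟩, hgx⟩ := h
  change g • x = S.inv x at hgx
  obtain ⟨n, hn⟩ := exists_card_orb hs x
  rw [card_orb] at hn
  obtain ⟨i, rfl⟩ := Subgroup.mem_zpowers_iff.1 hg
  have h1 : s ^ (2 * i) • x = x := by
    rw [two_mul, zpow_add, mul_smul, hgx, S.smul_inv, hgx, S.inv_inv]
  have h2 : ((l ^ n : ℕ) : ℤ) ∣ 2 * i := by
    rw [← hn]
    exact (MulAction.zpow_smul_eq_iff_minimalPeriod_dvd).1 h1
  have h3 : IsCoprime ((l ^ n : ℕ) : ℤ) 2 := by
    have h4 : Nat.Coprime (l ^ n) 2 := by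
      refine Nat.Coprime.pow_left n ?_
      exact (Nat.coprime_primes Fact.out Nat.prime_two).2 hl
    exact_mod_cast h4.isCoprime
  have h4 : ((l ^ n : ℕ) : ℤ) ∣ i := h3.dvd_of_dvd_mul_left h2
  rw [← hn] at h4
  have h5 : s ^ i • x = x := (MulAction.zpow_smul_eq_iff_minimalPeriod_dvd).2 h4
  rw [hgx] at h5
  exact S.inv_ne x h5

/-- If `s` is of `l`-power order and `|Y| < 4 l`, all relations are invariant by `s`. -/
theorem smul_eq_of_card_lt {s : G} {l k : ℕ} [hlf : Fact l.Prime] (hl : l ≠ 2)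
    (hs : s ^ l ^ k = 1) (hY : Fintype.card Y < 4 * l) {m : Y → ℚ} (hm : S.IsRel m) (x : Y) :
    m (s • x) = m x := by
  have hlp := hlf.out
  have hl3 : 3 ≤ l := by
    have := hlp.two_le
    omega
  by_cases hx : s • x = x
  · rw [hx]
  have hdx : Disjoint (orb s x) (orb s (S.inv x)) := orb_disj (inv_notMem_orb S hl hs x)
  have hcx : (orb s x).card = l := by
    obtain ⟨n, hn0, hn⟩ := le_card_orb hs hx
    have h1 : (orb s x).card + (orb s (S.inv x)).card ≤ Fintype.card Y := by
      rw [← Finset.card_union_of_disjoint hdx]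
      exact Finset.card_le_univ _
    rw [card_orb_inv, hn] at h1
    have h2 : n < 2 := by
      by_contra h3
      push Not at h3
      have h4 : l ^ 2 ≤ l ^ n := Nat.pow_le_pow_right hlp.pos h3
      nlinarith
    have h3 : n = 1 := by omega
    rw [hn, h3, pow_one]
  have hper : Function.minimalPeriod (s • ·) x = l := by rw [← card_orb, hcx]
  refine cyc s l x ?_ ?_ ?_ ?_ hm
  · have h := Function.isPeriodicPt_minimalPeriod (s • ·) x
    rw [hper, Function.IsPeriodicPt, smul_iterate] at h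
    exact h
  · intro y hy1 hy2
    by_contra hy
    have hyx : y ∉ orb s x := by
      intro h
      rw [mem_orb] at h
      obtain ⟨⟨g, hg⟩, hgx⟩ := h
      change g • x = y at hgx
      have hfin : IsOfFinOrder s := isOfFinOrder_iff_pow_eq_one.2 ⟨l ^ k, pow_pos hlp.pos k, hs⟩
      obtain ⟨i, rfl⟩ := (hfin.mem_powers_iff_mem_zpowers).2 hg
      exact hy1 i hgx.symm
    have hyx' : S.inv y ∉ orb s x := by
      intro h
      rw [mem_orb] at h
      obtain ⟨⟨g, hg⟩, hgx⟩ := h
      change g • x = S.inv y at hgx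
      have hfin : IsOfFinOrder s := isOfFinOrder_iff_pow_eq_one.2 ⟨l ^ k, pow_pos hlp.pos k, hs⟩
      obtain ⟨i, rfl⟩ := (hfin.mem_powers_iff_mem_zpowers).2 hg
      refine hy2 i ?_
      change s ^ i • x = S.inv y at hgx
      rw [hgx, S.inv_inv]
    obtain ⟨n, hn0, hn⟩ := le_card_orb hs hy
    have hly : l ≤ (orb s y).card := by
      rw [hn]
      exact Nat.le_self_pow hn0.ne' l
    have hdy : Disjoint (orb s y) (orb s (S.inv y)) := orb_disj (inv_notMem_orb S hl hs y)
    have hd1 : Disjoint (orb s x) (orb s y) := orb_disj hyx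
    have hd2 : Disjoint (orb s x) (orb s (S.inv y)) := orb_disj hyx'
    have hd3 : Disjoint (orb s (S.inv x)) (orb s y) := by
      apply orb_disj
      rw [mem_orb_inv_iff]
      exact hyx'
    have hd4 : Disjoint (orb s (S.inv x)) (orb s (S.inv y)) := by
      apply orb_disj
      rw [mem_orb_inv_iff, S.inv_inv]
      exact hyx
    have h1 : Disjoint (orb s x ∪ orb s (S.inv x)) (orb s y ∪ orb s (S.inv y)) := by
      rw [Finset.disjoint_union_left, Finset.disjoint_union_right, Finset.disjoint_union_right]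
      exact ⟨⟨hd1, hd2⟩, hd3, hd4⟩
    have h2 : ((orb s x ∪ orb s (S.inv x)) ∪ (orb s y ∪ orb s (S.inv y))).card ≤
      Fintype.card Y := Finset.card_le_univ _
    rw [Finset.card_union_of_disjoint h1, Finset.card_union_of_disjoint hdx,
      Finset.card_union_of_disjoint hdy, card_orb_inv, card_orb_inv, hcx] at h2
    omega
  · intro i hi j hj hij
    have h := Function.iterate_injOn_Iio_minimalPeriod (f := (s • · : Y → Y)) (x := x)
    rw [hper] at h
    refine h (Set.mem_Iio.2 hi) (Set.mem_Iio.2 hj) ?_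
    simp only [smul_iterate]
    exact hij
  · intro i hi j hj hij
    rw [Finset.disjoint_left] at hdx
    refine hdx (pow_smul_mem_orb s x i) ?_
    rw [hij, ← S.smul_inv]
    exact pow_smul_mem_orb s (S.inv x) j

end Data

end Pool.Agent.KThree
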