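import Pool.Agent.KThree.Basic
import Pool.Agent.KThree.Defs

/-!
# The roots and the Galois group
-/

set_option autoImplicit false

namespace Pool.Agent.KThree

open Polynomial

/-- the splitting field of `Q` -/
abbrev Spl (Q : ℚ[X]) : Type := Q.SplittingField

/-- the Galois group of `Q` -/
abbrev Gr (Q : ℚ[X]) : Type := Spl Q ≃ₐ[ℚ] Spl Q

/-- the roots of `Q` in the splitting field -/
def Rt (Q : ℚ[X]) : Type := Q.rootSet (Spl Q)

namespace Rt

variable {Q : ℚ[X]}

/-- the root as an element of the splitting field -/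
def val (z : Rt Q) : Spl Q := z.1

theorem ext {z w : Rt Q} (h : z.val = w.val) : z = w := Subtype.ext h

theorem mem (z : Rt Q) : z.val ∈ Q.rootSet (Spl Q) := z.2

/-- a root -/
def mk (z : Spl Q) (h : z ∈ Q.rootSet (Spl Q)) : Rt Q := ⟨z, h⟩

@[simp] theorem val_mk (z : Spl Q) (h : z ∈ Q.rootSet (Spl Q)) : (mk z h).val = z := rfl

noncomputable instance : Fintype (Rt Q) := inferInstanceAs (Fintype (Q.rootSet (Spl Q)))

noncomputable instance : DecidableEq (Rt Q) := Classical.decEq _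

theorem smul_mem (g : Gr Q) {z : Spl Q} (h : z ∈ Q.rootSet (Spl Q)) :
    g z ∈ Q.rootSet (Spl Q) := by
  rw [mem_rootSet] at h ⊢
  refine ⟨h.1, ?_⟩
  have := aeval_algHom_apply (g : Spl Q →ₐ[ℚ] Spl Q) z Q
  rw [h.2, map_zero] at this
  exact this

noncomputable instance : MulAction (Gr Q) (Rt Q) where
  smul g z := mk (g z.val) (smul_mem g z.mem)
  one_smul _ := ext rfl
  mul_smul _ _ _ := ext rfl

@[simp] theorem val_smul (g : Gr Q) (z : Rt Q) : (g • z).val = g z.val := rfl

end Rt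

/-- an embedding of the splitting field in the algebraic closure of `ℚ_p` -/
noncomputable def emb (Q : ℚ[X]) (p : ℕ) [Fact p.Prime] : Spl Q →+* PadicAlgCl p :=
  (IsAlgClosed.lift : Spl Q →ₐ[ℚ] PadicAlgCl p).toRingHom

/-- `S` is the data of the polynomial `Q` -/
structure IsData (Q : ℚ[X]) (p : ℕ) [Fact p.Prime] (S : Data (Gr Q) (Rt Q)) : Prop where
  inv : ∀ z : Rt Q, (S.inv z).val = z.val⁻¹
  B : ∀ z : Rt Q, z ∈ S.B ↔ 1 < ‖emb Q p z.val‖

end Pool.Agent.KThree
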